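import Pool.Agent.Work.MP_6241b7_aa.Interface

/-!
# Block CSU (helper26): the counting sum
-/

set_option autoImplicit false

open Finset

namespace Pool.AA

namespace CSU

/-- number of rooted trees, as a real -/
theorem card_real (h1 : Stmt_CNT) {n : ℕ} (M : Finset (Fin n)) (v : Fin n) (hv : v ∈ M) :
    ((FF M {v}).card : ℝ) = (M.card : ℝ) ^ (M.card - 1) / M.card := by
  have h := h1 n M {v} (by simpa using hv) (singleton_nonempty v)
  rw [card_singleton, one_mul] at h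
  have hM : (0 : ℝ) < M.card := by exact_mod_cast card_pos.2 ⟨v, hv⟩
  rw [eq_div_iff hM.ne']
  exact_mod_cast h

/-- the summand as a function of the size -/
noncomputable def cc (N m : ℕ) : ℝ :=
  ((m : ℝ) ^ (m - 1) / m) * (((N - m : ℕ) : ℝ) ^ (N - m - 1) / ((N - m : ℕ) : ℝ)) *
    ((N - m : ℕ) : ℝ)

theorem key (N m : ℕ) (h1 : 1 ≤ m) (h2 : m < N) :
    ((N - 1).choose m : ℝ) * (m * cc N m) = ((N : ℝ) ^ (N - 1) / N) * ee N m := by
  obtain ⟨k, rfl⟩ : ∃ k, N = m + k + 1 := ⟨N - m - 1, by omega⟩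
  obtain ⟨l, rfl⟩ : ∃ l, m = l + 1 := ⟨m - 1, by omega⟩
  have e1 : l + 1 + k + 1 - (l + 1) = k + 1 := by omega
  have e2 : l + 1 + k + 1 - 1 = l + 1 + k := by omega
  unfold cc ee aa
  rw [e1, e2]
  have e3 : ((l + 1 + k).choose (l + 1) : ℝ) =
      ((l + 1 + k).factorial : ℝ) / ((l + 1).factorial * k.factorial) := by
    rw [Nat.cast_choose ℝ (by omega)]
    congr 3
    congr 1
    omega
  rw [e3]
  simp only [Nat.add_sub_cancel]
  have f1 : ((l + 1 + k + 1).factorial : ℝ) =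
      ((l + 1 + k + 1 : ℕ) : ℝ) * (l + 1 + k).factorial := by
    rw [Nat.factorial_succ]
    push_cast
    ring
  have f2 : ((k + 1).factorial : ℝ) = ((k + 1 : ℕ) : ℝ) * k.factorial := by
    rw [Nat.factorial_succ]
    push_cast
    ring
  rw [f1, f2]
  have p1 : (0 : ℝ) < ((l + 1 : ℕ) : ℝ) := by positivity
  have p2 : (0 : ℝ) < ((k + 1 : ℕ) : ℝ) := by positivity
  have p3 : (0 : ℝ) < ((l + 1 + k + 1 : ℕ) : ℝ) := by positivity
  have p4 : (0 : ℝ) < ((l + 1).factorial : ℝ) := by positivity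
  have p5 : (0 : ℝ) < (k.factorial : ℝ) := by positivity
  have p6 : (0 : ℝ) < ((l + 1 + k).factorial : ℝ) := by positivity
  have q1 : ((l + 1 : ℕ) : ℝ) ^ (l + 1) = ((l + 1 : ℕ) : ℝ) ^ l * ((l + 1 : ℕ) : ℝ) := pow_succ _ _
  have q2 : ((k + 1 : ℕ) : ℝ) ^ (k + 1) = ((k + 1 : ℕ) : ℝ) ^ k * ((k + 1 : ℕ) : ℝ) := pow_succ _ _
  have q3 : ((l + 1 + k + 1 : ℕ) : ℝ) ^ (l + 1 + k + 1) =
      ((l + 1 + k + 1 : ℕ) : ℝ) ^ (l + 1 + k) * ((l + 1 + k + 1 : ℕ) : ℝ) := pow_succ _ _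
  rw [q1, q2, q3]
  have r1 : (0 : ℝ) < ((l + 1 : ℕ) : ℝ) ^ l := by positivity
  have r2 : (0 : ℝ) < ((k + 1 : ℕ) : ℝ) ^ k := by positivity
  have r3 : (0 : ℝ) < ((l + 1 + k + 1 : ℕ) : ℝ) ^ (l + 1 + k) := by positivity
  generalize ((l + 1 : ℕ) : ℝ) ^ l = A at *
  generalize ((k + 1 : ℕ) : ℝ) ^ k = B at *
  generalize ((l + 1 + k + 1 : ℕ) : ℝ) ^ (l + 1 + k) = D at *
  generalize ((l + 1 : ℕ) : ℝ) = a at *
  generalize ((k + 1 : ℕ) : ℝ) = b at *
  generalize ((l + 1 + k + 1 : ℕ) : ℝ) = d at *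
  generalize ((l + 1).factorial : ℝ) = x at *
  generalize (k.factorial : ℝ) = y at *
  generalize ((l + 1 + k).factorial : ℝ) = z at *
  field_simp

end CSU

theorem stmt_CSU (h1 : Stmt_CNT) : Stmt_CSU := by
  classical
  intro n V r hr ψ
  have hN : 1 ≤ V.card := card_pos.2 ⟨r, hr⟩
  have hE : (V.erase r).card = V.card - 1 := card_erase_of_mem hr
  -- the summand depends only on the size
  have hs : ∀ v ∈ V.erase r, ∀ M ∈ V.powerset.filter (fun M => v ∈ M ∧ r ∉ M),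
      ((FF M {v}).card : ℝ) * (FF (V \ M) {r}).card * (V \ M).card * ψ M.card =
        CSU.cc V.card M.card * ψ M.card := by
    intro v hv M hM
    rw [mem_filter, mem_powerset] at hM
    obtain ⟨hMV, hvM, hrM⟩ := hM
    have hc : (V \ M).card = V.card - M.card := card_sdiff_of_subset hMV
    rw [CSU.card_real h1 M v hvM, CSU.card_real h1 (V \ M) r (by simp [hr, hrM]), hc]
    rfl
  rw [sum_congr rfl fun v hv => sum_congr rfl fun M hM => hs v hv M hM]
  -- swap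
  have hswap : ∑ v ∈ V.erase r, ∑ M ∈ V.powerset.filter (fun M => v ∈ M ∧ r ∉ M),
      CSU.cc V.card M.card * ψ M.card =
      ∑ M ∈ (V.erase r).powerset, ∑ _v ∈ M, CSU.cc V.card M.card * ψ M.card := by
    refine sum_comm' ?_
    intro v M
    simp only [mem_filter, mem_powerset, mem_erase]
    constructor
    · rintro ⟨⟨hvr, hvV⟩, hMV, hvM, hrM⟩
      refine ⟨hvM, fun x hx => ?_⟩
      rw [mem_erase]
      exact ⟨fun h => hrM (h ▸ hx), hMV hx⟩
    · rintro ⟨hvM, hM⟩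
      have h2 := hM hvM
      rw [mem_erase] at h2
      refine ⟨h2, fun x hx => mem_of_mem_erase (hM hx), hvM, fun h => ?_⟩
      have := hM h
      simp at this
  rw [hswap]
  simp only [sum_const, nsmul_eq_mul]
  rw [sum_powerset_apply_card (fun m => (m : ℝ) * (CSU.cc V.card m * ψ m)), hE]
  have hr1 : V.card - 1 + 1 = V.card := by omega
  rw [hr1, range_eq_Ico, sum_eq_sum_Ico_succ_bot (by omega)]
  simp only [Nat.choose_zero_right, Nat.cast_zero, zero_mul, smul_zero, zero_add]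
  rw [mul_sum]
  refine sum_congr rfl fun m hm => ?_
  rw [mem_Ico] at hm
  rw [CSU.card_real h1 V r hr, nsmul_eq_mul]
  have := CSU.key V.card m hm.1 hm.2
  linear_combination ψ m * this

end Pool.AA
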