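import Pool.Agent.Work.MP_6241b7_aa.Interface

set_option autoImplicit false

open Finset

namespace Pool.AA

namespace DEC

variable {n : ℕ}

lemma mem_FF {V R : Finset (Fin n)} {f : Fin n → Fin n} : f ∈ FF V R ↔ IsF V R f := by
  classical
  simp [FF]

lemma mem_Ds {f : Fin n → Fin n} {v w : Fin n} : w ∈ Ds f v ↔ ∃ i, f^[i] w = v := by
  classical
  simp [Ds]

/-- the part of `f` on `M` -/
noncomputable def gg (M : Finset (Fin n)) (v : Fin n) (f : Fin n → Fin n) : Fin n → Fin n := by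
  classical
  exact fun w => if w ∈ M ∧ w ≠ v then f w else w

/-- the part of `f` on `U` -/
noncomputable def hh (U : Finset (Fin n)) (f : Fin n → Fin n) : Fin n → Fin n := by
  classical
  exact fun w => if w ∈ U then f w else w

lemma reach_fix {f : Fin n → Fin n} {r : Fin n} (hr : f r = r) (i : ℕ) : f^[i] r = r := by
  induction i with
  | zero => rfl
  | succ i ih => rw [Function.iterate_succ_apply, hr, ih]

lemma isF_gg {M : Finset (Fin n)} {v : Fin n} {f : Fin n → Fin n}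
    (hv : v ∈ M) (hM : Ds f v = M) : IsF M {v} (gg M v f) := by
  classical
  refine ⟨fun w hw => ?_, fun w hw => ?_, fun w hw => ?_, fun w hw => ?_⟩
  · simp [gg, hw]
  · rw [mem_singleton] at hw
    subst hw
    simp [gg]
  · by_cases hwv : w = v
    · subst hwv
      simpa [gg] using hv
    · have h1 : gg M v f w = f w := by simp [gg, hw, hwv]
      rw [h1, ← hM]
      rw [← hM, mem_Ds] at hw
      obtain ⟨i, hi⟩ := hw
      rw [mem_Ds]
      cases i with
      | zero => exact absurd hi hwv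
      | succ i => exact ⟨i, hi⟩
  · have key : ∀ (i : ℕ) (w : Fin n), f^[i] w = v → ∃ j, (gg M v f)^[j] w = v := by
      intro i
      induction i with
      | zero => exact fun w h => ⟨0, h⟩
      | succ i ih =>
        intro w h
        by_cases hwv : w = v
        · exact ⟨0, hwv⟩
        · have hwM : w ∈ M := by
            rw [← hM, mem_Ds]
            exact ⟨i + 1, h⟩
          have h1 : gg M v f w = f w := by simp [gg, hwM, hwv]
          obtain ⟨j, hj⟩ := ih (f w) h
          refine ⟨j + 1, ?_⟩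
          rw [Function.iterate_succ_apply, h1, hj]
    rw [← hM, mem_Ds] at hw
    obtain ⟨i, hi⟩ := hw
    obtain ⟨j, hj⟩ := key i w hi
    exact ⟨j, by rw [hj]; exact mem_singleton_self v⟩

lemma f_mem {V M : Finset (Fin n)} {r v : Fin n} {f : Fin n → Fin n} (hf : IsF V {r} f)
    (hM : Ds f v = M) {w : Fin n} (hw : w ∈ V \ M) : f w ∈ V \ M := by
  classical
  rw [mem_sdiff] at hw ⊢
  refine ⟨hf.2.2.1 w hw.1, fun h => hw.2 ?_⟩
  rw [← hM, mem_Ds] at h ⊢
  obtain ⟨i, hi⟩ := h
  exact ⟨i + 1, hi⟩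

lemma isF_hh {V M : Finset (Fin n)} {r v : Fin n} {f : Fin n → Fin n} (hf : IsF V {r} f)
    (hM : Ds f v = M) (hr : r ∈ V \ M) : IsF (V \ M) {r} (hh (V \ M) f) := by
  classical
  have hin : ∀ w ∈ V \ M, hh (V \ M) f w = f w := fun w hw => by
    unfold hh
    rw [if_pos hw]
  have hout : ∀ w, w ∉ V \ M → hh (V \ M) f w = w := fun w hw => by
    unfold hh
    rw [if_neg hw]
  refine ⟨hout, fun w hw => ?_, fun w hw => ?_, fun w hw => ?_⟩
  · rw [mem_singleton] at hw
    subst hw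
    rw [hin _ hr]
    exact hf.2.1 _ (mem_singleton_self _)
  · rw [hin w hw]
    exact f_mem hf hM hw
  · have key : ∀ (i : ℕ) (w : Fin n), w ∈ V \ M → f^[i] w = r →
        ∃ j, (hh (V \ M) f)^[j] w = r := by
      intro i
      induction i with
      | zero => exact fun w _ h => ⟨0, h⟩
      | succ i ih =>
        intro w hwV h
        obtain ⟨j, hj⟩ := ih (f w) (f_mem hf hM hwV) h
        refine ⟨j + 1, ?_⟩
        rw [Function.iterate_succ_apply, hin w hwV, hj]
    obtain ⟨i, hi⟩ := hf.2.2.2 w (mem_sdiff.1 hw).1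
    obtain ⟨j, hj⟩ := key i w hw (mem_singleton.1 hi)
    exact ⟨j, by rw [hj]; exact mem_singleton_self r⟩

lemma f_v_mem {V M : Finset (Fin n)} {r v : Fin n} {f : Fin n → Fin n} (hf : IsF V {r} f)
    (hMV : M ⊆ V) (hrM : r ∉ M) (hvM : v ∈ M) (hM : Ds f v = M) : f v ∈ V \ M := by
  classical
  rw [mem_sdiff]
  refine ⟨hf.2.2.1 v (hMV hvM), fun h => ?_⟩
  rw [← hM, mem_Ds] at h
  obtain ⟨i, hi⟩ := h
  have hper : f^[i + 1] v = v := hi
  obtain ⟨j, hj⟩ := hf.2.2.2 v (hMV hvM)
  rw [mem_singleton] at hj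
  have hr : f r = r := hf.2.1 r (mem_singleton_self r)
  have h1 : ∀ k : ℕ, f^[(i + 1) * k] v = v := by
    intro k
    induction k with
    | zero => rfl
    | succ k ih => rw [Nat.mul_succ, Function.iterate_add_apply, hper, ih]
  have h2 : f^[(i + 1) * j] v = r := by
    have : (i + 1) * j = i * j + j := by ring
    rw [this, Function.iterate_add_apply, hj, reach_fix hr]
  rw [h1 j] at h2
  exact hrM (h2 ▸ hvM)

lemma glue_parts {V M : Finset (Fin n)} {r v : Fin n} {f : Fin n → Fin n} (hf : IsF V {r} f) :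
    glue M v (gg M v f) (hh (V \ M) f) (f v) = f := by
  classical
  funext w
  unfold glue
  by_cases hwv : w = v
  · rw [if_pos hwv, hwv]
  · rw [if_neg hwv]
    by_cases hwM : w ∈ M
    · rw [if_pos hwM]
      simp [gg, hwM, hwv]
    · rw [if_neg hwM]
      unfold hh
      by_cases hwV : w ∈ V
      · rw [if_pos (mem_sdiff.2 ⟨hwV, hwM⟩)]
      · rw [if_neg (fun h => hwV (mem_sdiff.1 h).1), hf.1 w hwV]

lemma isF_glue {V M : Finset (Fin n)} {r v : Fin n} {g h : Fin n → Fin n} {p : Fin n}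
    (hMV : M ⊆ V) (hrV : r ∈ V) (hrM : r ∉ M) (hvM : v ∈ M) (hg : IsF M {v} g)
    (hh' : IsF (V \ M) {r} h) (hp : p ∈ V \ M) (hD : Ds (glue M v g h p) v = M) :
    IsF V {r} (glue M v g h p) := by
  classical
  have hv : glue M v g h p v = p := by simp [glue]
  have hout : ∀ w, w ∉ M → glue M v g h p w = h w := fun w hw => by
    have hwv : w ≠ v := fun e => hw (e ▸ hvM)
    simp [glue, hw, hwv]
  have hin : ∀ w, w ∈ M → w ≠ v → glue M v g h p w = g w := fun w hw hwv => by
    simp [glue, hw, hwv]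
  have hreach : ∀ (i : ℕ) (w : Fin n), w ∈ V \ M →
      (glue M v g h p)^[i] w = h^[i] w := by
    intro i
    induction i with
    | zero => exact fun w _ => rfl
    | succ i ih =>
      intro w hw
      rw [Function.iterate_succ_apply, Function.iterate_succ_apply, hout w (mem_sdiff.1 hw).2,
        ih _ (hh'.2.2.1 w hw)]
  refine ⟨fun w hw => ?_, fun w hw => ?_, fun w hw => ?_, fun w hw => ?_⟩
  · rw [hout w (fun hwM => hw (hMV hwM))]
    exact hh'.1 w (fun h => hw (mem_sdiff.1 h).1)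
  · rw [mem_singleton] at hw
    subst hw
    rw [hout _ hrM]
    exact hh'.2.1 _ (mem_singleton_self _)
  · by_cases hwM : w ∈ M
    · by_cases hwv : w = v
      · rw [hwv, hv]
        exact (mem_sdiff.1 hp).1
      · rw [hin w hwM hwv]
        exact hMV (hg.2.2.1 w hwM)
    · rw [hout w hwM]
      exact (mem_sdiff.1 (hh'.2.2.1 w (mem_sdiff.2 ⟨hw, hwM⟩))).1
  · by_cases hwM : w ∈ M
    · rw [← hD, mem_Ds] at hwM
      obtain ⟨i, hi⟩ := hwM
      obtain ⟨j, hj⟩ := hh'.2.2.2 p hp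
      refine ⟨j + (i + 1), ?_⟩
      rw [Function.iterate_add_apply, Function.iterate_succ_apply', hi, hv, hreach j p hp]
      exact hj
    · obtain ⟨j, hj⟩ := hh'.2.2.2 w (mem_sdiff.2 ⟨hw, hwM⟩)
      refine ⟨j, ?_⟩
      rw [hreach j w (mem_sdiff.2 ⟨hw, hwM⟩)]
      exact hj

lemma gg_glue {M : Finset (Fin n)} {v : Fin n} {g h : Fin n → Fin n} {p : Fin n}
    (hg : IsF M {v} g) : gg M v (glue M v g h p) = g := by
  classical
  funext w
  unfold gg
  by_cases hw : w ∈ M ∧ w ≠ v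
  · rw [if_pos hw]
    simp [glue, hw.1, hw.2]
  · rw [if_neg hw]
    by_cases hwM : w ∈ M
    · have hwv : w = v := by
        by_contra hne
        exact hw ⟨hwM, hne⟩
      rw [hwv]
      exact (hg.2.1 v (mem_singleton_self v)).symm
    · exact (hg.1 w hwM).symm

lemma hh_glue {V M : Finset (Fin n)} {r v : Fin n} {g h : Fin n → Fin n} {p : Fin n}
    (hvM : v ∈ M) (hh' : IsF (V \ M) {r} h) : hh (V \ M) (glue M v g h p) = h := by
  classical
  funext w
  unfold hh
  by_cases hw : w ∈ V \ M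
  · rw [if_pos hw]
    have hwM := (mem_sdiff.1 hw).2
    have hwv : w ≠ v := fun e => hwM (e ▸ hvM)
    simp [glue, hwM, hwv]
  · rw [if_neg hw]
    exact (hh'.1 w hw).symm

end DEC

open DEC in
theorem stmt_DEC (hDSZ : Stmt_DSZ) : Stmt_DEC := by
  classical
  intro n V M r v hMV hrV hrM hvM Y
  have hrVM : r ∈ V \ M := mem_sdiff.2 ⟨hrV, hrM⟩
  have e1 : (∑ g ∈ FF M {v}, ∑ h ∈ FF (V \ M) {r}, ∑ p ∈ V \ M, Y (glue M v g h p)) =
      ∑ x ∈ FF M {v} ×ˢ (FF (V \ M) {r} ×ˢ (V \ M)), Y (glue M v x.1 x.2.1 x.2.2) := by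
    rw [Finset.sum_product]
    refine Finset.sum_congr rfl fun g _ => ?_
    rw [Finset.sum_product]
  rw [e1]
  refine Finset.sum_nbij' (fun f => (gg M v f, hh (V \ M) f, f v))
    (fun x => glue M v x.1 x.2.1 x.2.2) ?_ ?_ ?_ ?_ ?_
  · intro f hf
    rw [mem_filter, mem_FF] at hf
    obtain ⟨hf, hM⟩ := hf
    rw [mem_product, mem_product]
    exact ⟨mem_FF.2 (isF_gg hvM hM), mem_FF.2 (isF_hh hf hM hrVM),
      f_v_mem hf hMV hrM hvM hM⟩
  · rintro ⟨g, h, p⟩ hx
    rw [mem_product, mem_product] at hx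
    obtain ⟨hg, hh', hp⟩ := hx
    have hD := (hDSZ n V M r v hMV hrV hrM hvM g hg h hh' p hp).1
    rw [mem_filter, mem_FF]
    exact ⟨isF_glue hMV hrV hrM hvM (mem_FF.1 hg) (mem_FF.1 hh') hp hD, hD⟩
  · intro f hf
    rw [mem_filter, mem_FF] at hf
    exact glue_parts hf.1
  · rintro ⟨g, h, p⟩ hx
    rw [mem_product, mem_product] at hx
    obtain ⟨hg, hh', hp⟩ := hx
    have e2 : glue M v g h p v = p := by simp [glue]
    exact Prod.ext (gg_glue (mem_FF.1 hg)) (Prod.ext (hh_glue hvM (mem_FF.1 hh')) e2)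
  · intro f hf
    rw [mem_filter, mem_FF] at hf
    rw [glue_parts hf.1]

end Pool.AA
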