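import Pool.Agent.Work.MP_6241b7_aa.Interface

set_option autoImplicit false

open Finset

namespace Pool.AA

/-- descendants after glueing -/
theorem stmt_DSZ : Stmt_DSZ := by
  classical
  intro n V M r v hMV hrV hrM hvM g hg h hh p hp
  have hgF : IsF M {v} g := by simpa [FF] using hg
  have hhF : IsF (V \ M) {r} h := by simpa [FF] using hh
  obtain ⟨hg1, hg2, hg3, hg4⟩ := hgF
  obtain ⟨hh1, hh2, hh3, hh4⟩ := hhF
  set F : Fin n → Fin n := glue M v g h p with hF
  have hpM : p ∉ M := (Finset.mem_sdiff.1 hp).2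
  have hFv : F v = p := by simp [hF, glue]
  have hFo : ∀ w, w ∉ M → F w = h w := by
    intro w hw
    have hwv : w ≠ v := by rintro rfl; exact hw hvM
    simp [hF, glue, hw, hwv]
  have hFi : ∀ w ∈ M, w ≠ v → F w = g w := by
    intro w hw hwv
    simp [hF, glue, hw, hwv]
  have hho : ∀ w, w ∉ M → h w ∉ M := by
    intro w hw
    by_cases hwV : w ∈ V \ M
    · exact (Finset.mem_sdiff.1 (hh3 w hwV)).2
    · rw [hh1 w hwV]; exact hw
  have hit : ∀ (i : ℕ) (w : Fin n), w ∉ M → F^[i] w = h^[i] w ∧ F^[i] w ∉ M := by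
    intro i
    induction i with
    | zero => intro w hw; exact ⟨rfl, hw⟩
    | succ i ih =>
      intro w hw
      rw [Function.iterate_succ_apply, Function.iterate_succ_apply, hFo w hw]
      exact ih (h w) (hho w hw)
  have hreach : ∀ (i : ℕ) (w : Fin n), w ∈ M → g^[i] w = v → ∃ j, F^[j] w = v := by
    intro i
    induction i with
    | zero => intro w _ hwv; exact ⟨0, hwv⟩
    | succ i ih =>
      intro w hw hwv
      by_cases hwe : w = v
      · exact ⟨0, hwe⟩
      · rw [Function.iterate_succ_apply] at hwv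
        obtain ⟨j, hj⟩ := ih (g w) (hg3 w hw) hwv
        refine ⟨j + 1, ?_⟩
        rw [Function.iterate_succ_apply, hFi w hw hwe]
        exact hj
  have hreach' : ∀ w ∈ M, ∃ j, F^[j] w = v := by
    intro w hw
    obtain ⟨i, hi⟩ := hg4 w hw
    exact hreach i w hw (Finset.mem_singleton.1 hi)
  have hback : ∀ (u : Fin n), u ∉ M → ∀ (i : ℕ) (w : Fin n), w ∈ M → F^[i] w = u → ∃ j, h^[j] p = u := by
    intro u hu i
    induction i with
    | zero => intro w hw hwu; exact absurd (hwu ▸ hw : u ∈ M) hu
    | succ i ih =>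
      intro w hw hwu
      rw [Function.iterate_succ_apply] at hwu
      by_cases hwe : w = v
      · subst hwe
        rw [hFv, (hit i p hpM).1] at hwu
        exact ⟨i, hwu⟩
      · rw [hFi w hw hwe] at hwu
        exact ih (g w) (hg3 w hw) hwu
  have hfix : ∀ (i : ℕ) (w : Fin n), w ∈ M → h^[i] w = w := by
    intro i w hw
    have hw' : h w = w := hh1 w (fun hc => (Finset.mem_sdiff.1 hc).2 hw)
    exact Function.iterate_fixed hw' i
  refine ⟨?_, ?_, ?_, ?_⟩
  · ext w
    simp only [Ds, Finset.mem_filter, Finset.mem_univ, true_and]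
    constructor
    · rintro ⟨i, hi⟩
      by_contra hw
      exact (hit i w hw).2 (hi ▸ hvM)
    · intro hw
      exact hreach' w hw
  · intro u hu w hw
    simp only [Ds, Finset.mem_filter, Finset.mem_univ, true_and] at hw
    obtain ⟨i, hi⟩ := hw
    by_contra hw
    exact (hit i w hw).2 (hi ▸ hu)
  · intro u hu hpu
    have huM : u ∉ M := (Finset.mem_sdiff.1 hu).2
    ext w
    simp only [Ds, Finset.mem_filter, Finset.mem_univ, true_and] at hpu ⊢
    by_cases hw : w ∈ M
    · constructor
      · rintro ⟨i, hi⟩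
        exact absurd (hback u huM i w hw hi) hpu
      · rintro ⟨i, hi⟩
        rw [hfix i w hw] at hi
        exact absurd (hi ▸ hw) huM
    · constructor
      · rintro ⟨i, hi⟩
        exact ⟨i, by rw [← (hit i w hw).1]; exact hi⟩
      · rintro ⟨i, hi⟩
        exact ⟨i, by rw [(hit i w hw).1]; exact hi⟩
  · intro u hu hpu
    have huM : u ∉ M := (Finset.mem_sdiff.1 hu).2
    ext w
    simp only [Ds, Finset.mem_filter, Finset.mem_univ, true_and, Finset.mem_union] at hpu ⊢
    obtain ⟨k, hk⟩ := hpu
    by_cases hw : w ∈ M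
    · constructor
      · intro _; exact Or.inr hw
      · intro _
        obtain ⟨j, hj⟩ := hreach' w hw
        refine ⟨k + (1 + j), ?_⟩
        rw [Function.iterate_add_apply, Function.iterate_add_apply, hj]
        simp only [Function.iterate_one]
        rw [hFv, (hit k p hpM).1, hk]
    · constructor
      · rintro ⟨i, hi⟩
        exact Or.inl ⟨i, by rw [← (hit i w hw).1]; exact hi⟩
      · rintro (⟨i, hi⟩ | hc)
        · exact ⟨i, by rw [(hit i w hw).1]; exact hi⟩
        · exact absurd hc hw

end Pool.AA
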