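import Pool.Agent.Work.MP_6241b7_aa.Interface

/-!
# MP_6241b7_aa, block FIN: almost all trees
-/

set_option autoImplicit false

open Finset

namespace Pool.AA

namespace FINaux

/-- `1 + 2 log_3 s ≤ 9 s ^ (1/4)` -/
theorem log_le (s : ℕ) (hs : 1 ≤ s) : (1 : ℝ) + 2 * (Nat.log 3 s : ℝ) ≤ 9 * ph s := by
  unfold ph
  have hs' : (1 : ℝ) ≤ s := by exact_mod_cast hs
  set x : ℝ := (s : ℝ) ^ (1 / 4 : ℝ) with hx
  have hx1 : 1 ≤ x := Real.one_le_rpow hs' (by norm_num)
  have hx4 : x ^ 4 = s := by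
    rw [hx, ← Real.rpow_natCast, ← Real.rpow_mul (by positivity)]
    norm_num
  have h1 : (3 : ℝ) ^ (Nat.log 3 s) ≤ x ^ 4 := by
    rw [hx4]
    exact_mod_cast Nat.pow_log_le_self 3 (by omega)
  have h2 : (Nat.log 3 s : ℝ) * Real.log 3 ≤ 4 * Real.log x := by
    have h3 := Real.log_le_log (by positivity) h1
    rw [Real.log_pow, Real.log_pow] at h3
    push_cast at h3
    exact h3
  have h4 : Real.log x ≤ x - 1 := Real.log_le_sub_one_of_pos (by linarith)
  have h5 : (1 : ℝ) ≤ Real.log 3 := by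
    rw [Real.le_log_iff_exp_le (by norm_num)]
    have := Real.exp_one_lt_d9
    linarith
  have h6 : (Nat.log 3 s : ℝ) ≤ (Nat.log 3 s : ℝ) * Real.log 3 := by
    have : (0 : ℝ) ≤ (Nat.log 3 s : ℝ) := by positivity
    nlinarith
  nlinarith

end FINaux

open FINaux

theorem stmt_FIN : Stmt_CHE → Stmt_TRE1 → Stmt_TRE2 → Stmt_HS → Stmt_AA := by
  classical
  rintro ⟨C, hC, hche⟩ htre1 htre2 hHS
  obtain ⟨K, hK⟩ := exists_nat_ge (1296 * C)
  refine ⟨K, fun k hk => ?_⟩
  obtain ⟨F, hF⟩ := htre1 (k + 1) 0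
  have h1 := hche (k + 1) (by omega) 0
  have h2 : (Bad K k).card ≤
      ((FF univ {(0 : Fin (k + 1))}).filter (fun f => C * ((k + 1 : ℕ) : ℝ) < Phi ph univ 0 f)).card := by
    refine card_le_card_of_injOn F ?_ ?_
    · intro G hG
      rw [mem_coe, Bad, mem_filter] at hG
      obtain ⟨-, hGT, T, hTas, hTG, n, D, hD, hχ, hcont⟩ := hG
      obtain ⟨hF1, hF2, -⟩ := hF G hGT
      rw [mem_coe, mem_filter]
      refine ⟨hF1, ?_⟩
      by_contra hcon
      rw [not_lt] at hcon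
      refine hcont (hHS k n D hD T hTas (hTG ▸ hGT) 0 (lt_of_le_of_lt ?_ hχ))
      rw [hTG]
      have h3 : ((72 * ∑ v ∈ univ.erase (0 : Fin (k + 1)), (1 + 2 * Nat.log 3 (hgt G 0 v)) : ℕ) : ℝ) ≤
          ((K * k : ℕ) : ℝ) := by
        have h4 : ((72 * ∑ v ∈ univ.erase (0 : Fin (k + 1)), (1 + 2 * Nat.log 3 (hgt G 0 v)) : ℕ) : ℝ) ≤
            72 * (9 * Phi ph univ 0 (F G)) := by
          push_cast
          refine mul_le_mul_of_nonneg_left ?_ (by norm_num)
          rw [Phi, mul_sum]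
          refine sum_le_sum fun v _ => ?_
          have h5 := hF2 v
          have h6 := log_le (Ds (F G) v).card (by omega)
          have h7 : (Nat.log 3 (hgt G 0 v) : ℝ) ≤ Nat.log 3 (Ds (F G) v).card := by
            exact_mod_cast Nat.log_mono_right h5.le
          linarith
        have hk' : (1 : ℝ) ≤ k := by exact_mod_cast hk
        push_cast at hcon ⊢
        push_cast at h4
        nlinarith
      exact_mod_cast h3
    · intro G hG G' hG' hFG
      rw [mem_coe, Bad, mem_filter] at hG hG'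
      have h3 := (hF G hG.2.1).2.2
      have h4 := (hF G' hG'.2.1).2.2
      ext u v
      rw [h3, h4, hFG]
  have h3 := htre2 (k + 1) 0
  have hk' : (1 : ℝ) ≤ k := by exact_mod_cast hk
  have h5 : ((k + 1 : ℕ) : ℝ) ^ (-(1 / 32) : ℝ) ≤ (k : ℝ) ^ (-(1 / 32) : ℝ) := by
    refine Real.rpow_le_rpow_of_nonpos (by linarith) ?_ (by norm_num)
    push_cast
    linarith
  have hCK : C ≤ K := by linarith
  calc ((Bad K k).card : ℝ) ≤ _ := Nat.cast_le.2 h2
    _ ≤ C * ((k + 1 : ℕ) : ℝ) ^ (-(1 / 32) : ℝ) * (FF univ {(0 : Fin (k + 1))}).card := h1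
    _ ≤ K * (k : ℝ) ^ (-(1 / 32) : ℝ) *
        ((univ.filter (fun G : SimpleGraph (Fin (k + 1)) => G.IsTree)).card : ℝ) := by
        refine mul_le_mul (mul_le_mul hCK h5 (by positivity) (by positivity)) ?_ (by positivity)
          (by positivity)
        exact_mod_cast h3

end Pool.AA
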