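import Pool.Agent.Work.MP_6241b7_aa.Interface

/-! Block GLU: the additive functional after glueing. -/

set_option autoImplicit false

open Finset

namespace Pool.AA

namespace GLU

theorem mem_Ds {n : ℕ} {f : Fin n → Fin n} {v w : Fin n} :
    w ∈ Ds f v ↔ ∃ i, f^[i] w = v := by
  simp [Ds]

/-- if `p` is a descendant of `u`, then `u` is one of the first `|Ds h u|` ancestors of `p` -/
theorem exists_lt {n : ℕ} (h : Fin n → Fin n) (p u : Fin n) (hp : p ∈ Ds h u) :
    ∃ i < (Ds h u).card, h^[i] p = u := by
  classical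
  have hex : ∃ i, h^[i] p = u := mem_Ds.1 hp
  refine ⟨Nat.find hex, ?_, Nat.find_spec hex⟩
  have hs : h^[Nat.find hex] p = u := Nat.find_spec hex
  have hmin : ∀ j < Nat.find hex, h^[j] p ≠ u := fun j hj => Nat.find_min hex hj
  generalize Nat.find hex = i at hs hmin
  have hinj : Set.InjOn (fun j => h^[j] p) (range (i + 1) : Set ℕ) := by
    have key : ∀ a b : ℕ, a < b → b ≤ i → h^[a] p ≠ h^[b] p := by
      intro a b hab hbi he
      apply hmin (i - b + a) (by omega)
      rw [Function.iterate_add_apply, he, ← Function.iterate_add_apply]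
      have : i - b + b = i := by omega
      rw [this, hs]
    intro a ha b hb he
    have ha' : a ≤ i := by simpa [Nat.lt_succ_iff] using ha
    have hb' : b ≤ i := by simpa [Nat.lt_succ_iff] using hb
    rcases lt_trichotomy a b with hab | hab | hab
    · exact absurd he (key a b hab hb')
    · exact hab
    · exact absurd he.symm (key b a hab ha')
  have hsub : (range (i + 1)).image (fun j => h^[j] p) ⊆ Ds h u := by
    intro w hw
    rw [mem_image] at hw
    obtain ⟨j, hj, rfl⟩ := hw
    rw [mem_range] at hj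
    rw [mem_Ds]
    refine ⟨i - j, ?_⟩
    rw [← Function.iterate_add_apply]
    have : i - j + j = i := by omega
    rw [this, hs]
  have hc := card_le_card hsub
  rw [card_image_of_injOn hinj, card_range] at hc
  omega

end GLU

theorem stmt_GLU : Stmt_DSZ → Stmt_GLU := by
  classical
  intro hD n V M r v hMV hrV hrM hvM g hg h hh p hp φ L B h0 hB hL
  obtain ⟨-, -, h3, h4⟩ := hD n V M r v hMV hrV hrM hvM g hg h hh p hp
  set f := glue M v g h p with hf
  have hB0 : 0 ≤ B := le_trans (h0 0) (hB 0)
  have hsplit : V.erase r = M ∪ (V \ M).erase r := by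
    ext u
    simp only [mem_erase, mem_union, mem_sdiff]
    constructor
    · rintro ⟨h1, h2⟩
      by_cases hu : u ∈ M
      · exact Or.inl hu
      · exact Or.inr ⟨h1, h2, hu⟩
    · rintro (hu | ⟨h1, h2, -⟩)
      · exact ⟨fun e => hrM (e ▸ hu), hMV hu⟩
      · exact ⟨h1, h2⟩
  have hdisj : Disjoint M ((V \ M).erase r) := by
    rw [disjoint_left]
    intro u hu hu'
    simp only [mem_erase, mem_sdiff] at hu'
    exact hu'.2.2 hu
  unfold Phi
  rw [hsplit, sum_union hdisj]
  have hM : ∑ u ∈ M, φ (Ds f u).card ≤ M.card * B := by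
    have := sum_le_card_nsmul M (fun u => φ (Ds f u).card) B (fun u _ => hB _)
    rwa [nsmul_eq_mul] at this
  set S := ((V \ M).erase r).filter (fun u => p ∈ Ds h u ∧ (Ds h u).card ≤ L) with hS
  have hSc : S.card ≤ L := by
    have hsub : S ⊆ (range L).image (fun i => h^[i] p) := by
      intro u hu
      rw [hS, mem_filter] at hu
      obtain ⟨i, hi, he⟩ := GLU.exists_lt h p u hu.2.1
      rw [mem_image]
      exact ⟨i, mem_range.2 (lt_of_lt_of_le hi hu.2.2), he⟩
    calc S.card ≤ _ := card_le_card hsub
      _ ≤ (range L).card := card_image_le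
      _ = L := card_range L
  have hterm : ∀ u ∈ (V \ M).erase r, φ (Ds f u).card ≤
      φ (Ds h u).card + (if p ∈ Ds h u ∧ (Ds h u).card ≤ L then B else 0) := by
    intro u hu
    have huV : u ∈ V \ M := (mem_erase.1 hu).2
    by_cases hpu : p ∈ Ds h u
    · by_cases hc : (Ds h u).card ≤ L
      · rw [if_pos ⟨hpu, hc⟩]
        linarith [hB (Ds f u).card, h0 (Ds h u).card]
      · rw [if_neg (fun e => hc e.2)]
        have hcard : L < (Ds f u).card := by
          rw [h4 u huV hpu]
          exact lt_of_lt_of_le (not_le.1 hc) (card_le_card subset_union_left)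
        rw [hL _ hcard]
        linarith [h0 (Ds h u).card]
    · rw [if_neg (fun e => hpu e.1), h3 u huV hpu, add_zero]
  have hR : ∑ u ∈ (V \ M).erase r, φ (Ds f u).card ≤
      ∑ u ∈ (V \ M).erase r, φ (Ds h u).card + L * B := by
    refine le_trans (sum_le_sum hterm) ?_
    rw [sum_add_distrib]
    have h5 : ∑ u ∈ (V \ M).erase r, (if p ∈ Ds h u ∧ (Ds h u).card ≤ L then B else 0) =
        S.card * B := by
      rw [← sum_filter, ← hS, sum_const, nsmul_eq_mul]
    rw [h5]
    have h6 : (S.card : ℝ) * B ≤ L * B := mul_le_mul_of_nonneg_right (by exact_mod_cast hSc) hB0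
    linarith
  have : ((M.card : ℝ) + L) * B = M.card * B + L * B := by ring
  rw [this]
  linarith

end Pool.AA
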