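import Pool.Agent.Work.MP_6241b7_aa.Interface

/-!
# MP_6241b7_aa, block HS: the height sum
-/

set_option autoImplicit false

open Finset

namespace Pool.AA

namespace HSaux

/-- thresholds -/
def th : ℕ → ℕ
  | 0 => 0
  | (j + 1) => 3 ^ (2 ^ j)

theorem lt_th (j : ℕ) : j < th (j + 1) := by
  have h1 : j < 2 ^ j := Nat.lt_two_pow_self
  have h2 : 2 ^ j < 3 ^ (2 ^ j) := Nat.lt_pow_self (by norm_num)
  simp only [th]
  omega

theorem one_le_th (j : ℕ) : 1 ≤ th (j + 1) := by
  simp only [th]
  exact Nat.one_le_pow _ _ (by norm_num)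

theorem th_mono {i j : ℕ} (h : i ≤ j) : th i ≤ th j := by
  rcases i with _ | i
  · simp [th]
  · rcases j with _ | j
    · omega
    · simp only [th]
      exact Nat.pow_le_pow_right (by norm_num) (Nat.pow_le_pow_right (by norm_num) (by omega))

theorem log_th (j : ℕ) : Nat.log 3 (th (j + 1)) = 2 ^ j := by
  simp only [th]
  exact Nat.log_pow (by norm_num) _

theorem sumA (L J : ℕ) :
    (∑ i ∈ range J, if 2 ^ i ≤ L then 2 ^ (i + 1) + 2 else 0) + 2 ≤ 2 ^ (J + 1) + 2 * J := by
  induction J with
  | zero => simp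
  | succ J ih =>
    rw [sum_range_succ]
    have h1 : (if 2 ^ J ≤ L then 2 ^ (J + 1) + 2 else 0) ≤ 2 ^ (J + 1) + 2 := by
      split_ifs
      · exact le_rfl
      · exact Nat.zero_le _
    have h2 : 2 ^ (J + 1 + 1) = 2 * 2 ^ (J + 1) := by ring
    omega

theorem sumB (L J : ℕ) :
    (∑ i ∈ range J, if 2 ^ i ≤ L then 2 ^ (i + 1) + 2 else 0) ≤ 6 * L := by
  induction J with
  | zero => simp
  | succ J ih =>
    rw [sum_range_succ]
    by_cases h : 2 ^ J ≤ L
    · rw [if_pos h]
      have h1 := sumA L J
      have h2 : J < 2 ^ J := Nat.lt_two_pow_self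
      have h3 : 2 ^ (J + 1) = 2 * 2 ^ J := by ring
      omega
    · rw [if_neg h]
      omega

theorem sumW (H J : ℕ) :
    (∑ j ∈ range J, if th j ≤ H then 2 ^ j + 2 else 0) ≤ 3 + 6 * Nat.log 3 H := by
  rcases J with _ | J
  · simp
  · rw [sum_range_succ']
    have h0 : (if th 0 ≤ H then 2 ^ 0 + 2 else 0) = 3 := by simp [th]
    rw [h0]
    have h1 : (∑ j ∈ range J, if th (j + 1) ≤ H then 2 ^ (j + 1) + 2 else 0) ≤
        ∑ j ∈ range J, if 2 ^ j ≤ Nat.log 3 H then 2 ^ (j + 1) + 2 else 0 := by
      refine sum_le_sum fun j _ => ?_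
      by_cases h : th (j + 1) ≤ H
      · rw [if_pos h, if_pos]
        rw [← log_th j]
        exact Nat.log_mono_right h
      · rw [if_neg h]
        exact Nat.zero_le _
    have h2 := sumB (Nat.log 3 H) J
    omega

section graph

variable {k : ℕ} {G : SimpleGraph (Fin (k + 1))} (hG : G.Connected) (r : Fin (k + 1))

include hG

theorem exists_par (v : Fin (k + 1)) (hv : v ≠ r) :
    ∃ u, G.Adj v u ∧ G.dist r u + 1 = G.dist r v := by
  obtain ⟨p, hp⟩ := hG.exists_walk_length_eq_dist v r
  cases p with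
  | nil => exact absurd rfl hv
  | @cons _ u _ h q =>
    refine ⟨u, h, ?_⟩
    rw [SimpleGraph.Walk.length_cons] at hp
    have h1 : G.dist u r ≤ q.length := SimpleGraph.dist_le q
    have h2 : G.dist v r ≤ G.dist v u + G.dist u r := hG.dist_triangle
    have h3 : G.dist v u = 1 := SimpleGraph.dist_eq_one_iff_adj.2 h
    rw [SimpleGraph.dist_comm (u := r) (v := u), SimpleGraph.dist_comm (u := r) (v := v)]
    omega

theorem hgt_par {u v : Fin (k + 1)} (h : G.Adj v u) (hd : G.dist r u + 1 = G.dist r v) :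
    hgt G r v + 1 ≤ hgt G r u := by
  have hne : (univ.filter (fun w => G.dist r w = G.dist r v + G.dist v w)).Nonempty :=
    ⟨v, by simp⟩
  obtain ⟨w, hw, hw2⟩ := exists_mem_eq_sup _ hne (fun w => G.dist v w)
  rw [mem_filter] at hw
  have h1 : hgt G r v = G.dist v w := hw2
  have h2 : G.dist r w ≤ G.dist r u + G.dist u w := hG.dist_triangle
  have h3 : G.dist u w ≤ G.dist u v + G.dist v w := hG.dist_triangle
  have h4 : G.dist u v = 1 := SimpleGraph.dist_eq_one_iff_adj.2 h.symm
  have h5 : G.dist u w = 1 + G.dist v w := by omega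
  have h6 : w ∈ univ.filter (fun w => G.dist r w = G.dist r u + G.dist u w) := by
    rw [mem_filter]
    exact ⟨mem_univ _, by omega⟩
  have h7 : G.dist u w ≤ hgt G r u := le_sup (f := fun w => G.dist u w) h6
  omega

end graph

/-- the vertices of height at least `th j`, and the root -/
noncomputable def SS {k : ℕ} (G : SimpleGraph (Fin (k + 1))) (r : Fin (k + 1)) (j : ℕ) :
    Finset (Fin (k + 1)) :=
  univ.filter (fun v => v = r ∨ th j ≤ hgt G r v)

theorem root_mem {k : ℕ} (G : SimpleGraph (Fin (k + 1))) (r : Fin (k + 1)) (j : ℕ) :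
    r ∈ SS G r j := by
  simp [SS]

theorem SS_anti {k : ℕ} (G : SimpleGraph (Fin (k + 1))) (r : Fin (k + 1)) {i j : ℕ} (h : i ≤ j) :
    SS G r j ⊆ SS G r i := by
  intro v hv
  simp only [SS, mem_filter, mem_univ, true_and] at hv ⊢
  rcases hv with h1 | h1
  · exact Or.inl h1
  · exact Or.inr ((th_mono h).trans h1)

theorem SS_par {k : ℕ} {G : SimpleGraph (Fin (k + 1))} (hG : G.Connected) (r : Fin (k + 1)) {j : ℕ}
    {u v : Fin (k + 1)} (h : G.Adj v u) (hd : G.dist r u + 1 = G.dist r v) (hv : v ∈ SS G r j)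
    : u ∈ SS G r j := by
  simp only [SS, mem_filter, mem_univ, true_and] at hv ⊢
  rcases hv with h1 | h1
  · subst h1
    simp at hd
  · right
    have := hgt_par hG r h hd
    omega

theorem SS_conn {k : ℕ} {G : SimpleGraph (Fin (k + 1))} (hG : G.Connected) (r : Fin (k + 1))
    (j : ℕ) : (G.induce (SS G r j : Set (Fin (k + 1)))).Connected := by
  have key : ∀ d : ℕ, ∀ v (hv : v ∈ SS G r j), G.dist r v = d →
      (G.induce (SS G r j : Set (Fin (k + 1)))).Reachable ⟨v, Finset.mem_coe.2 hv⟩
        ⟨r, Finset.mem_coe.2 (root_mem G r j)⟩ := by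
    intro d
    induction d with
    | zero =>
      intro v hv h
      have h1 : r = v := (hG.dist_eq_zero_iff).1 h
      subst h1
      exact SimpleGraph.Reachable.refl _
    | succ d ih =>
      intro v hv h
      have hvr : v ≠ r := by
        rintro rfl
        simp at h
      obtain ⟨u, hu, hd⟩ := exists_par hG r v hvr
      have hus := SS_par hG r hu hd hv
      refine SimpleGraph.Reachable.trans (SimpleGraph.Adj.reachable ?_) (ih u hus (by omega))
      rw [SimpleGraph.comap_adj]
      exact hu
  have : Nonempty ((SS G r j : Finset (Fin (k + 1))) : Set (Fin (k + 1))) :=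
    ⟨⟨r, Finset.mem_coe.2 (root_mem G r j)⟩⟩
  refine ⟨fun a b => ?_⟩
  exact (key _ a.1 (Finset.mem_coe.1 a.2) rfl).trans (key _ b.1 (Finset.mem_coe.1 b.2) rfl).symm

theorem SS_walk {k : ℕ} {G : SimpleGraph (Fin (k + 1))} (hG : G.Connected) (r : Fin (k + 1))
    (j : ℕ) : ∀ d : ℕ, ∀ x ∈ SS G r j, G.dist r x = d →
    ∃ i : ℕ, (i = 0 ∨ i + hgt G r x ≤ th (j + 1)) ∧ ∃ p : ℕ → Fin (k + 1), p 0 = x ∧
      p i ∈ SS G r (j + 1) ∧ (∀ l ≤ i, p l ∈ SS G r j) ∧ ∀ l < i, G.Adj (p l) (p (l + 1)) := by
  intro d
  induction d with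
  | zero =>
    intro x hx h
    have h1 : r = x := (hG.dist_eq_zero_iff).1 h
    subst h1
    refine ⟨0, Or.inl rfl, fun _ => r, rfl, root_mem G r _, fun _ _ => root_mem G r _, ?_⟩
    intro l hl
    omega
  | succ d ih =>
    intro x hx h
    by_cases hxS : x ∈ SS G r (j + 1)
    · refine ⟨0, Or.inl rfl, fun _ => x, rfl, hxS, fun _ _ => hx, ?_⟩
      intro l hl
      omega
    · have hxr : x ≠ r := by
        rintro rfl
        exact hxS (root_mem G _ _)
      have hlt : hgt G r x < th (j + 1) := by
        by_contra hcon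
        exact hxS (by simp only [SS, mem_filter, mem_univ, true_and]; exact Or.inr (by omega))
      obtain ⟨u, hu, hd⟩ := exists_par hG r x hxr
      have hus := SS_par hG r hu hd hx
      have hH := hgt_par hG r hu hd
      obtain ⟨i, hi, p, hp0, hpi, hpS, hpA⟩ := ih u hus (by omega)
      refine ⟨i + 1, Or.inr (by omega), fun l => Nat.casesOn l x p, rfl, hpi, ?_, ?_⟩
      · intro l hl
        rcases l with _ | l
        · exact hx
        · exact hpS l (by omega)
      · intro l hl
        rcases l with _ | l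
        · change G.Adj x (p 0)
          rw [hp0]
          exact hu
        · exact hpA l (by omega)

theorem card_SS {k : ℕ} (G : SimpleGraph (Fin (k + 1))) (r : Fin (k + 1)) (j : ℕ) :
    (SS G r j).card - 1 = ((univ.erase r).filter (fun v => th j ≤ hgt G r v)).card := by
  have h : SS G r j = insert r ((univ.erase r).filter (fun v => th j ≤ hgt G r v)) := by
    ext v
    simp only [SS, mem_filter, mem_univ, true_and, mem_insert, mem_erase]
    constructor
    · rintro (h | h)
      · exact Or.inl h
      · by_cases hv : v = r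
        · exact Or.inl hv
        · exact Or.inr ⟨⟨hv, trivial⟩, h⟩
    · rintro (h | h)
      · exact Or.inl h
      · exact Or.inr h.2
  rw [h, card_insert_of_notMem (by simp)]
  rfl

end HSaux

open HSaux

theorem stmt_HS : Stmt_HS1 → Stmt_HS := by
  intro hHS1 k n D hD T hTas hT r hχ
  classical
  set G := SimpleGraph.fromRel T with hGdef
  have hGc : G.Connected := hT.connected
  -- the last index
  set J := hgt G r r + 1 with hJ
  have hle : ∀ v, hgt G r v ≤ hgt G r r := by
    have key : ∀ d : ℕ, ∀ v, G.dist r v = d → hgt G r v ≤ hgt G r r := by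
      intro d
      induction d with
      | zero =>
        intro v h
        have h1 : r = v := (hGc.dist_eq_zero_iff).1 h
        rw [h1]
      | succ d ih =>
        intro v h
        have hvr : v ≠ r := by
          rintro rfl
          simp at h
        obtain ⟨u, hu, hd⟩ := exists_par hGc r v hvr
        have h1 := hgt_par hGc r hu hd
        have h2 := ih u (by omega)
        omega
    exact fun v => key _ v rfl
  have hSJ : SS G r J = {r} := by
    ext v
    simp only [SS, mem_filter, mem_univ, true_and, mem_singleton]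
    constructor
    · rintro (h | h)
      · exact h
      · have h1 := lt_th (hgt G r r)
        rw [← hJ] at h1
        have h2 := hle v
        omega
    · exact Or.inl
  have main : ∀ i : ℕ, i ≤ J → ∀ (n : ℕ) (D : Fin n → Fin n → Prop), (∀ x, ¬ D x x) →
      (((∑ j ∈ Ico (J - i) J, 24 * ((SS G r j).card - 1) * (2 ^ j + 2)) : ℕ) : ℕ∞) <
        (SimpleGraph.fromRel D).chromaticNumber →
      ∃ g : Fin (k + 1) → Fin n, Set.InjOn g (SS G r (J - i)) ∧
        ∀ x ∈ SS G r (J - i), ∀ y ∈ SS G r (J - i), T x y → D (g x) (g y) := by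
    intro i
    induction i with
    | zero =>
      intro _ n D hD hχ
      have hn : 0 < n := by
        rcases Nat.eq_zero_or_pos n with h | h
        · exfalso
          subst h
          have h2 : (SimpleGraph.fromRel D).Colorable 0 :=
            ⟨SimpleGraph.Coloring.mk (fun v => v) (fun {v} => v.elim0)⟩
          have h3 := h2.chromaticNumber_le
          have h4 := lt_of_lt_of_le hχ h3
          simp at h4
        · exact h
      refine ⟨fun _ => ⟨0, hn⟩, ?_, ?_⟩
      · rw [Nat.sub_zero, hSJ]
        intro x hx y hy _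
        rw [mem_coe, mem_singleton] at hx hy
        rw [hx, hy]
      · intro x hx y hy hxy
        rw [Nat.sub_zero, hSJ, mem_singleton] at hx hy
        rw [hx, hy] at hxy
        exact absurd hxy (hTas _ _ hxy)
    | succ i ih =>
      intro hi
      have hJi : J - i = (J - (i + 1)) + 1 := by omega
      set j := J - (i + 1) with hj
      have ih' := ih (by omega)
      rw [hJi] at ih'
      have h1 := hHS1 k (th (j + 1)) (∑ j ∈ Ico (j + 1) J, 24 * ((SS G r j).card - 1) * (2 ^ j + 2)) T
        hTas hT (SS G r (j + 1)) (SS G r j) (SS_anti G r (Nat.le_succ j)) (SS_conn hGc r _)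
        (SS_conn hGc r _) (one_le_th j) ?_ ih'
      · intro n D hD hχ
        refine h1 n D hD (lt_of_le_of_lt ?_ hχ)
        rw [log_th, Finset.sum_eq_sum_Ico_succ_bot (by omega : j < J)]
        exact_mod_cast le_of_eq (by ring)
      · intro x hx
        obtain ⟨i, hi, p, hp0, hpi, hpS, hpA⟩ := SS_walk hGc r j _ x hx rfl
        refine ⟨i, ?_, p, hp0, hpi, hpS, hpA⟩
        rcases hi with h | h
        · omega
        · omega
  have hfin := main J le_rfl n D hD (lt_of_le_of_lt ?_ hχ)
  · obtain ⟨g, hg1, hg2⟩ := hfin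
    have hS0 : SS G r (J - J) = univ := by
      rw [Nat.sub_self]
      ext v
      simp [SS, th]
    rw [hS0] at hg1 hg2
    refine ⟨g, ?_, fun x y hxy => hg2 x (mem_univ _) y (mem_univ _) hxy⟩
    intro x y hxy
    exact hg1 (by simp) (by simp) hxy
  · rw [Nat.sub_self, ← Finset.range_eq_Ico]
    have h1 : ∀ j, 24 * ((SS G r j).card - 1) * (2 ^ j + 2) =
        ∑ v ∈ univ.erase r, 24 * (if th j ≤ hgt G r v then 2 ^ j + 2 else 0) := by
      intro j
      rw [card_SS, ← mul_sum, ← sum_filter, sum_const, smul_eq_mul, mul_assoc]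
    have h2 : (∑ j ∈ range J, 24 * ((SS G r j).card - 1) * (2 ^ j + 2)) ≤
        72 * ∑ v ∈ univ.erase r, (1 + 2 * Nat.log 3 (hgt G r v)) := by
      rw [sum_congr rfl (fun j _ => h1 j), sum_comm, mul_sum]
      refine sum_le_sum fun v _ => ?_
      rw [← mul_sum]
      have := sumW (hgt G r v) J
      omega
    exact_mod_cast h2

end Pool.AA
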