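import Pool.Agent.Work.MP_6241b7_aa.Interface
import Pool.Agent.Work.MP_6241b7_rad.Final

/-!
# Block HS1 (helper26): near_subtree relative to a subtree
-/

set_option autoImplicit false

open Finset

namespace Pool.AA

theorem stmt_HS1 : Stmt_HS1 := by
  classical
  intro k h c T hTas hT S S' hSS' hS hS' h1 hwalk hc n D hD hχ
  -- numbering of `S'`
  have hne : S'.Nonempty := by
    obtain ⟨⟨x, hx⟩⟩ := hS'.nonempty
    exact ⟨x, by simpa using hx⟩
  have hcard : Fintype.card {x // x ∈ S'} = (S'.card - 1) + 1 := by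
    rw [Fintype.card_coe]
    have := hne.card_pos
    omega
  set k' := S'.card - 1 with hk'
  let e : Fin (k' + 1) ≃ {x // x ∈ S'} := (Fintype.equivFinOfCardEq hcard).symm
  let v : Fin (k' + 1) → Fin (k + 1) := fun a => (e a).1
  have hv : Function.Injective v := fun a b hab => e.injective (Subtype.ext hab)
  have hvS : ∀ a, v a ∈ S' := fun a => (e a).2
  let T' : Fin (k' + 1) → Fin (k' + 1) → Prop := fun a b => T (v a) (v b)
  have hadj : ∀ a b, (SimpleGraph.fromRel T').Adj a b ↔ (SimpleGraph.fromRel T).Adj (v a) (v b) := by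
    intro a b
    rw [SimpleGraph.fromRel_adj, SimpleGraph.fromRel_adj]
    exact and_congr_left' (not_congr hv.eq_iff.symm)
  -- `T'` is a tree
  let i1 : SimpleGraph.fromRel T' ≃g (SimpleGraph.fromRel T).induce (S' : Set (Fin (k + 1))) :=
    { toEquiv := e.trans (Equiv.subtypeEquivRight (fun x => by simp))
      map_rel_iff' := by
        intro a b
        rw [SimpleGraph.comap_adj]
        exact (hadj a b).symm }
  have hT' : (SimpleGraph.fromRel T').IsTree := by
    refine ⟨i1.connected_iff.2 hS', ?_⟩
    exact SimpleGraph.IsAcyclic.comap (⟨v, fun {a b} hab => (hadj a b).1 hab⟩ :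
      SimpleGraph.fromRel T' →g SimpleGraph.fromRel T) hv hT.isAcyclic
  -- the subtree
  let S'' : Finset (Fin (k' + 1)) := univ.filter (fun a => v a ∈ S)
  have hmem : ∀ a, a ∈ S'' ↔ v a ∈ S := by intro a; simp [S'']
  let e2 : (S'' : Set (Fin (k' + 1))) ≃ (S : Set (Fin (k + 1))) :=
    { toFun := fun a => ⟨v a.1, by
        have := a.2
        rw [mem_coe, hmem] at this
        exact this⟩
      invFun := fun x => ⟨e.symm ⟨x.1, hSS' (by simpa using x.2)⟩, by
        rw [mem_coe, hmem]
        show (e (e.symm _)).1 ∈ S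
        rw [Equiv.apply_symm_apply]
        simpa using x.2⟩
      left_inv := by
        intro a
        apply Subtype.ext
        show e.symm ⟨(e a.1).1, _⟩ = a.1
        simp
      right_inv := by
        intro x
        apply Subtype.ext
        show (e (e.symm _)).1 = x.1
        rw [Equiv.apply_symm_apply] }
  let i2 : (SimpleGraph.fromRel T').induce (S'' : Set (Fin (k' + 1))) ≃g
      (SimpleGraph.fromRel T).induce (S : Set (Fin (k + 1))) :=
    { toEquiv := e2
      map_rel_iff' := by
        intro a b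
        rw [SimpleGraph.comap_adj, SimpleGraph.comap_adj]
        exact (hadj a.1 b.1).symm }
  have hS'' : ((SimpleGraph.fromRel T').induce (S'' : Set (Fin (k' + 1)))).Connected :=
    i2.connected_iff.2 hS
  -- distances
  have hdist : ∀ x, ∃ s ∈ S'', (SimpleGraph.fromRel T').dist s x ≤ h := by
    intro x
    obtain ⟨i, hih, p, hp0, hpS, hpS', hpadj⟩ := hwalk (v x) (hvS x)
    let q : ℕ → Fin (k' + 1) := fun j => if hj : p j ∈ S' then e.symm ⟨p j, hj⟩ else x
    have hq : ∀ j ≤ i, v (q j) = p j := by
      intro j hj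
      show (e (if hj : p j ∈ S' then e.symm ⟨p j, hj⟩ else x)).1 = p j
      rw [dif_pos (hpS' j hj), Equiv.apply_symm_apply]
    have hwk : ∀ j ≤ i, ∃ w : (SimpleGraph.fromRel T').Walk (q 0) (q j), w.length = j := by
      intro j
      induction j with
      | zero => intro _; exact ⟨SimpleGraph.Walk.nil, rfl⟩
      | succ j ih =>
        intro hj
        obtain ⟨w, hw⟩ := ih (by omega)
        have ha : (SimpleGraph.fromRel T').Adj (q j) (q (j + 1)) := by
          rw [hadj, hq j (by omega), hq (j + 1) hj]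
          exact hpadj j (by omega)
        exact ⟨w.concat ha, by rw [SimpleGraph.Walk.length_concat, hw]⟩
    obtain ⟨w, hw⟩ := hwk i le_rfl
    have hq0 : q 0 = x := hv (by rw [hq 0 (Nat.zero_le _), hp0])
    refine ⟨q i, ?_, ?_⟩
    · rw [hmem, hq i le_rfl]
      exact hpS
    · rw [SimpleGraph.dist_comm, ← hq0]
      exact (SimpleGraph.dist_le w).trans (by omega)
  obtain ⟨f, hf, hfD⟩ := Pool.Agent.Work.MP_6241b7_rad.near_subtree (k := k') (h := h) (c := c) D hD
    (T := T') (fun a b => hTas _ _) hT' S'' hS'' h1 hdist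
    (by
      intro n' D' hD' hχ'
      obtain ⟨g, hg, hgD⟩ := hc n' D' hD' hχ'
      refine ⟨fun a => g (v a), ?_, ?_⟩
      · intro a ha b hb hab
        rw [mem_coe, hmem] at ha hb
        exact hv (hg ha hb hab)
      · intro a ha b hb hab
        rw [hmem] at ha hb
        exact hgD _ ha _ hb hab)
    hχ
  refine ⟨fun x => if hx : x ∈ S' then f (e.symm ⟨x, hx⟩) else f 0, ?_, ?_⟩
  · intro x hx y hy hxy
    rw [mem_coe] at hx hy
    simp only [dif_pos hx, dif_pos hy] at hxy
    have := e.symm.injective (hf hxy)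
    exact congrArg Subtype.val this
  · intro x hx y hy hxy
    simp only [dif_pos hx, dif_pos hy]
    apply hfD
    show T (e (e.symm ⟨x, hx⟩)).1 (e (e.symm ⟨y, hy⟩)).1
    rw [Equiv.apply_symm_apply, Equiv.apply_symm_apply]
    exact hxy

end Pool.AA
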