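import Pool.Agent.Work.MP_6241b7_aa.Interface

set_option autoImplicit false

open Finset

namespace Pool.AA

namespace MOM1

variable {n : ℕ}

lemma mem_FF {V R : Finset (Fin n)} {f : Fin n → Fin n} : f ∈ FF V R ↔ IsF V R f := by
  classical
  simp [FF]

lemma mem_Ds {f : Fin n → Fin n} {v w : Fin n} : w ∈ Ds f v ↔ ∃ i, f^[i] w = v := by
  classical
  simp [Ds]

lemma iterate_fix {f : Fin n → Fin n} {r : Fin n} (hr : f r = r) (i : ℕ) : f^[i] r = r := by
  induction i with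
  | zero => rfl
  | succ i ih => rw [Function.iterate_succ_apply, hr, ih]

/-- the sets of descendants -/
lemma Ds_props {V : Finset (Fin n)} {r v : Fin n} {f : Fin n → Fin n} (hf : IsF V {r} f)
    (hv : v ∈ V.erase r) : Ds f v ⊆ V ∧ v ∈ Ds f v ∧ r ∉ Ds f v := by
  classical
  rw [mem_erase] at hv
  refine ⟨fun w hw => ?_, mem_Ds.2 ⟨0, rfl⟩, fun hr => ?_⟩
  · by_contra hwV
    rw [mem_Ds] at hw
    obtain ⟨i, hi⟩ := hw
    rw [iterate_fix (hf.1 w hwV)] at hi
    exact hwV (hi ▸ hv.2)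
  · rw [mem_Ds] at hr
    obtain ⟨i, hi⟩ := hr
    rw [iterate_fix (hf.2.1 r (mem_singleton_self r))] at hi
    exact hv.1 hi.symm

open Classical in
/-- the sum over the forests, by the set of descendants of `v` -/
lemma sum_fiber {V : Finset (Fin n)} {r v : Fin n} (hv : v ∈ V.erase r)
    (Z : (Fin n → Fin n) → ℝ) :
    (∑ f ∈ FF V {r}, Z f) = ∑ M ∈ V.powerset.filter (fun M => v ∈ M ∧ r ∉ M),
      ∑ f ∈ (FF V {r}).filter (fun f => Ds f v = M), Z f := by
  refine (Finset.sum_fiberwise_of_maps_to (fun f hf => ?_) Z).symm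
  rw [mem_filter, mem_powerset]
  exact Ds_props (mem_FF.1 hf) hv

end MOM1

open MOM1 in
theorem stmt_MOM1 (hCSU : Stmt_CSU) (hDEC : Stmt_DEC) : Stmt_MOM1 := by
  classical
  intro n V r hr φ
  have h1 : (∑ f ∈ FF V {r}, Phi φ V r f) = ∑ v ∈ V.erase r, ∑ f ∈ FF V {r}, φ (Ds f v).card := by
    unfold Phi
    rw [Finset.sum_comm]
  rw [h1]
  unfold mu
  rw [← hCSU n V r hr φ]
  refine Finset.sum_congr rfl fun v hv => ?_
  rw [sum_fiber hv]
  refine Finset.sum_congr (by congr!) fun M hM => ?_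
  rw [mem_filter, mem_powerset] at hM
  obtain ⟨hMV, hvM, hrM⟩ := hM
  have h2 : (∑ f ∈ (FF V {r}).filter (fun f => Ds f v = M), φ (Ds f v).card) =
      ∑ f ∈ (FF V {r}).filter (fun f => Ds f v = M), φ M.card := by
    refine Finset.sum_congr rfl fun f hf => ?_
    rw [(mem_filter.1 hf).2]
  have h3 : (∑ f ∈ (FF V {r}).filter (fun f => Ds f v = M), φ M.card) =
      ∑ g ∈ FF M {v}, ∑ h ∈ FF (V \ M) {r}, ∑ p ∈ V \ M, φ M.card := by
    have := hDEC n V M r v hMV hr hrM hvM (fun _ => φ M.card)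
    convert this using 2
  rw [h2, h3]
  simp only [Finset.sum_const, nsmul_eq_mul]
  ring

end Pool.AA
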