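import Pool.Agent.Work.MP_6241b7_aa.Interface

/-! Block MOM2: the second moment. -/

set_option autoImplicit false

open Finset

namespace Pool.AA

namespace MOM2

theorem mem_Ds {n : ℕ} {f : Fin n → Fin n} {v w : Fin n} :
    w ∈ Ds f v ↔ ∃ i, f^[i] w = v := by
  simp [Ds]

theorem mem_FF {n : ℕ} {V R : Finset (Fin n)} {f : Fin n → Fin n} :
    f ∈ FF V R ↔ IsF V R f := by
  simp [FF]

theorem self_mem {n : ℕ} (f : Fin n → Fin n) (v : Fin n) : v ∈ Ds f v :=
  mem_Ds.2 ⟨0, rfl⟩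

theorem root_not_mem {n : ℕ} {V : Finset (Fin n)} {r : Fin n} {f : Fin n → Fin n}
    (hf : f ∈ FF V {r}) {v : Fin n} (hv : v ≠ r) : r ∉ Ds f v := by
  intro h
  obtain ⟨i, hi⟩ := mem_Ds.1 h
  have hr : f r = r := (mem_FF.1 hf).2.1 r (mem_singleton_self r)
  rw [Function.iterate_fixed hr] at hi
  exact hv hi.symm

theorem Ds_subset {n : ℕ} {V : Finset (Fin n)} {r : Fin n} {f : Fin n → Fin n}
    (hf : f ∈ FF V {r}) {v : Fin n} (hv : v ∈ V) : Ds f v ⊆ V := by
  intro w hw
  by_contra hwV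
  obtain ⟨i, hi⟩ := mem_Ds.1 hw
  have hr : f w = w := (mem_FF.1 hf).1 w hwV
  rw [Function.iterate_fixed hr] at hi
  exact hwV (hi ▸ hv)

end MOM2

theorem stmt_MOM2 : Stmt_CSU → Stmt_DEC → Stmt_GLU → Stmt_MOM1 → Stmt_MOM2 := by
  classical
  intro hCSU hDEC hGLU hMOM1 n V r hr φ L B h0 hB hL
  have hB0 : 0 ≤ B := le_trans (h0 0) (hB 0)
  -- the square as a double sum
  have e1 : ∑ f ∈ FF V {r}, (Phi φ V r f) ^ 2 =
      ∑ v ∈ V.erase r, ∑ M ∈ V.powerset.filter (fun M => v ∈ M ∧ r ∉ M),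
        ∑ f ∈ (FF V {r}).filter (fun f => Ds f v = M), φ M.card * Phi φ V r f := by
    have a1 : ∀ f ∈ FF V {r}, (Phi φ V r f) ^ 2 =
        ∑ v ∈ V.erase r, φ (Ds f v).card * Phi φ V r f := by
      intro f _
      rw [pow_two, ← sum_mul]
      rfl
    rw [sum_congr rfl a1, sum_comm]
    apply sum_congr rfl
    intro v hv
    have hvV : v ∈ V := (mem_erase.1 hv).2
    have hvr : v ≠ r := (mem_erase.1 hv).1
    have hmaps : ∀ f ∈ FF V {r}, Ds f v ∈ V.powerset.filter (fun M => v ∈ M ∧ r ∉ M) := by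
      intro f hf
      rw [mem_filter, mem_powerset]
      exact ⟨MOM2.Ds_subset hf hvV, MOM2.self_mem f v, MOM2.root_not_mem hf hvr⟩
    rw [← sum_fiberwise_of_maps_to hmaps]
    apply sum_congr rfl
    intro M _
    apply sum_congr rfl
    intro f hf
    rw [(mem_filter.1 hf).2]
  rw [e1]
  -- the bound of one term
  have e2 : ∀ v ∈ V.erase r, ∀ M ∈ V.powerset.filter (fun M => v ∈ M ∧ r ∉ M),
      (∑ f ∈ (FF V {r}).filter (fun f => Ds f v = M), φ M.card * Phi φ V r f) ≤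
      ((FF M {v}).card : ℝ) * (FF (V \ M) {r}).card * (V \ M).card *
        (φ M.card * (mu φ (V.card - M.card) + 2 * L * B)) := by
    intro v hv M hM
    rw [mem_filter, mem_powerset] at hM
    obtain ⟨hMV, hvM, hrM⟩ := hM
    have hrVM : r ∈ V \ M := mem_sdiff.2 ⟨hr, hrM⟩
    by_cases hML : L < M.card
    · rw [hL _ hML]
      simp
    · rw [← mul_sum, hDEC n V M r v hMV hr hrM hvM (Phi φ V r)]
      have hML' : (M.card : ℝ) ≤ L := by exact_mod_cast not_lt.1 hML
      have b1 : ∑ g ∈ FF M {v}, ∑ h ∈ FF (V \ M) {r}, ∑ p ∈ V \ M,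
          Phi φ V r (glue M v g h p) ≤
          ∑ g ∈ FF M {v}, ∑ h ∈ FF (V \ M) {r}, ∑ p ∈ V \ M,
            (Phi φ (V \ M) r h + 2 * L * B) := by
        apply sum_le_sum
        intro g hg
        apply sum_le_sum
        intro h hh
        apply sum_le_sum
        intro p hp
        have c1 := hGLU n V M r v hMV hr hrM hvM g hg h hh p hp φ L B h0 hB hL
        have c2 : ((M.card : ℝ) + L) * B ≤ 2 * L * B :=
          mul_le_mul_of_nonneg_right (by linarith) hB0
        linarith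
      have b2 : ∑ g ∈ FF M {v}, ∑ h ∈ FF (V \ M) {r}, ∑ p ∈ V \ M,
            (Phi φ (V \ M) r h + 2 * L * B) =
          ((FF M {v}).card : ℝ) * (FF (V \ M) {r}).card * (V \ M).card *
            (mu φ (V.card - M.card) + 2 * L * B) := by
        have d1 : ∀ h ∈ FF (V \ M) {r}, ∑ p ∈ V \ M, (Phi φ (V \ M) r h + 2 * L * B) =
            ((V \ M).card : ℝ) * (Phi φ (V \ M) r h + 2 * L * B) := by
          intro h _
          rw [sum_const, nsmul_eq_mul]
        rw [sum_congr rfl (fun g _ => sum_congr rfl d1), sum_const, nsmul_eq_mul, ← mul_sum,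
          sum_add_distrib, hMOM1 n (V \ M) r hrVM φ, sum_const, nsmul_eq_mul,
          card_sdiff_of_subset hMV]
        ring
      have b3 := mul_le_mul_of_nonneg_left (b1.trans_eq b2) (h0 M.card)
      refine b3.trans_eq ?_
      ring
  refine le_trans (sum_le_sum (fun v hv => sum_le_sum (e2 v hv))) ?_
  have e3 := hCSU n V r hr (fun m => φ m * (mu φ (V.card - m) + 2 * L * B))
  rw [e3]
  apply le_of_eq
  congr 1
  apply sum_congr rfl
  intro m _
  ring

end Pool.AA
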