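import Pool.Agent.Work.MP_6241b7_aa.Interface

/-! ST1: Stirling bound for the expected number of vertices with `m` descendants. -/

set_option autoImplicit false

open Finset

namespace Pool.AA

namespace ST1

theorem aa_pos {n : ℕ} (hn : 1 ≤ n) : 0 < aa n := by
  unfold aa
  have : (0 : ℝ) < n := by exact_mod_cast hn
  positivity

theorem aa_le {n : ℕ} (hn : 1 ≤ n) : aa n ≤ Real.exp n / Real.sqrt n := by
  have hn0 : (0 : ℝ) < n := by exact_mod_cast hn
  have h := Stirling.le_factorial_stirling n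
  have hsq : Real.sqrt n ≤ Real.sqrt (2 * Real.pi * n) := by
    apply Real.sqrt_le_sqrt
    have := Real.pi_gt_three
    nlinarith
  have hpow : (0 : ℝ) < (n / Real.exp 1) ^ n := by positivity
  have h2 : Real.sqrt n * (n / Real.exp 1) ^ n ≤ (n.factorial : ℝ) :=
    (mul_le_mul_of_nonneg_right hsq hpow.le).trans h
  unfold aa
  rw [div_le_div_iff₀ (by positivity) (by positivity)]
  have h3 : Real.exp n = Real.exp 1 ^ n := by rw [← Real.exp_nat_mul, mul_one]
  rw [div_pow] at h2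
  rw [h3]
  have hE : (0 : ℝ) < Real.exp 1 ^ n := by positivity
  have h4 : Real.sqrt n * (n : ℝ) ^ n ≤ n.factorial * Real.exp 1 ^ n := by
    have := mul_le_mul_of_nonneg_right h2 hE.le
    rwa [mul_assoc, div_mul_cancel₀ _ hE.ne'] at this
  linarith

theorem le_aa {n : ℕ} (hn : 1 ≤ n) : Real.exp n / (Real.exp 1 * Real.sqrt n) ≤ aa n := by
  have hn0 : (0 : ℝ) < n := by exact_mod_cast hn
  obtain ⟨k, rfl⟩ : ∃ k, n = k + 1 := ⟨n - 1, by omega⟩
  have h1 : Stirling.stirlingSeq (k + 1) ≤ Stirling.stirlingSeq 1 :=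
    Stirling.stirlingSeq'_antitone (Nat.zero_le k)
  rw [Stirling.stirlingSeq_one] at h1
  set n := k + 1 with hnk
  have hD : (0 : ℝ) < Real.sqrt (2 * n) * (n / Real.exp 1) ^ n := by positivity
  have h2 : (n.factorial : ℝ) ≤ Real.exp 1 / Real.sqrt 2 * (Real.sqrt (2 * n) *
      (n / Real.exp 1) ^ n) := by
    have h3 : (n.factorial : ℝ) / (Real.sqrt (2 * n) * (n / Real.exp 1) ^ n) ≤
        Real.exp 1 / Real.sqrt 2 := h1
    rwa [div_le_iff₀ hD] at h3
  have hsq : Real.sqrt (2 * n) = Real.sqrt 2 * Real.sqrt n :=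
    Real.sqrt_mul (by norm_num) _
  have hE : (0 : ℝ) < Real.exp 1 ^ n := by positivity
  have h4 : (n.factorial : ℝ) * Real.exp 1 ^ n ≤ Real.exp 1 * Real.sqrt n * (n : ℝ) ^ n := by
    have h5 := mul_le_mul_of_nonneg_right h2 hE.le
    have h6 : Real.exp 1 / Real.sqrt 2 * (Real.sqrt (2 * n) * (n / Real.exp 1) ^ n) *
        Real.exp 1 ^ n = Real.exp 1 * Real.sqrt n * (n : ℝ) ^ n := by
      rw [hsq, div_pow]
      have : Real.sqrt 2 ≠ 0 := by positivity
      field_simp
    rwa [h6] at h5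
  unfold aa
  rw [div_le_div_iff₀ (by positivity) (by positivity)]
  have h3 : Real.exp n = Real.exp 1 ^ n := by rw [← Real.exp_nat_mul, mul_one]
  rw [h3]
  linarith

end ST1

theorem stmt_ST1 : Stmt_ST1 := by
  refine ⟨Real.exp 1, ?_⟩
  intro N m hm hmN
  have hN : 1 ≤ N := by omega
  have hNm : 1 ≤ N - m := by omega
  have hm0 : (0 : ℝ) < m := by exact_mod_cast hm
  have hN0 : (0 : ℝ) < N := by exact_mod_cast hN
  have hNm0 : (0 : ℝ) < ((N - m : ℕ) : ℝ) := by exact_mod_cast hNm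
  have p1 := ST1.aa_pos hm
  have p2 := ST1.aa_pos hNm
  have p3 := ST1.aa_pos hN
  refine ⟨by unfold ee; positivity, ?_⟩
  have u1 := ST1.aa_le hm
  have u2 := ST1.aa_le hNm
  have l3 := ST1.le_aa hN
  have hL : (0 : ℝ) < Real.exp N / (Real.exp 1 * Real.sqrt N) := by positivity
  have h1 : aa m * aa (N - m) / aa N ≤
      (Real.exp m / Real.sqrt m * (Real.exp ((N - m : ℕ) : ℝ) / Real.sqrt ((N - m : ℕ) : ℝ))) /
        (Real.exp N / (Real.exp 1 * Real.sqrt N)) := by
    apply div_le_div₀ (by positivity) _ hL l3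
    exact mul_le_mul u1 u2 p2.le (by positivity)
  have hexp : Real.exp N = Real.exp m * Real.exp ((N - m : ℕ) : ℝ) := by
    rw [← Real.exp_add]
    congr 1
    rw [Nat.cast_sub hmN.le]
    ring
  have hr : (m : ℝ) ^ (-(3 / 2) : ℝ) = 1 / (m * Real.sqrt m) := by
    rw [Real.rpow_neg hm0.le, show (3 / 2 : ℝ) = 1 + 1 / 2 by norm_num, Real.rpow_add hm0,
      Real.rpow_one, ← Real.sqrt_eq_rpow, one_div]
  unfold ee
  rw [hr, Real.sqrt_div hN0.le]
  calc (N : ℝ) / m * (aa m * aa (N - m) / aa N)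
      ≤ (N : ℝ) / m * ((Real.exp m / Real.sqrt m *
        (Real.exp ((N - m : ℕ) : ℝ) / Real.sqrt ((N - m : ℕ) : ℝ))) /
        (Real.exp N / (Real.exp 1 * Real.sqrt N))) :=
        mul_le_mul_of_nonneg_left h1 (by positivity)
    _ = _ := by
        rw [hexp]
        have e1 := (Real.exp_pos (m : ℝ)).ne'
        have e2 := (Real.exp_pos ((N - m : ℕ) : ℝ)).ne'
        have e3 : Real.sqrt (m : ℝ) ≠ 0 := by positivity
        have e4 : Real.sqrt ((N - m : ℕ) : ℝ) ≠ 0 := by positivity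
        field_simp

end Pool.AA
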