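import Pool.Agent.Work.MP_6241b7_aa.Interface

set_option autoImplicit false

open Finset

namespace Pool.AA

namespace ST2

lemma aa_pos (j : ℕ) : 0 < aa j := by
  unfold aa
  rcases Nat.eq_zero_or_pos j with h | h
  · subst h; simp
  · have : (0 : ℝ) < j := by exact_mod_cast h
    positivity

lemma aa_succ (j : ℕ) (hj : 1 ≤ j) : aa (j + 1) = (1 + 1 / (j : ℝ)) ^ j * aa j := by
  have hj' : (0 : ℝ) < j := by exact_mod_cast hj
  have hf : (0 : ℝ) < (j.factorial : ℝ) := by exact_mod_cast j.factorial_pos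
  unfold aa
  rw [Nat.factorial_succ]
  push_cast
  have h1 : (1 + 1 / (j : ℝ)) = ((j : ℝ) + 1) / j := by field_simp
  rw [h1, div_pow]
  rw [pow_succ]
  field_simp

lemma up (j m : ℕ) (hj : 1 ≤ j) : aa (j + m) ≤ Real.exp m * aa j := by
  induction m with
  | zero => simp
  | succ m ih =>
    have h := aa_succ (j + m) (by omega)
    rw [← add_assoc, h]
    have hp : (0 : ℝ) < ((j + m : ℕ) : ℝ) := by exact_mod_cast (by omega : 0 < j + m)
    have h1 : (1 + 1 / ((j + m : ℕ) : ℝ)) ^ (j + m) ≤ Real.exp 1 := by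
      have h2 : (1 + 1 / ((j + m : ℕ) : ℝ)) ≤ Real.exp (1 / ((j + m : ℕ) : ℝ)) := by
        have := Real.add_one_le_exp (1 / ((j + m : ℕ) : ℝ))
        linarith
      calc (1 + 1 / ((j + m : ℕ) : ℝ)) ^ (j + m)
          ≤ (Real.exp (1 / ((j + m : ℕ) : ℝ))) ^ (j + m) :=
            pow_le_pow_left₀ (by positivity) h2 _
        _ = Real.exp 1 := by
            rw [← Real.exp_nat_mul]
            congr 1
            field_simp
    calc (1 + 1 / ((j + m : ℕ) : ℝ)) ^ (j + m) * aa (j + m)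
        ≤ Real.exp 1 * (Real.exp m * aa j) :=
          mul_le_mul h1 ih (aa_pos _).le (Real.exp_pos _).le
      _ = Real.exp ((m + 1 : ℕ) : ℝ) * aa j := by
          rw [← mul_assoc, ← Real.exp_add]
          congr 2
          push_cast
          ring

lemma low (r m : ℕ) (hr : 1 ≤ r) :
    Real.exp ((m : ℝ) * (1 - 1 / r)) * aa r ≤ aa (r + m) := by
  induction m with
  | zero => simp
  | succ m ih =>
    have h := aa_succ (r + m) (by omega)
    rw [← add_assoc, h]
    have hp : (0 : ℝ) < ((r + m : ℕ) : ℝ) := by exact_mod_cast (by omega : 0 < r + m)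
    have hr' : (0 : ℝ) < (r : ℝ) := by exact_mod_cast hr
    have h1 : Real.exp (1 - 1 / (r : ℝ)) ≤ (1 + 1 / ((r + m : ℕ) : ℝ)) ^ (r + m) := by
      set x : ℝ := ((r + m : ℕ) : ℝ) with hx
      have hx1 : (r : ℝ) ≤ x := by rw [hx]; exact_mod_cast (by omega : r ≤ r + m)
      have hpos : 0 < 1 + 1 / x := by positivity
      have h2 : 1 / (x + 1) ≤ Real.log (1 + 1 / x) := by
        have h3 := Real.one_sub_inv_le_log_of_pos hpos
        have h4 : 1 - (1 + 1 / x)⁻¹ = 1 / (x + 1) := by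
          field_simp
          ring
        linarith
      have h5 : Real.exp (x / (x + 1)) ≤ (1 + 1 / x) ^ (r + m) := by
        rw [← Real.exp_log hpos, ← Real.exp_nat_mul]
        apply Real.exp_le_exp.mpr
        rw [← hx]
        calc x / (x + 1) = x * (1 / (x + 1)) := by ring
          _ ≤ x * Real.log (1 + 1 / x) := mul_le_mul_of_nonneg_left h2 hp.le
      refine le_trans (Real.exp_le_exp.mpr ?_) h5
      have h6 : x / (x + 1) = 1 - 1 / (x + 1) := by field_simp; ring
      rw [h6]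
      have : 1 / (x + 1) ≤ 1 / (r : ℝ) := one_div_le_one_div_of_le hr' (by linarith)
      linarith
    calc Real.exp (((m + 1 : ℕ) : ℝ) * (1 - 1 / r)) * aa r
        = Real.exp (1 - 1 / (r : ℝ)) * (Real.exp ((m : ℝ) * (1 - 1 / r)) * aa r) := by
          rw [← mul_assoc, ← Real.exp_add]
          congr 2
          push_cast
          ring
      _ ≤ (1 + 1 / ((r + m : ℕ) : ℝ)) ^ (r + m) * aa (r + m) :=
          mul_le_mul h1 ih (mul_pos (Real.exp_pos _) (aa_pos _)).le (by positivity)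

end ST2

theorem stmt_ST2 : Stmt_ST2 := by
  intro N m m' hm' hN
  obtain ⟨r, hr⟩ : ∃ r, N = m + m' + r := ⟨N - m - m', by omega⟩
  have hr1 : 1 ≤ r := by omega
  have e1 : N - m = r + m' := by omega
  have e2 : N - m - m' = r := by omega
  have hr' : (0 : ℝ) < (r : ℝ) := by exact_mod_cast hr1
  have hm0 : (0 : ℝ) < (m' : ℝ) := by exact_mod_cast hm'
  have hup := ST2.up (N - m') m' (by omega)
  rw [show N - m' + m' = N by omega] at hup
  have hlow := ST2.low r m' hr1
  have pN := ST2.aa_pos N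
  have pN' := ST2.aa_pos (N - m')
  have pr := ST2.aa_pos r
  have prm := ST2.aa_pos (r + m')
  have pm := ST2.aa_pos m'
  unfold ee
  rw [e2, e1]
  have h1 : aa r / aa (r + m') ≤ Real.exp (-((m' : ℝ) * (1 - 1 / r))) := by
    rw [div_le_iff₀ prm, Real.exp_neg]
    rw [inv_mul_eq_div, le_div_iff₀ (Real.exp_pos _)]
    linarith
  have h2 : Real.exp (-(m' : ℝ)) ≤ aa (N - m') / aa N := by
    rw [le_div_iff₀ pN, Real.exp_neg, inv_mul_eq_div, div_le_iff₀ (Real.exp_pos _)]
    linarith
  have h3 : ((r + m' : ℕ) : ℝ) ≤ (N : ℝ) := by exact_mod_cast (by omega : r + m' ≤ N)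
  calc ((r + m' : ℕ) : ℝ) / m' * (aa m' * aa r / aa (r + m'))
      = ((r + m' : ℕ) : ℝ) / m' * aa m' * (aa r / aa (r + m')) := by ring
    _ ≤ (N : ℝ) / m' * aa m' * Real.exp (-((m' : ℝ) * (1 - 1 / r))) := by
        apply mul_le_mul _ h1 (div_pos pr prm).le (by positivity)
        apply mul_le_mul_of_nonneg_right _ pm.le
        exact div_le_div_of_nonneg_right h3 hm0.le
    _ = (N : ℝ) / m' * aa m' * Real.exp (-(m' : ℝ)) * Real.exp ((m' : ℝ) / (r : ℝ)) := by
        rw [mul_assoc ((N : ℝ) / m' * aa m'), ← Real.exp_add]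
        congr 2
        field_simp
        ring
    _ ≤ (N : ℝ) / m' * aa m' * (aa (N - m') / aa N) * Real.exp ((m' : ℝ) / (r : ℝ)) := by
        apply mul_le_mul_of_nonneg_right _ (Real.exp_pos _).le
        apply mul_le_mul_of_nonneg_left h2 (by positivity)
    _ = (N : ℝ) / m' * (aa m' * aa (N - m') / aa N) * Real.exp ((m' : ℝ) / (r : ℝ)) := by ring

end Pool.AA
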