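import Pool.Agent.Work.MP_6241b7_aa.Interface

/-!
# Block SUM: the numerical sums
-/

set_option autoImplicit false

open Finset

namespace Pool.AA

namespace SumB

theorem q4 (x : ℝ) (hx : 0 < x) : ∃ a : ℝ, 0 < a ∧ a ^ 4 = x ∧ x ^ (-(5 / 4) : ℝ) = 1 / a ^ 5 ∧
    x ^ (-(1 / 4) : ℝ) = 1 / a := by
  refine ⟨x ^ (1 / 4 : ℝ), Real.rpow_pos_of_pos hx _, ?_, ?_, ?_⟩
  · rw [← Real.rpow_natCast, ← Real.rpow_mul hx.le]
    norm_num
  · rw [← Real.rpow_natCast, ← Real.rpow_mul hx.le, Real.rpow_neg hx.le, one_div]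
    norm_num
  · rw [Real.rpow_neg hx.le]
    exact (one_div _).symm

theorem tele (m : ℕ) (hm : 2 ≤ m) : (m : ℝ) ^ (-(5 / 4) : ℝ) ≤
    4 * (((m - 1 : ℕ) : ℝ) ^ (-(1 / 4) : ℝ) - (m : ℝ) ^ (-(1 / 4) : ℝ)) := by
  have hm0 : (0 : ℝ) < m := by
    have : 0 < m := by omega
    exact_mod_cast this
  have hm1 : (0 : ℝ) < ((m - 1 : ℕ) : ℝ) := by
    have : 0 < m - 1 := by omega
    exact_mod_cast this
  obtain ⟨a, ha, ha4, ha5, ha1⟩ := q4 _ hm0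
  obtain ⟨b, hb, hb4, -, hb1⟩ := q4 _ hm1
  rw [ha5, ha1, hb1]
  have hsub : ((m - 1 : ℕ) : ℝ) = m - 1 := by
    rw [Nat.cast_sub (by omega)]
    norm_num
  rw [hsub] at hb4
  have hab : a ^ 4 - b ^ 4 = 1 := by rw [ha4, hb4]; ring
  have hba : b < a := by
    by_contra hcon
    push Not at hcon
    have : a ^ 4 ≤ b ^ 4 := pow_le_pow_left₀ ha.le hcon 4
    linarith
  have h1 : (a - b) * ((a + b) * (a ^ 2 + b ^ 2)) = 1 := by rw [← hab]; ring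
  have h2 : (a + b) * (a ^ 2 + b ^ 2) ≤ 4 * a ^ 3 := by
    have e1 : a + b ≤ 2 * a := by linarith
    have e2 : a ^ 2 + b ^ 2 ≤ 2 * a ^ 2 := by nlinarith
    calc (a + b) * (a ^ 2 + b ^ 2) ≤ (2 * a) * (2 * a ^ 2) :=
          mul_le_mul e1 e2 (by positivity) (by positivity)
      _ = 4 * a ^ 3 := by ring
  have h3 : 1 ≤ (a - b) * (4 * a ^ 3) := by
    rw [← h1]
    exact mul_le_mul_of_nonneg_left h2 (by linarith)
  have h4 : 1 / b - 1 / a = (a - b) / (a * b) := by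
    field_simp
  rw [h4, div_le_iff₀ (by positivity)]
  have h5 : 4 * ((a - b) / (a * b)) * a ^ 5 = ((a - b) * (4 * a ^ 3)) * (a / b) := by
    field_simp
  rw [h5]
  have h6 : 1 ≤ a / b := by
    rw [le_div_iff₀ hb]
    linarith
  nlinarith

theorem sum54 (M : ℕ) (hM : 1 ≤ M) (N : ℕ) :
    ∑ m ∈ Ico M N, (m : ℝ) ^ (-(5 / 4) : ℝ) ≤ 5 * (M : ℝ) ^ (-(1 / 4) : ℝ) := by
  have hM0 : (0 : ℝ) < M := by
    have : 0 < M := by omega
    exact_mod_cast this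
  by_cases hN : N ≤ M
  · rw [Finset.Ico_eq_empty (by omega), Finset.sum_empty]
    positivity
  · have key : ∀ n : ℕ, M + 1 ≤ n → ∑ m ∈ Ico M n, (m : ℝ) ^ (-(5 / 4) : ℝ) ≤
        (M : ℝ) ^ (-(5 / 4) : ℝ) + 4 * ((M : ℝ) ^ (-(1 / 4) : ℝ) -
          ((n - 1 : ℕ) : ℝ) ^ (-(1 / 4) : ℝ)) := by
      intro n hn
      induction n, hn using Nat.le_induction with
      | base =>
        rw [Finset.sum_Ico_succ_top (le_refl M), Finset.Ico_self, Finset.sum_empty]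
        simp
      | succ n hn ih =>
        rw [Finset.sum_Ico_succ_top (by omega)]
        have h1 := tele n (by omega)
        have h2 : (n + 1 - 1 : ℕ) = n := by omega
        rw [h2]
        linarith
    have h1 := key N (by omega)
    have h2 : (0 : ℝ) ≤ ((N - 1 : ℕ) : ℝ) ^ (-(1 / 4) : ℝ) := Real.rpow_nonneg (Nat.cast_nonneg _) _
    have h3 : (M : ℝ) ^ (-(5 / 4) : ℝ) ≤ (M : ℝ) ^ (-(1 / 4) : ℝ) :=
      Real.rpow_le_rpow_of_exponent_le (by exact_mod_cast hM) (by norm_num)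
    linarith

theorem sum12 (n : ℕ) : ∑ j ∈ Ico 1 (n + 1), 1 / Real.sqrt (j : ℝ) ≤ 2 * Real.sqrt (n : ℝ) := by
  induction n with
  | zero => simp
  | succ n ih =>
    rw [Finset.sum_Ico_succ_top (by omega)]
    have h0 : (0 : ℝ) ≤ n := Nat.cast_nonneg n
    have hs : ((n + 1 : ℕ) : ℝ) = (n : ℝ) + 1 := by push_cast; ring
    rw [hs]
    have h1 : 0 < Real.sqrt ((n : ℝ) + 1) := Real.sqrt_pos.2 (by linarith)
    have h2 : Real.sqrt ((n : ℝ) + 1) ^ 2 = n + 1 := Real.sq_sqrt (by linarith)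
    have h3 : Real.sqrt (n : ℝ) ^ 2 = n := Real.sq_sqrt h0
    have h4 : 0 ≤ Real.sqrt (n : ℝ) := Real.sqrt_nonneg _
    have h5 : 1 / Real.sqrt ((n : ℝ) + 1) ≤ 2 * Real.sqrt ((n : ℝ) + 1) - 2 * Real.sqrt (n : ℝ) := by
      rw [div_le_iff₀ h1]
      nlinarith [sq_nonneg (Real.sqrt ((n : ℝ) + 1) - Real.sqrt (n : ℝ))]
    linarith

theorem sumsq (N : ℕ) (hN : 1 ≤ N) :
    ∑ m ∈ Ico 1 N, Real.sqrt ((N : ℝ) / ((N - m : ℕ) : ℝ)) ≤ 2 * N := by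
  have h1 : ∑ m ∈ Ico 1 N, Real.sqrt ((N : ℝ) / ((N - m : ℕ) : ℝ)) =
      ∑ j ∈ Ico 1 N, Real.sqrt ((N : ℝ) / (j : ℝ)) := by
    refine Finset.sum_nbij' (fun m => N - m) (fun j => N - j) ?_ ?_ ?_ ?_ ?_
    · intro m hm
      rw [Finset.mem_Ico] at hm ⊢
      omega
    · intro m hm
      rw [Finset.mem_Ico] at hm ⊢
      omega
    · intro m hm
      rw [Finset.mem_Ico] at hm
      show N - (N - m) = m
      omega
    · intro m hm
      rw [Finset.mem_Ico] at hm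
      show N - (N - m) = m
      omega
    · intro m hm
      rfl
  rw [h1]
  obtain ⟨n, rfl⟩ : ∃ n, N = n + 1 := ⟨N - 1, by omega⟩
  have h2 : ∀ j ∈ Ico 1 (n + 1), Real.sqrt (((n + 1 : ℕ) : ℝ) / (j : ℝ)) =
      Real.sqrt ((n + 1 : ℕ) : ℝ) * (1 / Real.sqrt (j : ℝ)) := by
    intro j _
    rw [Real.sqrt_div (Nat.cast_nonneg _)]
    ring
  rw [Finset.sum_congr rfl h2, ← Finset.mul_sum]
  have h3 := sum12 n
  have h4 : Real.sqrt (n : ℝ) ≤ Real.sqrt ((n + 1 : ℕ) : ℝ) := by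
    apply Real.sqrt_le_sqrt
    push_cast
    linarith
  have h5 : 0 ≤ Real.sqrt ((n + 1 : ℕ) : ℝ) := Real.sqrt_nonneg _
  have h6 : Real.sqrt ((n + 1 : ℕ) : ℝ) ^ 2 = ((n + 1 : ℕ) : ℝ) := Real.sq_sqrt (Nat.cast_nonneg _)
  calc Real.sqrt ((n + 1 : ℕ) : ℝ) * ∑ j ∈ Ico 1 (n + 1), 1 / Real.sqrt (j : ℝ)
      ≤ Real.sqrt ((n + 1 : ℕ) : ℝ) * (2 * Real.sqrt ((n + 1 : ℕ) : ℝ)) :=
        mul_le_mul_of_nonneg_left (by linarith) h5
    _ = 2 * ((n + 1 : ℕ) : ℝ) := by linear_combination 2 * h6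

theorem main_sum (M N : ℕ) (hM : 1 ≤ M) :
    ∑ m ∈ Ico M N, (m : ℝ) ^ (-(5 / 4) : ℝ) * Real.sqrt ((N : ℝ) / ((N - m : ℕ) : ℝ)) ≤
      16 * (M : ℝ) ^ (-(1 / 4) : ℝ) := by
  have hM0 : (0 : ℝ) < M := by
    have : 0 < M := by omega
    exact_mod_cast this
  by_cases hN : N ≤ M
  · rw [Finset.Ico_eq_empty (by omega), Finset.sum_empty]
    positivity
  have hN1 : 1 ≤ N := by omega
  have hN0 : (0 : ℝ) < N := by
    have : 0 < N := by omega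
    exact_mod_cast this
  have hterm : ∀ m ∈ Ico M N,
      (m : ℝ) ^ (-(5 / 4) : ℝ) * Real.sqrt ((N : ℝ) / ((N - m : ℕ) : ℝ)) ≤
      3 / 2 * (m : ℝ) ^ (-(5 / 4) : ℝ) + 4 * (N : ℝ) ^ (-(5 / 4) : ℝ) *
        Real.sqrt ((N : ℝ) / ((N - m : ℕ) : ℝ)) := by
    intro m hm
    rw [Finset.mem_Ico] at hm
    have hm0 : (0 : ℝ) < m := by
      have : 0 < m := by omega
      exact_mod_cast this
    have hNm : (0 : ℝ) < ((N - m : ℕ) : ℝ) := by
      have : 0 < N - m := by omega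
      exact_mod_cast this
    have p1 : 0 ≤ (m : ℝ) ^ (-(5 / 4) : ℝ) := Real.rpow_nonneg hm0.le _
    have p2 : 0 ≤ (N : ℝ) ^ (-(5 / 4) : ℝ) := Real.rpow_nonneg hN0.le _
    have p3 : 0 ≤ Real.sqrt ((N : ℝ) / ((N - m : ℕ) : ℝ)) := Real.sqrt_nonneg _
    by_cases h2 : 2 * m ≤ N
    · have h3 : Real.sqrt ((N : ℝ) / ((N - m : ℕ) : ℝ)) ≤ 3 / 2 := by
        rw [show (3 / 2 : ℝ) = Real.sqrt ((3 / 2) ^ 2) from (Real.sqrt_sq (by norm_num)).symm]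
        apply Real.sqrt_le_sqrt
        rw [div_le_iff₀ hNm, Nat.cast_sub (by omega)]
        have : (2 : ℝ) * m ≤ N := by exact_mod_cast h2
        linarith
      have h4 := mul_le_mul_of_nonneg_left h3 p1
      have h5 : 0 ≤ 4 * (N : ℝ) ^ (-(5 / 4) : ℝ) * Real.sqrt ((N : ℝ) / ((N - m : ℕ) : ℝ)) := by
        positivity
      linarith
    · have h3 : (m : ℝ) ^ (-(5 / 4) : ℝ) ≤ 4 * (N : ℝ) ^ (-(5 / 4) : ℝ) := by
        have h4 : (N : ℝ) / 2 ≤ m := by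
          have : (N : ℝ) ≤ 2 * m := by
            have h : N ≤ 2 * m := by omega
            exact_mod_cast h
          linarith
        have h5 : (m : ℝ) ^ (-(5 / 4) : ℝ) ≤ ((N : ℝ) / 2) ^ (-(5 / 4) : ℝ) :=
          Real.rpow_le_rpow_of_nonpos (by positivity) h4 (by norm_num)
        have h6 : ((N : ℝ) / 2) ^ (-(5 / 4) : ℝ) = (N : ℝ) ^ (-(5 / 4) : ℝ) *
            (2 : ℝ) ^ (5 / 4 : ℝ) := by
          rw [Real.div_rpow hN0.le (by norm_num), Real.rpow_neg (by norm_num : (0 : ℝ) ≤ 2),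
            div_inv_eq_mul]
        have h7 : (2 : ℝ) ^ (5 / 4 : ℝ) ≤ 4 := by
          have h8 : (2 : ℝ) ^ (5 / 4 : ℝ) ≤ (2 : ℝ) ^ (2 : ℝ) :=
            Real.rpow_le_rpow_of_exponent_le (by norm_num) (by norm_num)
          have h9 : (2 : ℝ) ^ (2 : ℝ) = 4 := by
            rw [show (2 : ℝ) = ((2 : ℕ) : ℝ) by norm_num, Real.rpow_natCast]
            norm_num
          linarith
        rw [h6] at h5
        nlinarith
      have h4 := mul_le_mul_of_nonneg_right h3 p3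
      linarith
  have hNM : (N : ℝ) ^ (-(1 / 4) : ℝ) ≤ (M : ℝ) ^ (-(1 / 4) : ℝ) := by
    apply Real.rpow_le_rpow_of_nonpos hM0 _ (by norm_num)
    have : M ≤ N := by omega
    exact_mod_cast this
  have hsub : ∑ m ∈ Ico M N, Real.sqrt ((N : ℝ) / ((N - m : ℕ) : ℝ)) ≤ 2 * N := by
    refine le_trans ?_ (sumsq N hN1)
    apply Finset.sum_le_sum_of_subset_of_nonneg
    · intro m hm
      rw [Finset.mem_Ico] at hm ⊢
      omega
    · intro m _ _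
      exact Real.sqrt_nonneg _
  have hNN : (N : ℝ) ^ (-(5 / 4) : ℝ) * N = (N : ℝ) ^ (-(1 / 4) : ℝ) := by
    have h1 : (N : ℝ) ^ (-(5 / 4) : ℝ) * N = (N : ℝ) ^ (-(5 / 4) : ℝ) * (N : ℝ) ^ (1 : ℝ) := by
      rw [Real.rpow_one]
    rw [h1, ← Real.rpow_add hN0]
    norm_num
  calc ∑ m ∈ Ico M N, (m : ℝ) ^ (-(5 / 4) : ℝ) * Real.sqrt ((N : ℝ) / ((N - m : ℕ) : ℝ))
      ≤ ∑ m ∈ Ico M N, (3 / 2 * (m : ℝ) ^ (-(5 / 4) : ℝ) + 4 * (N : ℝ) ^ (-(5 / 4) : ℝ) *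
        Real.sqrt ((N : ℝ) / ((N - m : ℕ) : ℝ))) := Finset.sum_le_sum hterm
    _ = 3 / 2 * ∑ m ∈ Ico M N, (m : ℝ) ^ (-(5 / 4) : ℝ) + 4 * (N : ℝ) ^ (-(5 / 4) : ℝ) *
        ∑ m ∈ Ico M N, Real.sqrt ((N : ℝ) / ((N - m : ℕ) : ℝ)) := by
          rw [Finset.sum_add_distrib, Finset.mul_sum, Finset.mul_sum]
    _ ≤ 3 / 2 * (5 * (M : ℝ) ^ (-(1 / 4) : ℝ)) + 4 * (N : ℝ) ^ (-(5 / 4) : ℝ) * (2 * N) := by
          apply add_le_add
          · exact mul_le_mul_of_nonneg_left (sum54 M hM N) (by norm_num)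
          · exact mul_le_mul_of_nonneg_left hsub (by positivity)
    _ = 3 / 2 * (5 * (M : ℝ) ^ (-(1 / 4) : ℝ)) + 8 * (N : ℝ) ^ (-(1 / 4) : ℝ) := by
          rw [← hNN]; ring
    _ ≤ 16 * (M : ℝ) ^ (-(1 / 4) : ℝ) := by
          have : 0 ≤ (M : ℝ) ^ (-(1 / 4) : ℝ) := by positivity
          linarith

theorem ph_nonneg (s : ℕ) : 0 ≤ ph s := Real.rpow_nonneg (Nat.cast_nonneg _) _

theorem phs_nonneg (N s : ℕ) : 0 ≤ phs N s := by
  unfold phs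
  split_ifs
  · exact ph_nonneg s
  · exact le_refl _

theorem phs_le (N s : ℕ) : phs N s ≤ ph s := by
  unfold phs
  split_ifs
  · exact le_refl _
  · exact ph_nonneg s

/-- one term -/
theorem term (C : ℝ) (N m : ℕ) (hm : 1 ≤ m)
    (h : ee N m ≤ C * N * (m : ℝ) ^ (-(3 / 2) : ℝ) * Real.sqrt ((N : ℝ) / ((N - m : ℕ) : ℝ))) :
    ee N m * ph m ≤ C * N * ((m : ℝ) ^ (-(5 / 4) : ℝ) *
      Real.sqrt ((N : ℝ) / ((N - m : ℕ) : ℝ))) := by
  have hm0 : (0 : ℝ) < m := by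
    have : 0 < m := by omega
    exact_mod_cast this
  have h1 := mul_le_mul_of_nonneg_right h (ph_nonneg m)
  have h2 : (m : ℝ) ^ (-(3 / 2) : ℝ) * ph m = (m : ℝ) ^ (-(5 / 4) : ℝ) := by
    unfold ph
    rw [← Real.rpow_add hm0]
    norm_num
  calc ee N m * ph m ≤ C * N * (m : ℝ) ^ (-(3 / 2) : ℝ) *
        Real.sqrt ((N : ℝ) / ((N - m : ℕ) : ℝ)) * ph m := h1
    _ = C * N * (((m : ℝ) ^ (-(3 / 2) : ℝ) * ph m) *
        Real.sqrt ((N : ℝ) / ((N - m : ℕ) : ℝ))) := by ring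
    _ = _ := by rw [h2]

/-- a part of the sum -/
theorem part (C : ℝ) (hC : 0 ≤ C) (N M : ℕ) (hM : 1 ≤ M)
    (h : ∀ m : ℕ, 1 ≤ m → m < N → 0 ≤ ee N m ∧ ee N m ≤ C * N * (m : ℝ) ^ (-(3 / 2) : ℝ) *
      Real.sqrt ((N : ℝ) / ((N - m : ℕ) : ℝ))) :
    ∑ m ∈ Ico M N, ee N m * ph m ≤ 16 * C * N * (M : ℝ) ^ (-(1 / 4) : ℝ) := by
  calc ∑ m ∈ Ico M N, ee N m * ph m
      ≤ ∑ m ∈ Ico M N, C * N * ((m : ℝ) ^ (-(5 / 4) : ℝ) *
      Real.sqrt ((N : ℝ) / ((N - m : ℕ) : ℝ))) := by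
        apply Finset.sum_le_sum
        intro m hm
        rw [Finset.mem_Ico] at hm
        exact term C N m (by omega) (h m (by omega) hm.2).2
    _ = C * N * ∑ m ∈ Ico M N, (m : ℝ) ^ (-(5 / 4) : ℝ) *
      Real.sqrt ((N : ℝ) / ((N - m : ℕ) : ℝ)) := by rw [Finset.mul_sum]
    _ ≤ C * N * (16 * (M : ℝ) ^ (-(1 / 4) : ℝ)) :=
        mul_le_mul_of_nonneg_left (main_sum M N hM) (by positivity)
    _ = _ := by ring

theorem root8 (m N : ℕ) (h : m ^ 8 ≤ N) : (m : ℝ) ≤ (N : ℝ) ^ (1 / 8 : ℝ) := by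
  have h1 : (m : ℝ) = ((m : ℝ) ^ 8) ^ (1 / 8 : ℝ) := by
    rw [← Real.rpow_natCast, ← Real.rpow_mul (Nat.cast_nonneg _)]
    norm_num
  rw [h1]
  apply Real.rpow_le_rpow (by positivity) _ (by norm_num)
  exact_mod_cast h

theorem small8 (m N : ℕ) (hm : 1 ≤ m) (h : m ^ 8 ≤ N) : m = 1 ∨ 128 * m ≤ N := by
  by_cases h1 : m = 1
  · exact Or.inl h1
  · right
    have h2 : 2 ≤ m := by omega
    have h3 : 2 ^ 7 ≤ m ^ 7 := Nat.pow_le_pow_left h2 7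
    have h4 : m ^ 8 = m ^ 7 * m := by ring
    have h5 : 2 ^ 7 * m ≤ m ^ 7 * m := Nat.mul_le_mul_right m h3
    omega

theorem exp_bd (x : ℝ) (h0 : 0 ≤ x) (h3 : x ≤ 3) : Real.exp x ≤ 1 + 21 * x := by
  have h1 : 1 - x ≤ Real.exp (-x) := by
    have := Real.add_one_le_exp (-x)
    linarith
  have h2 : Real.exp x * Real.exp (-x) = 1 := by
    rw [← Real.exp_add]
    simp
  have h4 : Real.exp x ≤ 21 := by
    have h5 : Real.exp x ≤ Real.exp 3 := Real.exp_le_exp.2 h3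
    have h6 : Real.exp 3 = (Real.exp 1) ^ 3 := by
      rw [← Real.exp_nat_mul]
      norm_num
    have h7 : Real.exp 1 ≤ 2.72 := by
      have := Real.exp_one_lt_d9
      linarith
    have h8 : (Real.exp 1) ^ 3 ≤ (2.72 : ℝ) ^ 3 := pow_le_pow_left₀ (Real.exp_pos _).le h7 3
    norm_num at h8
    rw [h6] at h5
    linarith
  have h5 : 0 < Real.exp x := Real.exp_pos x
  have h6 : Real.exp x * (1 - x) ≤ 1 := by
    calc Real.exp x * (1 - x) ≤ Real.exp x * Real.exp (-x) :=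
          mul_le_mul_of_nonneg_left h1 h5.le
      _ = 1 := h2
  nlinarith

/-- comparison of the means -/
theorem mu_comp (hST2 : Stmt_ST2) (N m : ℕ) (hm : 1 ≤ m) (hmN : m < N) (hm8 : m ^ 8 ≤ N)
    (hee : ∀ m : ℕ, 1 ≤ m → m < N → 0 ≤ ee N m) :
    mu (phs N) (N - m) ≤ (1 + 63 * (N : ℝ) ^ (-(7 / 8) : ℝ)) * mu (phs N) N := by
  have hN0 : (0 : ℝ) < N := by
    have : 0 < N := by omega
    exact_mod_cast this
  unfold mu
  rw [Finset.mul_sum]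
  have h1 : ∀ m' ∈ Ico 1 (N - m), ee (N - m) m' * phs N m' ≤
      (1 + 63 * (N : ℝ) ^ (-(7 / 8) : ℝ)) * (ee N m' * phs N m') := by
    intro m' hm'
    rw [Finset.mem_Ico] at hm'
    by_cases h8 : m' ^ 8 ≤ N
    · have h2 := hST2 N m m' hm'.1 (by omega)
      have h3 : (m' : ℝ) / ((N - m - m' : ℕ) : ℝ) ≤ 3 * (m' : ℝ) / N := by
        have hpos : (0 : ℝ) < ((N - m - m' : ℕ) : ℝ) := by
          have : 0 < N - m - m' := by omega
          exact_mod_cast this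
        rw [div_le_div_iff₀ hpos hN0]
        have h4 : N ≤ 3 * (N - m - m') := by
          rcases small8 m N hm hm8 with h5 | h5 <;> rcases small8 m' N hm'.1 h8 with h6 | h6 <;>
            omega
        have h5 : (N : ℝ) ≤ 3 * ((N - m - m' : ℕ) : ℝ) := by exact_mod_cast h4
        have h6 : (0 : ℝ) ≤ m' := Nat.cast_nonneg _
        nlinarith
      have h4 : 3 * (m' : ℝ) / N ≤ 3 * (N : ℝ) ^ (-(7 / 8) : ℝ) := by
        have h5 := root8 m' N h8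
        have h6 : (N : ℝ) ^ (-(7 / 8) : ℝ) = (N : ℝ) ^ (1 / 8 : ℝ) / N := by
          have h7 : (N : ℝ) ^ (1 / 8 : ℝ) / N = (N : ℝ) ^ (1 / 8 : ℝ) / (N : ℝ) ^ (1 : ℝ) := by
            rw [Real.rpow_one]
          rw [h7, ← Real.rpow_sub hN0]
          norm_num
        rw [h6, mul_div_assoc]
        have h7 : (m' : ℝ) / N ≤ (N : ℝ) ^ (1 / 8 : ℝ) / N :=
          div_le_div_of_nonneg_right h5 hN0.le
        linarith
      have h5 : 3 * (m' : ℝ) / N ≤ 3 := by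
        rw [div_le_iff₀ hN0]
        have : (m' : ℝ) ≤ N := by
          have : m' ≤ N := by omega
          exact_mod_cast this
        linarith
      have h6 : (0 : ℝ) ≤ (m' : ℝ) / ((N - m - m' : ℕ) : ℝ) := by positivity
      have h7 := exp_bd _ h6 (h3.trans h5)
      have h8' : Real.exp ((m' : ℝ) / ((N - m - m' : ℕ) : ℝ)) ≤
          1 + 63 * (N : ℝ) ^ (-(7 / 8) : ℝ) := by linarith
      have h9 : 0 ≤ ee N m' := hee m' hm'.1 (by omega)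
      have h10 : ee (N - m) m' ≤ ee N m' * (1 + 63 * (N : ℝ) ^ (-(7 / 8) : ℝ)) :=
        h2.trans (mul_le_mul_of_nonneg_left h8' h9)
      have h11 := mul_le_mul_of_nonneg_right h10 (phs_nonneg N m')
      linarith
    · have h2 : phs N m' = 0 := by
        unfold phs
        rw [if_neg h8]
      rw [h2]
      simp
  refine (Finset.sum_le_sum h1).trans ?_
  apply Finset.sum_le_sum_of_subset_of_nonneg
  · intro x hx
    rw [Finset.mem_Ico] at hx ⊢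
    omega
  · intro x hx _
    rw [Finset.mem_Ico] at hx
    have h2 := hee x hx.1 hx.2
    have h3 := phs_nonneg N x
    positivity

end SumB

open SumB in
theorem stmt_SUM : Stmt_ST1 → Stmt_ST2 → Stmt_SUM := by
  intro hST1 hST2
  obtain ⟨C0, hC0⟩ := hST1
  obtain ⟨C, hCdef⟩ : ∃ C : ℝ, C = |C0| := ⟨_, rfl⟩
  have hC : 0 ≤ C := by rw [hCdef]; exact abs_nonneg _
  have hee : ∀ N m : ℕ, 1 ≤ m → m < N → 0 ≤ ee N m ∧ ee N m ≤ C * N * (m : ℝ) ^ (-(3 / 2) : ℝ) *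
      Real.sqrt ((N : ℝ) / ((N - m : ℕ) : ℝ)) := by
    intro N m h1 h2
    obtain ⟨h3, h4⟩ := hC0 N m h1 h2
    refine ⟨h3, h4.trans ?_⟩
    have h5 : C0 ≤ C := by rw [hCdef]; exact le_abs_self _
    have h6 : 0 ≤ (N : ℝ) * (m : ℝ) ^ (-(3 / 2) : ℝ) *
      Real.sqrt ((N : ℝ) / ((N - m : ℕ) : ℝ)) := by positivity
    have h7 := mul_le_mul_of_nonneg_right h5 h6
    calc C0 * N * (m : ℝ) ^ (-(3 / 2) : ℝ) * Real.sqrt ((N : ℝ) / ((N - m : ℕ) : ℝ))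
        = C0 * ((N : ℝ) * (m : ℝ) ^ (-(3 / 2) : ℝ) *
          Real.sqrt ((N : ℝ) / ((N - m : ℕ) : ℝ))) := by ring
      _ ≤ C * ((N : ℝ) * (m : ℝ) ^ (-(3 / 2) : ℝ) *
          Real.sqrt ((N : ℝ) / ((N - m : ℕ) : ℝ))) := h7
      _ = _ := by ring
  have hmu1 : ∀ N : ℕ, mu ph N ≤ 16 * C * N := by
    intro N
    have := part C hC N 1 (le_refl 1) (hee N)
    unfold mu
    simpa using this
  refine ⟨16 * C + (63 * (16 * C) ^ 2 + 2 * (16 * C)) + 1, by positivity, ?_⟩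
  intro N hN
  have hN0 : (0 : ℝ) < N := by
    have : 0 < N := by omega
    exact_mod_cast this
  have hN1 : (1 : ℝ) ≤ N := by
    have : 1 ≤ N := by omega
    exact_mod_cast this
  have hK : 0 ≤ 63 * (16 * C) ^ 2 + 2 * (16 * C) := by positivity
  refine ⟨?_, ?_, ?_⟩
  · refine (hmu1 N).trans ?_
    apply mul_le_mul_of_nonneg_right _ hN0.le
    linarith
  · -- large part
    obtain ⟨M, hMdef⟩ : ∃ M : ℕ, M = ⌊(N : ℝ) ^ (1 / 8 : ℝ)⌋₊ + 1 := ⟨_, rfl⟩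
    have hM1 : 1 ≤ M := by omega
    have hMlt : (N : ℝ) ^ (1 / 8 : ℝ) ≤ M := by
      rw [hMdef]
      push_cast
      exact (Nat.lt_floor_add_one _).le
    have hMle : ∀ m : ℕ, ¬ m ^ 8 ≤ N → M ≤ m := by
      intro m hm
      rw [hMdef]
      apply Nat.succ_le_of_lt
      by_contra hcon
      push Not at hcon
      apply hm
      have h1 : (m : ℝ) ≤ (N : ℝ) ^ (1 / 8 : ℝ) :=
        (Nat.cast_le.2 hcon).trans (Nat.floor_le (by positivity))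
      have h2 : (m : ℝ) ^ 8 ≤ ((N : ℝ) ^ (1 / 8 : ℝ)) ^ 8 :=
        pow_le_pow_left₀ (Nat.cast_nonneg _) h1 8
      have h3 : ((N : ℝ) ^ (1 / 8 : ℝ)) ^ 8 = N := by
        rw [← Real.rpow_natCast, ← Real.rpow_mul hN0.le]
        norm_num
      rw [h3] at h2
      exact_mod_cast h2
    have h1 : mu (phl N) N ≤ ∑ m ∈ Ico M N, ee N m * ph m := by
      unfold mu
      have h2 : ∑ m ∈ Ico 1 N, ee N m * phl N m ≤
          ∑ m ∈ (Ico 1 N).filter (fun m => M ≤ m), ee N m * ph m := by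
        rw [Finset.sum_filter]
        apply Finset.sum_le_sum
        intro m hm
        rw [Finset.mem_Ico] at hm
        have h3 := (hee N m hm.1 hm.2).1
        by_cases h4 : M ≤ m
        · rw [if_pos h4]
          apply mul_le_mul_of_nonneg_left _ h3
          unfold phl
          have := phs_nonneg N m
          linarith
        · rw [if_neg h4]
          have h5 : m ^ 8 ≤ N := by
            by_contra h6
            exact h4 (hMle m h6)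
          have h6 : phl N m = 0 := by
            unfold phl phs
            rw [if_pos h5, sub_self]
          rw [h6, mul_zero]
      refine h2.trans (le_of_eq ?_)
      apply Finset.sum_congr _ (fun _ _ => rfl)
      ext m
      rw [Finset.mem_filter, Finset.mem_Ico, Finset.mem_Ico]
      omega
    have h2 := part C hC N M hM1 (hee N)
    have h3 : (M : ℝ) ^ (-(1 / 4) : ℝ) ≤ (N : ℝ) ^ (-(1 / 32) : ℝ) := by
      have h4 : (M : ℝ) ^ (-(1 / 4) : ℝ) ≤ ((N : ℝ) ^ (1 / 8 : ℝ)) ^ (-(1 / 4) : ℝ) :=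
        Real.rpow_le_rpow_of_nonpos (by positivity) hMlt (by norm_num)
      have h5 : ((N : ℝ) ^ (1 / 8 : ℝ)) ^ (-(1 / 4) : ℝ) = (N : ℝ) ^ (-(1 / 32) : ℝ) := by
        rw [← Real.rpow_mul hN0.le]
        norm_num
      rw [h5] at h4
      exact h4
    have h6 : (N : ℝ) * (N : ℝ) ^ (-(1 / 32) : ℝ) = (N : ℝ) ^ (31 / 32 : ℝ) := by
      have h7 : (N : ℝ) * (N : ℝ) ^ (-(1 / 32) : ℝ) =
          (N : ℝ) ^ (1 : ℝ) * (N : ℝ) ^ (-(1 / 32) : ℝ) := by rw [Real.rpow_one]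
      rw [h7, ← Real.rpow_add hN0]
      norm_num
    calc mu (phl N) N ≤ 16 * C * N * (M : ℝ) ^ (-(1 / 4) : ℝ) := h1.trans h2
      _ ≤ 16 * C * N * (N : ℝ) ^ (-(1 / 32) : ℝ) :=
          mul_le_mul_of_nonneg_left h3 (by positivity)
      _ = 16 * C * (N : ℝ) ^ (31 / 32 : ℝ) := by rw [mul_assoc, h6]
      _ ≤ _ := by
          apply mul_le_mul_of_nonneg_right _ (by positivity)
          linarith
  · -- second moment
    intro L B hL hB0 hB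
    obtain ⟨μ, hμ⟩ : ∃ μ : ℝ, μ = mu (phs N) N := ⟨_, rfl⟩
    have hμ0 : 0 ≤ μ := by
      rw [hμ]
      apply Finset.sum_nonneg
      intro m hm
      rw [Finset.mem_Ico] at hm
      exact mul_nonneg (hee N m hm.1 hm.2).1 (phs_nonneg N m)
    have hμN : μ ≤ 16 * C * N := by
      rw [hμ]
      refine le_trans ?_ (hmu1 N)
      apply Finset.sum_le_sum
      intro m hm
      rw [Finset.mem_Ico] at hm
      exact mul_le_mul_of_nonneg_left (phs_le N m) (hee N m hm.1 hm.2).1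
    have h1 : ∀ m ∈ Ico 1 N, ee N m * phs N m * (mu (phs N) (N - m) + 2 * L * B) ≤
        ee N m * phs N m * ((1 + 63 * (N : ℝ) ^ (-(7 / 8) : ℝ)) * μ + 2 * L * B) := by
      intro m hm
      rw [Finset.mem_Ico] at hm
      by_cases h8 : m ^ 8 ≤ N
      · apply mul_le_mul_of_nonneg_left _
          (mul_nonneg (hee N m hm.1 hm.2).1 (phs_nonneg N m))
        have h2 := mu_comp hST2 N m hm.1 hm.2 h8 (fun k h3 h4 => (hee N k h3 h4).1)
        rw [← hμ] at h2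
        linarith
      · have h2 : phs N m = 0 := by
          unfold phs
          rw [if_neg h8]
        rw [h2]
        simp
    have h2 : ∑ m ∈ Ico 1 N, ee N m * phs N m *
        ((1 + 63 * (N : ℝ) ^ (-(7 / 8) : ℝ)) * μ + 2 * L * B) =
        μ * ((1 + 63 * (N : ℝ) ^ (-(7 / 8) : ℝ)) * μ + 2 * L * B) := by
      rw [← Finset.sum_mul]
      rw [hμ]
      rfl
    refine (Finset.sum_le_sum h1).trans ?_
    rw [h2, ← hμ]
    have h3 : (N : ℝ) ^ (-(7 / 8) : ℝ) * μ ^ 2 ≤ (16 * C) ^ 2 * (N : ℝ) ^ (15 / 8 : ℝ) := by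
      have h4 : μ ^ 2 ≤ (16 * C * N) ^ 2 := pow_le_pow_left₀ hμ0 hμN 2
      have h5 : (N : ℝ) ^ (-(7 / 8) : ℝ) * (16 * C * N) ^ 2 =
          (16 * C) ^ 2 * (N : ℝ) ^ (9 / 8 : ℝ) := by
        have h6 : (N : ℝ) ^ (-(7 / 8) : ℝ) * (N : ℝ) ^ 2 = (N : ℝ) ^ (9 / 8 : ℝ) := by
          have h7 : (N : ℝ) ^ 2 = (N : ℝ) ^ (2 : ℝ) := by
            rw [show (2 : ℝ) = ((2 : ℕ) : ℝ) by norm_num, Real.rpow_natCast]
          rw [h7, ← Real.rpow_add hN0]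
          norm_num
        rw [← h6]
        ring
      have h6 : (N : ℝ) ^ (9 / 8 : ℝ) ≤ (N : ℝ) ^ (15 / 8 : ℝ) :=
        Real.rpow_le_rpow_of_exponent_le hN1 (by norm_num)
      calc (N : ℝ) ^ (-(7 / 8) : ℝ) * μ ^ 2 ≤ (N : ℝ) ^ (-(7 / 8) : ℝ) * (16 * C * N) ^ 2 :=
            mul_le_mul_of_nonneg_left h4 (by positivity)
        _ = (16 * C) ^ 2 * (N : ℝ) ^ (9 / 8 : ℝ) := h5
        _ ≤ _ := mul_le_mul_of_nonneg_left h6 (by positivity)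
    have h4 : μ * (L * B) ≤ 16 * C * (N : ℝ) ^ (15 / 8 : ℝ) := by
      have h5 := root8 L N hL
      have h6 : (L : ℝ) * B ≤ (N : ℝ) ^ (1 / 8 : ℝ) * (N : ℝ) ^ (1 / 32 : ℝ) :=
        mul_le_mul h5 hB hB0 (by positivity)
      have h7 : μ * (L * B) ≤ 16 * C * N * ((N : ℝ) ^ (1 / 8 : ℝ) * (N : ℝ) ^ (1 / 32 : ℝ)) :=
        mul_le_mul hμN h6 (by positivity) (by positivity)
      have h8 : (N : ℝ) * ((N : ℝ) ^ (1 / 8 : ℝ) * (N : ℝ) ^ (1 / 32 : ℝ)) =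
          (N : ℝ) ^ (37 / 32 : ℝ) := by
        have h9 : (N : ℝ) * ((N : ℝ) ^ (1 / 8 : ℝ) * (N : ℝ) ^ (1 / 32 : ℝ)) =
            (N : ℝ) ^ (1 : ℝ) * ((N : ℝ) ^ (1 / 8 : ℝ) * (N : ℝ) ^ (1 / 32 : ℝ)) := by
          rw [Real.rpow_one]
        rw [h9, ← Real.rpow_add hN0, ← Real.rpow_add hN0]
        norm_num
      have h9 : (N : ℝ) ^ (37 / 32 : ℝ) ≤ (N : ℝ) ^ (15 / 8 : ℝ) :=
        Real.rpow_le_rpow_of_exponent_le hN1 (by norm_num)
      calc μ * (L * B) ≤ 16 * C * N * ((N : ℝ) ^ (1 / 8 : ℝ) * (N : ℝ) ^ (1 / 32 : ℝ)) := h7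
        _ = 16 * C * (N : ℝ) ^ (37 / 32 : ℝ) := by rw [mul_assoc, h8]
        _ ≤ _ := mul_le_mul_of_nonneg_left h9 (by positivity)
    have h5 : 0 ≤ (16 * C + 1) * (N : ℝ) ^ (15 / 8 : ℝ) := by positivity
    nlinarith

end Pool.AA
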