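import Mathlib

/-!
# Burr's conjecture up to an absolute constant for almost all trees: interface

Blocks (table `aa_blocks`); plan and proofs in `BLUEPRINT.md`. Every block proves `stmt_X : Stmt_X` (or
`stmt_X : Stmt_A → Stmt_B → Stmt_X`, the hypotheses are listed in the table) in its own file
`Pool/Agent/Work/MP_6241b7_aa/X.lean`, namespace `Pool.AA`.
-/

set_option autoImplicit false

open Finset

namespace Pool.AA

/-! ## Rooted forests = parent functions -/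

/-- `f` is the parent function of a rooted forest with vertex set `V` and set of roots `R`: it is the
identity outside `V` and on `R`, it maps `V` to `V`, and every vertex of `V` reaches `R`. -/
def IsF {n : ℕ} (V R : Finset (Fin n)) (f : Fin n → Fin n) : Prop :=
  (∀ v, v ∉ V → f v = v) ∧ (∀ v ∈ R, f v = v) ∧ (∀ v ∈ V, f v ∈ V) ∧ ∀ v ∈ V, ∃ i, f^[i] v ∈ R

open Classical in
/-- all parent functions of rooted forests on `V` with root set `R` -/
noncomputable def FF {n : ℕ} (V R : Finset (Fin n)) : Finset (Fin n → Fin n) :=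
  univ.filter (IsF V R)

open Classical in
/-- the descendants of `v` (`v` included) -/
noncomputable def Ds {n : ℕ} (f : Fin n → Fin n) (v : Fin n) : Finset (Fin n) :=
  univ.filter (fun w => ∃ i, f^[i] w = v)

/-- the additive functional with toll function `φ` of the size of the subtree -/
noncomputable def Phi {n : ℕ} (φ : ℕ → ℝ) (V : Finset (Fin n)) (r : Fin n) (f : Fin n → Fin n) : ℝ :=
  ∑ v ∈ V.erase r, φ (Ds f v).card

/-- hang the tree `g` on `M` with root `v` below the vertex `p` of the forest `h` -/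
def glue {n : ℕ} (M : Finset (Fin n)) (v : Fin n) (g h : Fin n → Fin n) (p : Fin n) :
    Fin n → Fin n :=
  fun w => if w = v then p else if w ∈ M then g w else h w

/-- `k n ^ (n - k - 1)` rooted forests -/
def Stmt_CNT : Prop := ∀ (n : ℕ) (V R : Finset (Fin n)), R ⊆ V → R.Nonempty →
  (FF V R).card * V.card = R.card * V.card ^ (V.card - R.card)

/-- decomposition at the vertex `v` with set of descendants `M` -/
def Stmt_DEC : Prop := ∀ (n : ℕ) (V M : Finset (Fin n)) (r v : Fin n), M ⊆ V → r ∈ V → r ∉ M →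
  v ∈ M → ∀ (Y : (Fin n → Fin n) → ℝ),
  (∑ f ∈ (FF V {r}).filter (fun f => Ds f v = M), Y f) =
    ∑ g ∈ FF M {v}, ∑ h ∈ FF (V \ M) {r}, ∑ p ∈ V \ M, Y (glue M v g h p)

/-- sets of descendants after glueing -/
def Stmt_DSZ : Prop := ∀ (n : ℕ) (V M : Finset (Fin n)) (r v : Fin n), M ⊆ V → r ∈ V → r ∉ M →
  v ∈ M → ∀ g ∈ FF M {v}, ∀ h ∈ FF (V \ M) {r}, ∀ p ∈ V \ M,
  Ds (glue M v g h p) v = M ∧
  (∀ u ∈ M, Ds (glue M v g h p) u ⊆ M) ∧
  (∀ u ∈ V \ M, p ∉ Ds h u → Ds (glue M v g h p) u = Ds h u) ∧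
  (∀ u ∈ V \ M, p ∈ Ds h u → Ds (glue M v g h p) u = Ds h u ∪ M)

/-- the additive functional after glueing, small subtrees only -/
def Stmt_GLU : Prop := ∀ (n : ℕ) (V M : Finset (Fin n)) (r v : Fin n), M ⊆ V → r ∈ V → r ∉ M →
  v ∈ M → ∀ g ∈ FF M {v}, ∀ h ∈ FF (V \ M) {r}, ∀ p ∈ V \ M,
  ∀ (φ : ℕ → ℝ) (L : ℕ) (B : ℝ), (∀ s, 0 ≤ φ s) → (∀ s, φ s ≤ B) → (∀ s, L < s → φ s = 0) →
  Phi φ V r (glue M v g h p) ≤ Phi φ (V \ M) r h + (M.card + L) * B

/-! ## Moments -/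

/-- `j ^ j / j!` -/
noncomputable def aa (j : ℕ) : ℝ := (j : ℝ) ^ j / (j.factorial : ℝ)

/-- expected number of vertices `≠ r` with `m` descendants in a random rooted tree with `N` vertices -/
noncomputable def ee (N m : ℕ) : ℝ := (N : ℝ) / m * (aa m * aa (N - m) / aa N)

/-- expected value of the additive functional -/
noncomputable def mu (φ : ℕ → ℝ) (N : ℕ) : ℝ := ∑ m ∈ Ico 1 N, ee N m * φ m

/-- counting: the number of (`v`, `M`, forests) by the size of `M`; for every function `ψ` of the size -/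
def Stmt_CSU : Prop := ∀ (n : ℕ) (V : Finset (Fin n)) (r : Fin n), r ∈ V → ∀ (ψ : ℕ → ℝ),
  (∑ v ∈ V.erase r, ∑ M ∈ V.powerset.filter (fun M => v ∈ M ∧ r ∉ M),
    ((FF M {v}).card : ℝ) * (FF (V \ M) {r}).card * (V \ M).card * ψ M.card) =
    (FF V {r}).card * ∑ m ∈ Ico 1 V.card, ee V.card m * ψ m

/-- first moment -/
def Stmt_MOM1 : Prop := ∀ (n : ℕ) (V : Finset (Fin n)) (r : Fin n), r ∈ V → ∀ (φ : ℕ → ℝ),
  (∑ f ∈ FF V {r}, Phi φ V r f) = (FF V {r}).card * mu φ V.card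

/-- second moment -/
def Stmt_MOM2 : Prop := ∀ (n : ℕ) (V : Finset (Fin n)) (r : Fin n), r ∈ V →
  ∀ (φ : ℕ → ℝ) (L : ℕ) (B : ℝ), (∀ s, 0 ≤ φ s) → (∀ s, φ s ≤ B) → (∀ s, L < s → φ s = 0) →
  (∑ f ∈ FF V {r}, (Phi φ V r f) ^ 2) ≤
    (FF V {r}).card * ∑ m ∈ Ico 1 V.card, ee V.card m * φ m * (mu φ (V.card - m) + 2 * L * B)

/-! ## Estimates -/

/-- Stirling bound for the expected number of vertices with `m` descendants -/
def Stmt_ST1 : Prop := ∃ C : ℝ, ∀ N m : ℕ, 1 ≤ m → m < N →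
  0 ≤ ee N m ∧
  ee N m ≤ C * N * (m : ℝ) ^ (-(3 / 2) : ℝ) * Real.sqrt ((N : ℝ) / ((N - m : ℕ) : ℝ))

/-- comparison of `N - m` and `N` -/
def Stmt_ST2 : Prop := ∀ N m m' : ℕ, 1 ≤ m' → m + m' < N →
  ee (N - m) m' ≤ ee N m' * Real.exp ((m' : ℝ) / ((N - m - m' : ℕ) : ℝ))

/-- the toll function `s ^ (1/4)` -/
noncomputable def ph (s : ℕ) : ℝ := (s : ℝ) ^ (1 / 4 : ℝ)

open Classical in
/-- toll function of the small subtrees: `s ^ 8 ≤ N` -/
noncomputable def phs (N s : ℕ) : ℝ := if s ^ 8 ≤ N then ph s else 0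

/-- toll function of the large subtrees -/
noncomputable def phl (N s : ℕ) : ℝ := ph s - phs N s

/-- sums: first moments of `ph`, of the large part, second moment of the small part -/
def Stmt_SUM : Prop := ∃ C : ℝ, 0 < C ∧ ∀ N : ℕ, 2 ≤ N →
  mu ph N ≤ C * N ∧
  mu (phl N) N ≤ C * (N : ℝ) ^ (31 / 32 : ℝ) ∧
  ∀ (L : ℕ) (B : ℝ), L ^ 8 ≤ N → 0 ≤ B → B ≤ (N : ℝ) ^ (1 / 32 : ℝ) →
    ∑ m ∈ Ico 1 N, ee N m * phs N m * (mu (phs N) (N - m) + 2 * L * B) ≤
      (mu (phs N) N) ^ 2 + C * (N : ℝ) ^ (15 / 8 : ℝ)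

open Classical in
/-- for almost all trees the additive functional is at most linear -/
def Stmt_CHE : Prop := ∃ C : ℝ, 0 < C ∧ ∀ (n : ℕ), 2 ≤ n → ∀ (r : Fin n),
  (((FF univ {r}).filter (fun f => C * n < Phi ph univ r f)).card : ℝ) ≤
    C * (n : ℝ) ^ (-(1 / 32) : ℝ) * (FF univ {r}).card

/-! ## Trees -/

/-- height of the vertex `v` in the tree `G` with root `r`: largest distance to a vertex `w` such that `v`
lies between `r` and `w` -/
noncomputable def hgt {n : ℕ} (G : SimpleGraph (Fin n)) (r v : Fin n) : ℕ :=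
  (univ.filter (fun w => G.dist r w = G.dist r v + G.dist v w)).sup (fun w => G.dist v w)

/-- trees as parent functions -/
def Stmt_TRE1 : Prop := ∀ (n : ℕ) (r : Fin n), ∃ F : SimpleGraph (Fin n) → (Fin n → Fin n),
  (∀ G, G.IsTree → F G ∈ FF univ {r} ∧ (∀ v, hgt G r v < (Ds (F G) v).card) ∧
    ∀ u v, G.Adj u v ↔ u ≠ v ∧ (F G u = v ∨ F G v = u))

open Classical in
/-- parent functions give trees -/
def Stmt_TRE2 : Prop := ∀ (n : ℕ) (r : Fin n),
  (FF univ {r}).card ≤ (univ.filter (fun G : SimpleGraph (Fin n) => G.IsTree)).card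

/-! ## Digraphs -/

/-- `D` contains `T` -/
def Cont {k n : ℕ} (T : Fin k → Fin k → Prop) (D : Fin n → Fin n → Prop) : Prop :=
  ∃ f : Fin k → Fin n, Function.Injective f ∧ ∀ x y, T x y → D (f x) (f y)

/-- the theorem of helper51 for a subtree `S'` of `T` in place of `T`: `S ⊆ S'`, every vertex of `S'` can
be joined to `S` by at most `h` steps inside `S'` -/
def Stmt_HS1 : Prop := ∀ (k h c : ℕ) (T : Fin (k + 1) → Fin (k + 1) → Prop),
  (∀ a b, T a b → ¬ T b a) → (SimpleGraph.fromRel T).IsTree →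
  ∀ (S S' : Finset (Fin (k + 1))), S ⊆ S' →
  ((SimpleGraph.fromRel T).induce (S : Set (Fin (k + 1)))).Connected →
  ((SimpleGraph.fromRel T).induce (S' : Set (Fin (k + 1)))).Connected →
  1 ≤ h →
  (∀ x ∈ S', ∃ i ≤ h, ∃ p : ℕ → Fin (k + 1), p 0 = x ∧ p i ∈ S ∧ (∀ j ≤ i, p j ∈ S') ∧
    ∀ j < i, (SimpleGraph.fromRel T).Adj (p j) (p (j + 1))) →
  (∀ (n : ℕ) (D : Fin n → Fin n → Prop), (∀ x, ¬ D x x) →
    ((c : ℕ) : ℕ∞) < (SimpleGraph.fromRel D).chromaticNumber →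
    ∃ g : Fin (k + 1) → Fin n, Set.InjOn g S ∧ ∀ x ∈ S, ∀ y ∈ S, T x y → D (g x) (g y)) →
  (∀ (n : ℕ) (D : Fin n → Fin n → Prop), (∀ x, ¬ D x x) →
    ((c + 24 * (S'.card - 1) * (Nat.log 3 h + 2) : ℕ) : ℕ∞) <
      (SimpleGraph.fromRel D).chromaticNumber →
    ∃ g : Fin (k + 1) → Fin n, Set.InjOn g S' ∧ ∀ x ∈ S', ∀ y ∈ S', T x y → D (g x) (g y))

/-- HEIGHT SUM -/
def Stmt_HS : Prop := ∀ (k n : ℕ) (D : Fin n → Fin n → Prop), (∀ x, ¬ D x x) →
  ∀ (T : Fin (k + 1) → Fin (k + 1) → Prop), (∀ a b, T a b → ¬ T b a) →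
  (SimpleGraph.fromRel T).IsTree → ∀ (r : Fin (k + 1)),
  ((72 * ∑ v ∈ univ.erase r, (1 + 2 * Nat.log 3 (hgt (SimpleGraph.fromRel T) r v)) : ℕ) : ℕ∞) <
    (SimpleGraph.fromRel D).chromaticNumber → Cont T D

open Classical in
/-- ALMOST ALL TREES: the trees `G` on `k + 1` labelled vertices such that some orientation `T` of `G` and
some loopless digraph `D` of chromatic number larger than `C k` exist for which `D` does not contain `T` -/
noncomputable def Bad (C k : ℕ) : Finset (SimpleGraph (Fin (k + 1))) :=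
  univ.filter (fun G => G.IsTree ∧ ∃ T : Fin (k + 1) → Fin (k + 1) → Prop,
    (∀ a b, T a b → ¬ T b a) ∧ SimpleGraph.fromRel T = G ∧
    ∃ (n : ℕ) (D : Fin n → Fin n → Prop), (∀ x, ¬ D x x) ∧
      ((C * k : ℕ) : ℕ∞) < (SimpleGraph.fromRel D).chromaticNumber ∧ ¬ Cont T D)

open Classical in
def Stmt_AA : Prop := ∃ C : ℕ, ∀ k : ℕ, 1 ≤ k →
  ((Bad C k).card : ℝ) ≤ C * (k : ℝ) ^ (-(1 / 32) : ℝ) *
    ((univ.filter (fun G : SimpleGraph (Fin (k + 1)) => G.IsTree)).card : ℝ)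

end Pool.AA
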