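import Mathlib
import Pool.Agent.Work.MP_6241b7_aa.Interface

/-! # Block TRE1: trees as parent functions -/

set_option autoImplicit false

open Finset

namespace Pool.AA

open SimpleGraph

/-- existence of a lower neighbour -/
lemma tre1_ex {n : ℕ} (G : SimpleGraph (Fin n)) (hG : G.IsTree) (r v : Fin n) (hv : v ≠ r) :
    ∃ w, G.Adj v w ∧ G.dist r w + 1 = G.dist r v := by
  obtain ⟨p, hp⟩ := hG.connected.exists_walk_length_eq_dist v r
  cases p with
  | nil => exact absurd rfl hv
  | @cons _ w _ h q =>
    refine ⟨w, h, ?_⟩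
    have h1 : G.dist w r ≤ q.length := dist_le q
    have h2 : G.dist v r ≤ G.dist v w + G.dist w r := hG.connected.dist_triangle
    have h3 : G.dist v w = 1 := dist_eq_one_iff_adj.mpr h
    rw [dist_comm (u := r) (v := w), dist_comm (u := r) (v := v)]
    rw [Walk.length_cons] at hp
    omega

/-- uniqueness of the lower neighbour -/
lemma tre1_uniq {n : ℕ} (G : SimpleGraph (Fin n)) (hG : G.IsTree) (r v w₁ w₂ : Fin n)
    (h₁ : G.Adj v w₁) (h₂ : G.Adj v w₂) (d₁ : G.dist r w₁ + 1 = G.dist r v)
    (d₂ : G.dist r w₂ + 1 = G.dist r v) : w₁ = w₂ := by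
  have key : ∀ w, ∀ h : G.Adj v w, G.dist r w + 1 = G.dist r v →
      ∃ p : G.Walk w r, (Walk.cons h p).IsPath := by
    intro w h d
    obtain ⟨p, hp, hl⟩ := hG.connected.exists_path_of_dist w r
    refine ⟨p, ?_⟩
    rw [Walk.cons_isPath_iff]
    refine ⟨hp, fun hmem => ?_⟩
    have h1 : G.dist v r ≤ (p.dropUntil v hmem).length := dist_le _
    have h2 : (p.dropUntil v hmem).length ≤ p.length := Walk.length_dropUntil_le_length p hmem
    rw [dist_comm (u := r) (v := w), dist_comm (u := r) (v := v)] at d
    omega
  obtain ⟨p₁, hp₁⟩ := key w₁ h₁ d₁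
  obtain ⟨p₂, hp₂⟩ := key w₂ h₂ d₂
  have := (hG.existsUnique_path v r).unique hp₁ hp₂
  have h3 := congrArg Walk.snd this
  simpa using h3

open Classical in
/-- parent function of a tree -/
noncomputable def tre1F {n : ℕ} (r : Fin n) (G : SimpleGraph (Fin n)) : Fin n → Fin n :=
  fun v => if h : G.IsTree ∧ v ≠ r then Classical.choose (tre1_ex G h.1 r v h.2) else v

lemma tre1F_spec {n : ℕ} (r : Fin n) (G : SimpleGraph (Fin n)) (hG : G.IsTree) (v : Fin n)
    (hv : v ≠ r) : G.Adj v (tre1F r G v) ∧ G.dist r (tre1F r G v) + 1 = G.dist r v := by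
  have : tre1F r G v = Classical.choose (tre1_ex G hG r v hv) := by
    unfold tre1F
    rw [dif_pos ⟨hG, hv⟩]
  rw [this]
  exact Classical.choose_spec (tre1_ex G hG r v hv)

lemma tre1F_root {n : ℕ} (r : Fin n) (G : SimpleGraph (Fin n)) : tre1F r G r = r := by
  unfold tre1F
  rw [dif_neg]
  simp

lemma tre1F_dist {n : ℕ} (r : Fin n) (G : SimpleGraph (Fin n)) (hG : G.IsTree) (v : Fin n) :
    G.dist r (tre1F r G v) = G.dist r v - 1 := by
  by_cases hv : v = r
  · subst hv
    rw [tre1F_root]
    simp
  · have := (tre1F_spec r G hG v hv).2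
    omega

lemma tre1F_iter {n : ℕ} (r : Fin n) (G : SimpleGraph (Fin n)) (hG : G.IsTree) (v : Fin n)
    (i : ℕ) : G.dist r ((tre1F r G)^[i] v) = G.dist r v - i := by
  induction i with
  | zero => simp
  | succ i ih =>
    rw [Function.iterate_succ_apply', tre1F_dist r G hG, ih]
    omega

/-- the `F`-path from `w` passes `v` when `v` lies between `r` and `w` -/
lemma tre1F_between {n : ℕ} (r : Fin n) (G : SimpleGraph (Fin n)) (hG : G.IsTree) (v : Fin n) :
    ∀ (i : ℕ) (w : Fin n), G.dist v w = i → G.dist r w = G.dist r v + G.dist v w →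
      (tre1F r G)^[i] w = v := by
  intro i
  induction i with
  | zero =>
    intro w hw _
    have := (hG.connected.dist_eq_zero_iff).mp hw
    simp [this]
  | succ i ih =>
    intro w hw hr
    have hvw : w ≠ v := by
      rintro rfl
      simp at hw
    obtain ⟨w', hadj, hd⟩ := tre1_ex G hG v w hvw
    have h1 : G.dist r w' ≤ G.dist r v + G.dist v w' := hG.connected.dist_triangle
    have h2 : G.dist r w ≤ G.dist r w' + G.dist w' w := hG.connected.dist_triangle
    have h3 : G.dist w' w = 1 := dist_eq_one_iff_adj.mpr hadj.symm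
    have hwr : w ≠ r := by
      rintro rfl
      simp at hr
      omega
    obtain ⟨hs1, hs2⟩ := tre1F_spec r G hG w hwr
    have h4 : tre1F r G w = w' := tre1_uniq G hG r w _ _ hs1 hadj hs2 (by omega)
    rw [Function.iterate_succ_apply, h4]
    exact ih w' (by omega) (by omega)

theorem stmt_TRE1 : Stmt_TRE1 := by
  intro n r
  refine ⟨tre1F r, fun G hG => ⟨?_, ?_, ?_⟩⟩
  · classical
    unfold FF
    rw [mem_filter]
    refine ⟨mem_univ _, ?_, ?_, ?_, ?_⟩
    · intro v hv
      exact absurd (mem_univ v) hv
    · intro v hv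
      rw [mem_singleton] at hv
      rw [hv]
      exact tre1F_root r G
    · intro v _
      exact mem_univ _
    · intro v _
      refine ⟨G.dist r v, ?_⟩
      rw [mem_singleton]
      have h := tre1F_iter r G hG v (G.dist r v)
      rw [Nat.sub_self] at h
      exact ((hG.connected.dist_eq_zero_iff).mp h).symm
  · intro v
    classical
    have hpos : 0 < (Ds (tre1F r G) v).card := by
      rw [card_pos]
      refine ⟨v, ?_⟩
      unfold Ds
      rw [mem_filter]
      exact ⟨mem_univ _, 0, rfl⟩
    unfold hgt
    rw [Finset.sup_lt_iff (by simpa using hpos)]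
    intro w hw
    rw [mem_filter] at hw
    have hw2 := hw.2
    set i := G.dist v w with hi
    have hcard : (range (i + 1)).card ≤ (Ds (tre1F r G) v).card := by
      refine Finset.card_le_card_of_injOn (fun j => (tre1F r G)^[j] w) ?_ ?_
      · intro j hj
        rw [coe_range, Set.mem_Iio] at hj
        unfold Ds
        rw [coe_filter]
        refine ⟨mem_univ _, i - j, ?_⟩
        rw [← Function.iterate_add_apply]
        rw [Nat.sub_add_cancel (by omega)]
        exact tre1F_between r G hG v i w hi.symm (by rw [hw2, hi])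
      · intro j hj j' hj' hjj
        rw [coe_range, Set.mem_Iio] at hj hj'
        have h1 := tre1F_iter r G hG w j
        have h2 := tre1F_iter r G hG w j'
        have h3 : G.dist r ((tre1F r G)^[j] w) = G.dist r ((tre1F r G)^[j'] w) := by
          exact congrArg (G.dist r) hjj
        omega
    rw [card_range] at hcard
    omega
  · intro u v
    constructor
    · intro h
      refine ⟨h.ne, ?_⟩
      rcases hG.dist_eq_dist_add_one_of_adj r h with h1 | h1
      · left
        have hu : u ≠ r := by
          rintro rfl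
          simp at h1
        obtain ⟨hs1, hs2⟩ := tre1F_spec r G hG u hu
        exact tre1_uniq G hG r u _ _ hs1 h hs2 (by omega)
      · right
        have hv : v ≠ r := by
          rintro rfl
          simp at h1
        obtain ⟨hs1, hs2⟩ := tre1F_spec r G hG v hv
        exact tre1_uniq G hG r v _ _ hs1 h.symm hs2 (by omega)
    · rintro ⟨hne, h | h⟩
      · have hu : u ≠ r := by
          rintro rfl
          rw [tre1F_root] at h
          exact hne h
        rw [← h]
        exact (tre1F_spec r G hG u hu).1
      · have hv : v ≠ r := by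
          rintro rfl
          rw [tre1F_root] at h
          exact hne h.symm
        rw [← h]
        exact (tre1F_spec r G hG v hv).1.symm

end Pool.AA
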