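import Pool.Agent.Work.MP_6241b7_aa.Interface

/-!
# MP_6241b7_aa, block TRE2: parent functions give trees
-/

set_option autoImplicit false

open Finset

namespace Pool.AA

namespace TRE2aux

variable {n : ℕ} {r : Fin n} {f : Fin n → Fin n}

theorem mem_FF : f ∈ FF univ {r} ↔ f r = r ∧ ∀ v, ∃ i, f^[i] v = r := by
  classical
  simp [FF, IsF]

open Classical in
noncomputable def lev (r : Fin n) (f : Fin n → Fin n) (v : Fin n) : ℕ :=
  if h : ∃ i, f^[i] v = r then Nat.find h else 0

theorem lev_r (_hf : f ∈ FF univ {r}) : lev r f r = 0 := by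
  classical
  have h : ∃ i, f^[i] r = r := ⟨0, rfl⟩
  rw [lev, dif_pos h, Nat.find_eq_zero]
  rfl

theorem lev_succ (hf : f ∈ FF univ {r}) {v : Fin n} (hv : v ≠ r) :
    lev r f v = lev r f (f v) + 1 := by
  classical
  have h1 := (mem_FF.1 hf).2 v
  have h2 := (mem_FF.1 hf).2 (f v)
  rw [lev, dif_pos h1, lev, dif_pos h2]
  rw [Nat.find_eq_iff]
  refine ⟨?_, ?_⟩
  · rw [Function.iterate_succ_apply]
    exact Nat.find_spec h2
  · intro m hm
    rcases m with _ | m
    · exact hv
    · rw [Function.iterate_succ_apply]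
      exact Nat.find_min h2 (by omega)

theorem lev_zero (hf : f ∈ FF univ {r}) {v : Fin n} (hv : lev r f v = 0) : v = r := by
  by_contra h
  rw [lev_succ hf h] at hv
  omega

def Gf (f : Fin n → Fin n) : SimpleGraph (Fin n) := SimpleGraph.fromRel (fun u v => f u = v)

theorem adj_iff {u v : Fin n} : (Gf f).Adj u v ↔ u ≠ v ∧ (f u = v ∨ f v = u) := by
  rw [Gf, SimpleGraph.fromRel_adj]

theorem fne (hf : f ∈ FF univ {r}) {v : Fin n} (hv : v ≠ r) : v ≠ f v := by
  intro h
  have h1 := lev_succ hf hv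
  rw [← h] at h1
  omega

theorem adj_f (hf : f ∈ FF univ {r}) {v : Fin n} (hv : v ≠ r) : (Gf f).Adj v (f v) :=
  adj_iff.2 ⟨fne hf hv, Or.inl rfl⟩

theorem adj_lev (hf : f ∈ FF univ {r}) {u v : Fin n} (h : (Gf f).Adj u v) :
    (f u = v ∧ lev r f u = lev r f v + 1) ∨ (f v = u ∧ lev r f v = lev r f u + 1) := by
  rw [adj_iff] at h
  rcases h with ⟨hne, h | h⟩
  · left
    refine ⟨h, ?_⟩
    have hu : u ≠ r := by
      rintro rfl
      rw [(mem_FF.1 hf).1] at h
      exact hne h
    rw [lev_succ hf hu, h]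
  · right
    refine ⟨h, ?_⟩
    have hv : v ≠ r := by
      rintro rfl
      rw [(mem_FF.1 hf).1] at h
      exact hne h.symm
    rw [lev_succ hf hv, h]

theorem reach (hf : f ∈ FF univ {r}) : ∀ d v, lev r f v = d →
    ∃ p : (Gf f).Walk v r, p.length = d := by
  intro d
  induction d with
  | zero =>
    intro v hv
    have h := lev_zero hf hv
    subst h
    exact ⟨SimpleGraph.Walk.nil, rfl⟩
  | succ d ih =>
    intro v hv
    have hvr : v ≠ r := by
      rintro rfl
      rw [lev_r hf] at hv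
      omega
    have h1 := lev_succ hf hvr
    obtain ⟨p, hp⟩ := ih (f v) (by omega)
    exact ⟨SimpleGraph.Walk.cons (adj_f hf hvr) p, by rw [SimpleGraph.Walk.length_cons, hp]⟩

theorem conn (hf : f ∈ FF univ {r}) : (Gf f).Connected := by
  have : Nonempty (Fin n) := ⟨r⟩
  refine ⟨fun u v => ?_⟩
  obtain ⟨p, -⟩ := reach hf _ u rfl
  obtain ⟨q, -⟩ := reach hf _ v rfl
  exact p.reachable.trans q.reachable.symm

theorem lev_walk (hf : f ∈ FF univ {r}) {u v : Fin n} (p : (Gf f).Walk u v) :
    lev r f u ≤ lev r f v + p.length := by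
  induction p with
  | nil => simp
  | @cons a b c h q ih =>
    rw [SimpleGraph.Walk.length_cons]
    rcases adj_lev hf h with ⟨-, h1⟩ | ⟨-, h1⟩ <;> omega

theorem lev_dist (hf : f ∈ FF univ {r}) (v : Fin n) : lev r f v = (Gf f).dist v r := by
  refine le_antisymm ?_ ?_
  · obtain ⟨p, hp⟩ := (conn hf).exists_walk_length_eq_dist v r
    have h1 := lev_walk hf p
    rw [lev_r hf] at h1
    omega
  · obtain ⟨p, hp⟩ := reach hf _ v rfl
    rw [← hp]
    exact SimpleGraph.dist_le p

theorem tree (hf : f ∈ FF univ {r}) : (Gf f).IsTree := by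
  classical
  rw [SimpleGraph.isTree_iff_connected_and_card]
  refine ⟨conn hf, ?_⟩
  have h1 : (Gf f).edgeSet ⊆ ((univ.erase r).image (fun v => s(v, f v)) : Finset (Sym2 (Fin n))) := by
    intro e he
    induction e using Sym2.ind with
    | _ u v =>
      rw [SimpleGraph.mem_edgeSet, adj_iff] at he
      rw [coe_image, Set.mem_image]
      rcases he with ⟨hne, h | h⟩
      · refine ⟨u, ?_, by rw [h]⟩
        rw [mem_coe, mem_erase]
        refine ⟨?_, mem_univ _⟩
        rintro rfl
        rw [(mem_FF.1 hf).1] at h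
        exact hne h
      · refine ⟨v, ?_, by rw [h, Sym2.eq_swap]⟩
        rw [mem_coe, mem_erase]
        refine ⟨?_, mem_univ _⟩
        rintro rfl
        rw [(mem_FF.1 hf).1] at h
        exact hne h.symm
  have h2 : Nat.card (Gf f).edgeSet ≤ n - 1 := by
    have h3 : Nat.card (Gf f).edgeSet = ((Gf f).edgeSet).ncard := rfl
    rw [h3]
    refine (Set.ncard_le_ncard h1 (Finset.finite_toSet _)).trans ?_
    rw [Set.ncard_coe_finset]
    refine card_image_le.trans ?_
    rw [card_erase_of_mem (mem_univ _), card_univ, Fintype.card_fin]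
  have h4 := (conn hf).card_vert_le_card_edgeSet_add_one
  have h5 : Nat.card (Fin n) = n := by simp
  have h6 : 0 < n := Fin.pos r
  rw [h5] at h4 ⊢
  omega

theorem inj {f' : Fin n → Fin n} (hf : f ∈ FF univ {r}) (hf' : f' ∈ FF univ {r})
    (h : Gf f = Gf f') : f = f' := by
  funext v
  by_cases hv : v = r
  · rw [hv, (mem_FF.1 hf).1, (mem_FF.1 hf').1]
  · have h1 := adj_f hf' hv
    rw [← h] at h1
    rcases adj_lev hf h1 with ⟨h2, -⟩ | ⟨-, h2⟩
    · exact h2
    · exfalso
      have h3 := lev_succ hf' hv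
      rw [lev_dist hf', lev_dist hf', ← h, ← lev_dist hf, ← lev_dist hf] at h3
      omega

end TRE2aux

open TRE2aux in
theorem stmt_TRE2 : Stmt_TRE2 := by
  classical
  intro n r
  refine card_le_card_of_injOn Gf ?_ ?_
  · intro f hf
    rw [mem_coe, mem_filter]
    exact ⟨mem_univ _, tree (mem_coe.1 hf)⟩
  · intro f hf f' hf' h
    exact inj (mem_coe.1 hf) (mem_coe.1 hf') h

end Pool.AA
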