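import Pool.Agent.Work.MP_6241b7_aa.CNT
import Pool.Agent.Work.MP_6241b7_aa.CSU
import Pool.Agent.Work.MP_6241b7_aa.DSZ
import Pool.Agent.Work.MP_6241b7_aa.DEC
import Pool.Agent.Work.MP_6241b7_aa.GLU
import Pool.Agent.Work.MP_6241b7_aa.MOM1
import Pool.Agent.Work.MP_6241b7_aa.MOM2
import Pool.Agent.Work.MP_6241b7_aa.ST1
import Pool.Agent.Work.MP_6241b7_aa.ST2
import Pool.Agent.Work.MP_6241b7_aa.SUM
import Pool.Agent.Work.MP_6241b7_aa.CHE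
import Pool.Agent.Work.MP_6241b7_aa.TRE1
import Pool.Agent.Work.MP_6241b7_aa.TRE2
import Pool.Agent.Work.MP_6241b7_aa.HS1
import Pool.Agent.Work.MP_6241b7_aa.HS
import Pool.Agent.Work.MP_6241b7_aa.FIN

/-!
# MP_6241b7_aa: assembly
-/

set_option autoImplicit false

namespace Pool.AA

theorem stmt_AA : Stmt_AA := by
  have hCSU : Stmt_CSU := stmt_CSU stmt_CNT
  have hDEC : Stmt_DEC := stmt_DEC stmt_DSZ
  have hGLU : Stmt_GLU := stmt_GLU stmt_DSZ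
  have hM1 : Stmt_MOM1 := stmt_MOM1 hCSU hDEC
  have hM2 : Stmt_MOM2 := stmt_MOM2 hCSU hDEC hGLU hM1
  exact stmt_FIN (stmt_CHE hM1 hM2 (stmt_SUM stmt_ST1 stmt_ST2)) stmt_TRE1 stmt_TRE2
    (stmt_HS stmt_HS1)

end Pool.AA
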