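import Pool.Agent.Work.MP_6241b7_aa.Interface

/-! CHE: for almost all trees the additive functional is at most linear. -/

set_option autoImplicit false

open Finset

namespace Pool.AA

namespace CHE

theorem ee_nonneg (N m : ℕ) : 0 ≤ ee N m := by
  unfold ee aa
  positivity

theorem ph_nonneg (s : ℕ) : 0 ≤ ph s := by
  unfold ph
  positivity

theorem phs_nonneg (N s : ℕ) : 0 ≤ phs N s := by
  unfold phs
  split_ifs
  · exact ph_nonneg s
  · exact le_rfl

theorem phs_le (N s : ℕ) : phs N s ≤ ph s := by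
  unfold phs
  split_ifs
  · exact le_rfl
  · exact ph_nonneg s

theorem phl_nonneg (N s : ℕ) : 0 ≤ phl N s := sub_nonneg.mpr (phs_le N s)

theorem Phi_nonneg {n : ℕ} (φ : ℕ → ℝ) (hφ : ∀ s, 0 ≤ φ s) (V : Finset (Fin n)) (r : Fin n)
    (f : Fin n → Fin n) : 0 ≤ Phi φ V r f :=
  Finset.sum_nonneg fun _ _ => hφ _

theorem Phi_split {n : ℕ} (V : Finset (Fin n)) (r : Fin n) (f : Fin n → Fin n) (N : ℕ) :
    Phi ph V r f = Phi (phs N) V r f + Phi (phl N) V r f := by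
  unfold Phi
  rw [← Finset.sum_add_distrib]
  refine Finset.sum_congr rfl fun v _ => ?_
  unfold phl
  ring

theorem mu_mono {φ ψ : ℕ → ℝ} (h : ∀ s, φ s ≤ ψ s) (N : ℕ) : mu φ N ≤ mu ψ N :=
  Finset.sum_le_sum fun m _ => mul_le_mul_of_nonneg_left (h m) (ee_nonneg N m)

/-- Markov -/
theorem markov {α : Type} [DecidableEq α] (F : Finset α) (X : α → ℝ) (hX : ∀ f ∈ F, 0 ≤ X f)
    (t S : ℝ) (ht : 0 < t) (hS : ∑ f ∈ F, X f ≤ S) :
    ((F.filter (fun f => t < X f)).card : ℝ) ≤ S / t := by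
  rw [le_div_iff₀ ht]
  calc ((F.filter (fun f => t < X f)).card : ℝ) * t = ∑ f ∈ F.filter (fun f => t < X f), t := by
        rw [Finset.sum_const, nsmul_eq_mul]
    _ ≤ ∑ f ∈ F.filter (fun f => t < X f), X f :=
        Finset.sum_le_sum fun f hf => (Finset.mem_filter.mp hf).2.le
    _ ≤ ∑ f ∈ F, X f :=
        Finset.sum_le_sum_of_subset_of_nonneg (Finset.filter_subset _ _) fun f hf _ => hX f hf
    _ ≤ S := hS

end CHE

open CHE in
theorem stmt_CHE : Stmt_MOM1 → Stmt_MOM2 → Stmt_SUM → Stmt_CHE := by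
  classical
  intro hM1 hM2 hSum
  obtain ⟨C₀, hC₀, hC⟩ := hSum
  refine ⟨2 * C₀ + 2, by linarith, ?_⟩
  intro n hn r
  obtain ⟨h1, h2, h3⟩ := hC n hn
  have hn0 : (0 : ℝ) < n := by exact_mod_cast (by omega : 0 < n)
  have hn1 : (1 : ℝ) ≤ n := by exact_mod_cast (by omega : 1 ≤ n)
  set F := FF (univ : Finset (Fin n)) {r} with hF
  have hcard : (univ : Finset (Fin n)).card = n := by simp
  set M := mu (phs n) n with hM
  have hMle : M ≤ C₀ * n := (mu_mono (phs_le n) n).trans h1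
  -- the large part
  have hl : ((F.filter (fun f => (n : ℝ) < Phi (phl n) univ r f)).card : ℝ) ≤
      (F.card * (C₀ * (n : ℝ) ^ (31 / 32 : ℝ))) / n := by
    refine markov F _ (fun f _ => Phi_nonneg _ (phl_nonneg n) _ _ _) _ _ hn0 ?_
    rw [hM1 n univ r (mem_univ r) (phl n), hcard]
    exact mul_le_mul_of_nonneg_left h2 (by positivity)
  -- the small part
  obtain ⟨L, hL, hL'⟩ : ∃ L : ℕ, L ^ 8 ≤ n ∧ ∀ s, L < s → ¬ s ^ 8 ≤ n := by
    refine ⟨Nat.findGreatest (fun L => L ^ 8 ≤ n) n, ?_, ?_⟩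
    · exact Nat.findGreatest_spec (P := fun L => L ^ 8 ≤ n) (Nat.zero_le n) (by simp)
    · intro s hs hs'
      have hsn : s ≤ n := (Nat.le_self_pow (by norm_num) s).trans hs'
      exact absurd (Nat.le_findGreatest hsn hs') (not_le.mpr hs)
  have hs : ((F.filter (fun f => (n : ℝ) ^ 2 < (Phi (phs n) univ r f - M) ^ 2)).card : ℝ) ≤
      (F.card * (C₀ * (n : ℝ) ^ (15 / 8 : ℝ))) / (n : ℝ) ^ 2 := by
    refine markov F (fun f => (Phi (phs n) univ r f - M) ^ 2) (fun f _ => sq_nonneg _) _ _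
      (by positivity) ?_
    have hB : ∀ s, phs n s ≤ (n : ℝ) ^ (1 / 32 : ℝ) := by
      intro s
      unfold phs
      split_ifs with hs8
      · unfold ph
        have hs8' : (s : ℝ) ^ (8 : ℕ) ≤ n := by exact_mod_cast hs8
        have e1 : (s : ℝ) ^ (1 / 4 : ℝ) = ((s : ℝ) ^ (8 : ℕ)) ^ (1 / 32 : ℝ) := by
          rw [← Real.rpow_natCast, ← Real.rpow_mul (Nat.cast_nonneg s)]
          norm_num
        rw [e1]
        exact Real.rpow_le_rpow (by positivity) hs8' (by norm_num)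
      · positivity
    have hm2 := hM2 n univ r (mem_univ r) (phs n) L ((n : ℝ) ^ (1 / 32 : ℝ)) (phs_nonneg n) hB
      (fun s hs => by unfold phs; rw [if_neg (hL' s hs)])
    have hm1 := hM1 n univ r (mem_univ r) (phs n)
    rw [hcard] at hm1 hm2
    have h4 := h3 L ((n : ℝ) ^ (1 / 32 : ℝ)) hL (by positivity) le_rfl
    have h5 : ∑ f ∈ F, (Phi (phs n) univ r f) ^ 2 ≤
        F.card * (M ^ 2 + C₀ * (n : ℝ) ^ (15 / 8 : ℝ)) :=
      hm2.trans (mul_le_mul_of_nonneg_left h4 (by positivity))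
    have h6 : ∑ f ∈ F, (Phi (phs n) univ r f - M) ^ 2 =
        ∑ f ∈ F, (Phi (phs n) univ r f) ^ 2 - 2 * M * ∑ f ∈ F, Phi (phs n) univ r f
          + F.card * M ^ 2 := by
      rw [Finset.mul_sum, ← Finset.sum_sub_distrib, ← nsmul_eq_mul, ← Finset.sum_const,
        ← Finset.sum_add_distrib]
      refine Finset.sum_congr rfl fun f _ => ?_
      ring
    rw [h6, hm1]
    linarith
  -- powers
  have hp1 : (n : ℝ) ^ (31 / 32 : ℝ) / n = (n : ℝ) ^ (-(1 / 32) : ℝ) := by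
    rw [div_eq_iff hn0.ne']
    conv_rhs => rw [← Real.rpow_one (n : ℝ), ← Real.rpow_mul hn0.le]
    rw [← Real.rpow_add hn0]
    norm_num
  have hp2 : (n : ℝ) ^ (15 / 8 : ℝ) / (n : ℝ) ^ 2 ≤ (n : ℝ) ^ (-(1 / 32) : ℝ) := by
    rw [← Real.rpow_natCast, ← Real.rpow_sub hn0]
    exact Real.rpow_le_rpow_of_exponent_le hn1 (by norm_num)
  have hsub : F.filter (fun f => (2 * C₀ + 2) * n < Phi ph univ r f) ⊆
      F.filter (fun f => (n : ℝ) < Phi (phl n) univ r f) ∪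
      F.filter (fun f => (n : ℝ) ^ 2 < (Phi (phs n) univ r f - M) ^ 2) := by
    intro f hf
    rw [Finset.mem_filter] at hf
    rw [Finset.mem_union, Finset.mem_filter, Finset.mem_filter]
    by_contra hcon
    push Not at hcon
    have c1 := hcon.1 hf.1
    have c2 := hcon.2 hf.1
    have c3 : Phi (phs n) univ r f - M ≤ n := by
      have := abs_le_of_sq_le_sq' c2 hn0.le
      exact this.2
    have c4 := Phi_split univ r f n
    have c5 := hf.2
    nlinarith [mul_pos hC₀ hn0]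
  have hfin : ((F.filter (fun f => (2 * C₀ + 2) * n < Phi ph univ r f)).card : ℝ) ≤
      (F.card * (C₀ * (n : ℝ) ^ (31 / 32 : ℝ))) / n +
      (F.card * (C₀ * (n : ℝ) ^ (15 / 8 : ℝ))) / (n : ℝ) ^ 2 := by
    have h7 := (Finset.card_le_card hsub).trans (Finset.card_union_le _ _)
    have h8 : ((F.filter (fun f => (2 * C₀ + 2) * n < Phi ph univ r f)).card : ℝ) ≤
        ((F.filter (fun f => (n : ℝ) < Phi (phl n) univ r f)).card : ℝ) +
        ((F.filter (fun f => (n : ℝ) ^ 2 < (Phi (phs n) univ r f - M) ^ 2)).card : ℝ) := by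
      exact_mod_cast h7
    linarith
  have hFc : (0 : ℝ) ≤ F.card := by positivity
  have e1 : (F.card * (C₀ * (n : ℝ) ^ (31 / 32 : ℝ))) / n =
      F.card * C₀ * (n : ℝ) ^ (-(1 / 32) : ℝ) := by
    rw [← hp1]; ring
  have e2 : (F.card * (C₀ * (n : ℝ) ^ (15 / 8 : ℝ))) / (n : ℝ) ^ 2 ≤
      F.card * C₀ * (n : ℝ) ^ (-(1 / 32) : ℝ) := by
    have : (F.card * (C₀ * (n : ℝ) ^ (15 / 8 : ℝ))) / (n : ℝ) ^ 2 =
        F.card * C₀ * ((n : ℝ) ^ (15 / 8 : ℝ) / (n : ℝ) ^ 2) := by ring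
    rw [this]
    exact mul_le_mul_of_nonneg_left hp2 (by positivity)
  have hpow : (0 : ℝ) ≤ (n : ℝ) ^ (-(1 / 32) : ℝ) := by positivity
  have h9 : (0 : ℝ) ≤ F.card * (n : ℝ) ^ (-(1 / 32) : ℝ) := by positivity
  calc ((F.filter (fun f => (2 * C₀ + 2) * n < Phi ph univ r f)).card : ℝ)
      ≤ F.card * C₀ * (n : ℝ) ^ (-(1 / 32) : ℝ) + F.card * C₀ * (n : ℝ) ^ (-(1 / 32) : ℝ) := by
        linarith
    _ ≤ (2 * C₀ + 2) * (n : ℝ) ^ (-(1 / 32) : ℝ) * F.card := by nlinarith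

end Pool.AA
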