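import Pool.Agent.Work.MP_6241b7_aa.Interface

set_option autoImplicit false

open Finset

namespace Pool.AA

open Classical in
/-- the vertices outside the roots whose parent is a root -/
noncomputable def JJ {n : ℕ} (V R : Finset (Fin n)) (f : Fin n → Fin n) : Finset (Fin n) :=
  (V \ R).filter (fun v => f v ∈ R)

/-- restriction to the vertices which are not roots -/
theorem restr_mem {n : ℕ} (V R : Finset (Fin n)) (f : Fin n → Fin n) (hf : IsF V R f) :
    IsF (V \ R) (JJ V R f) (fun w => if f w ∈ R then w else f w) := by
  classical
  obtain ⟨h1, h2, h3, h4⟩ := hf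
  refine ⟨?_, ?_, ?_, ?_⟩
  · intro w hw
    show (if f w ∈ R then w else f w) = w
    by_cases hV : w ∈ V
    · have hR : w ∈ R := by
        by_contra hc
        exact hw (Finset.mem_sdiff.2 ⟨hV, hc⟩)
      rw [h2 w hR]; simp
    · rw [h1 w hV]; simp
  · intro w hw
    have : f w ∈ R := by
      simp only [JJ, Finset.mem_filter] at hw
      exact hw.2
    simp [this]
  · intro w hw
    show (if f w ∈ R then w else f w) ∈ V \ R
    by_cases hR : f w ∈ R
    · simp only [hR, if_true]; exact hw
    · simp only [hR, if_false]
      exact Finset.mem_sdiff.2 ⟨h3 w (Finset.mem_sdiff.1 hw).1, hR⟩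
  · have key : ∀ (i : ℕ) (w : Fin n), w ∈ V \ R → f^[i] w ∈ R →
        ∃ j, (fun w => if f w ∈ R then w else f w)^[j] w ∈ JJ V R f := by
      intro i
      induction i with
      | zero => intro w hw hR; exact absurd hR (Finset.mem_sdiff.1 hw).2
      | succ i ih =>
        intro w hw hR
        rw [Function.iterate_succ_apply] at hR
        by_cases hfw : f w ∈ R
        · exact ⟨0, by simp only [Function.iterate_zero, id, JJ, Finset.mem_filter]; exact ⟨hw, hfw⟩⟩
        · obtain ⟨j, hj⟩ := ih (f w) (Finset.mem_sdiff.2 ⟨h3 w (Finset.mem_sdiff.1 hw).1, hfw⟩) hR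
          refine ⟨j + 1, ?_⟩
          rw [Function.iterate_succ_apply]
          simpa only [hfw, if_false] using hj
    intro w hw
    obtain ⟨i, hi⟩ := h4 w (Finset.mem_sdiff.1 hw).1
    exact key i w hw hi

theorem ext_mem {n : ℕ} (V R J : Finset (Fin n)) (hRV : R ⊆ V) (hJ : J ⊆ V \ R)
    (f' t : Fin n → Fin n) (hf : IsF (V \ R) J f') (ht : ∀ w ∈ J, t w ∈ R) :
    IsF V R (fun w => if w ∈ J then t w else f' w) ∧
    JJ V R (fun w => if w ∈ J then t w else f' w) = J := by
  classical
  obtain ⟨h1, h2, h3, h4⟩ := hf
  have hJV : ∀ w ∈ J, w ∈ V ∧ w ∉ R := fun w hw => Finset.mem_sdiff.1 (hJ hw)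
  have hR : ∀ w ∈ R, w ∉ J ∧ f' w = w := by
    intro w hw
    exact ⟨fun hc => (hJV w hc).2 hw, h1 w (fun hc => (Finset.mem_sdiff.1 hc).2 hw)⟩
  refine ⟨⟨?_, ?_, ?_, ?_⟩, ?_⟩
  · intro w hw
    have hwJ : w ∉ J := fun hc => hw (hJV w hc).1
    show (if w ∈ J then t w else f' w) = w
    simp only [hwJ, if_false]
    exact h1 w (fun hc => hw (Finset.mem_sdiff.1 hc).1)
  · intro w hw
    show (if w ∈ J then t w else f' w) = w
    simp only [(hR w hw).1, if_false]
    exact (hR w hw).2
  · intro w hw
    show (if w ∈ J then t w else f' w) ∈ V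
    by_cases hwJ : w ∈ J
    · simp only [hwJ, if_true]; exact hRV (ht w hwJ)
    · simp only [hwJ, if_false]
      by_cases hwR : w ∈ R
      · rw [(hR w hwR).2]; exact hw
      · exact (Finset.mem_sdiff.1 (h3 w (Finset.mem_sdiff.2 ⟨hw, hwR⟩))).1
  · have key : ∀ (j : ℕ) (w : Fin n), w ∈ V \ R → f'^[j] w ∈ J →
        ∃ i, (fun w => if w ∈ J then t w else f' w)^[i] w ∈ R := by
      intro j
      induction j with
      | zero =>
        intro w hw hJw
        refine ⟨1, ?_⟩
        simp only [Function.iterate_zero, id] at hJw
        simp only [Function.iterate_one, hJw, if_true]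
        exact ht w hJw
      | succ j ih =>
        intro w hw hJw
        rw [Function.iterate_succ_apply] at hJw
        by_cases hwJ : w ∈ J
        · refine ⟨1, ?_⟩
          simp only [Function.iterate_one, hwJ, if_true]
          exact ht w hwJ
        · obtain ⟨i, hi⟩ := ih (f' w) (h3 w hw) hJw
          refine ⟨i + 1, ?_⟩
          rw [Function.iterate_succ_apply]
          simpa only [hwJ, if_false] using hi
    intro w hw
    by_cases hwR : w ∈ R
    · exact ⟨0, hwR⟩
    · have hw' := Finset.mem_sdiff.2 ⟨hw, hwR⟩
      obtain ⟨j, hj⟩ := h4 w hw'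
      exact key j w hw' hj
  · ext w
    simp only [JJ, Finset.mem_filter]
    constructor
    · rintro ⟨hw, hwR⟩
      by_contra hwJ
      simp only [hwJ, if_false] at hwR
      exact (Finset.mem_sdiff.1 (h3 w hw)).2 hwR
    · intro hw
      refine ⟨hJ hw, ?_⟩
      simp only [hw, if_true]
      exact ht w hw

/-- the number of forests with a given set of children of the roots -/
theorem card_fiber {n : ℕ} (V R J : Finset (Fin n)) (hRV : R ⊆ V) (hJ : J ⊆ V \ R) :
    ((FF V R).filter (fun f => JJ V R f = J)).card = (FF (V \ R) J).card * R.card ^ J.card := by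
  classical
  have hcard : (Fintype.piFinset (fun w : Fin n => if w ∈ J then R else {w})).card =
      R.card ^ J.card := by
    rw [Fintype.card_piFinset]
    have : ∀ w : Fin n, (if w ∈ J then R else {w}).card = if w ∈ J then R.card else 1 := by
      intro w
      by_cases h : w ∈ J <;> simp [h]
    simp only [this]
    rw [Finset.prod_ite_mem, Finset.univ_inter, Finset.prod_const]
  rw [← hcard, ← Finset.card_product]
  refine Finset.card_bij' (fun f _ => ((fun w => if f w ∈ R then w else f w),
      (fun w => if w ∈ J then f w else w)))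
    (fun q _ => (fun w => if w ∈ J then q.2 w else q.1 w)) ?_ ?_ ?_ ?_
  · intro f hf
    simp only [Finset.mem_filter, FF, Finset.mem_univ, true_and] at hf
    obtain ⟨hf, hfJ⟩ := hf
    have h1 := restr_mem V R f hf
    rw [hfJ] at h1
    simp only [Finset.mem_product, FF, Finset.mem_filter, Finset.mem_univ, true_and,
      Fintype.mem_piFinset]
    refine ⟨h1, ?_⟩
    intro w
    by_cases hw : w ∈ J
    · simp only [hw, if_true]
      rw [← hfJ] at hw
      simp only [JJ, Finset.mem_filter] at hw
      exact hw.2
    · simp [hw]
  · intro q hq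
    simp only [Finset.mem_product, FF, Finset.mem_filter, Finset.mem_univ, true_and,
      Fintype.mem_piFinset] at hq
    obtain ⟨hq1, hq2⟩ := hq
    have ht : ∀ w ∈ J, q.2 w ∈ R := by
      intro w hw
      have := hq2 w
      simpa only [hw, if_true] using this
    have := ext_mem V R J hRV hJ q.1 q.2 hq1 ht
    simp only [Finset.mem_filter, FF, Finset.mem_univ, true_and]
    exact this
  · intro f hf
    simp only [Finset.mem_filter, FF, Finset.mem_univ, true_and] at hf
    obtain ⟨hf, hfJ⟩ := hf
    funext w
    by_cases hw : w ∈ J
    · simp [hw]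
    · simp only [hw, if_false]
      by_cases hR : f w ∈ R
      · -- then `w` is a root
        simp only [hR, if_true]
        by_cases hwV : w ∈ V
        · by_cases hwR : w ∈ R
          · exact (hf.2.1 w hwR).symm
          · exfalso
            apply hw
            rw [← hfJ]
            simp only [JJ, Finset.mem_filter]
            exact ⟨Finset.mem_sdiff.2 ⟨hwV, hwR⟩, hR⟩
        · exact (hf.1 w hwV).symm
      · simp [hR]
  · intro q hq
    simp only [Finset.mem_product, FF, Finset.mem_filter, Finset.mem_univ, true_and,
      Fintype.mem_piFinset] at hq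
    obtain ⟨hq1, hq2⟩ := hq
    have ht : ∀ w ∈ J, q.2 w ∈ R := by
      intro w hw
      have := hq2 w
      simpa only [hw, if_true] using this
    apply Prod.ext
    · funext w
      show (if (if w ∈ J then q.2 w else q.1 w) ∈ R then w else (if w ∈ J then q.2 w else q.1 w)) =
        q.1 w
      by_cases hw : w ∈ J
      · simp only [hw, if_true, ht w hw]
        exact (hq1.2.1 w hw).symm
      · simp only [hw, if_false]
        by_cases hR : q.1 w ∈ R
        · simp only [hR, if_true]
          by_cases hwV : w ∈ V \ R
          · exact absurd hR (Finset.mem_sdiff.1 (hq1.2.2.1 w hwV)).2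
          · exact (hq1.1 w hwV).symm
        · simp [hR]
    · funext w
      show (if w ∈ J then (if w ∈ J then q.2 w else q.1 w) else w) = q.2 w
      by_cases hw : w ∈ J
      · simp [hw]
      · have := hq2 w
        simp only [hw, if_false, Finset.mem_singleton] at this
        simp [hw, this]

theorem card_FF_sum {n : ℕ} (V R : Finset (Fin n)) (hRV : R ⊆ V) :
    (FF V R).card = ∑ J ∈ (V \ R).powerset, (FF (V \ R) J).card * R.card ^ J.card := by
  classical
  rw [Finset.card_eq_sum_card_fiberwise (f := JJ V R) (t := (V \ R).powerset)]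
  · refine Finset.sum_congr rfl ?_
    intro J hJ
    exact card_fiber V R J hRV (Finset.mem_powerset.1 hJ)
  · intro f hf
    have : JJ V R f ⊆ V \ R := by
      intro w hw
      simp only [JJ, Finset.mem_filter] at hw
      exact hw.1
    simp only [Finset.coe_powerset, Set.mem_preimage, Set.mem_powerset_iff]
    exact_mod_cast this

theorem sum_choose (k m : ℕ) :
    ∑ j ∈ range (m + 2), ((m + 1).choose j) * (j * k ^ j * (m + 1) ^ (m + 1 - j)) =
      (m + 1) * (k * (k + (m + 1)) ^ m) := by
  rw [Finset.sum_range_succ']
  simp only [Nat.choose_zero_right, zero_mul, mul_zero, add_zero]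
  rw [add_pow, Finset.mul_sum, Finset.mul_sum]
  refine Finset.sum_congr rfl ?_
  intro j hj
  have h := Nat.add_one_mul_choose_eq m j
  have hsub : m + 1 - (j + 1) = m - j := by omega
  rw [hsub]
  have h' : (m + 1).choose (j + 1) * (j + 1) = (m + 1) * m.choose j := by
    simpa [Nat.succ_eq_add_one] using h.symm
  calc (m + 1).choose (j + 1) * ((j + 1) * k ^ (j + 1) * (m + 1) ^ (m - j))
      = ((m + 1).choose (j + 1) * (j + 1)) * (k ^ (j + 1) * (m + 1) ^ (m - j)) := by ring
    _ = ((m + 1) * m.choose j) * (k ^ (j + 1) * (m + 1) ^ (m - j)) := by rw [h']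
    _ = (m + 1) * (k * (k ^ j * (m + 1) ^ (m - j) * m.choose j)) := by ring

/-- `k n ^ (n - k - 1)` rooted forests -/
theorem stmt_CNT : Stmt_CNT := by
  classical
  have main : ∀ (d n : ℕ) (V R : Finset (Fin n)), (V \ R).card = d → R ⊆ V → R.Nonempty →
      (FF V R).card * V.card = R.card * V.card ^ d := by
    intro d
    induction d using Nat.strong_induction_on with
    | _ d ih =>
      intro n V R hd hRV hR
      have hVc : V.card = R.card + d := by
        have := Finset.card_sdiff_add_card_eq_card hRV
        omega
      rcases Nat.eq_zero_or_pos d with hd0 | hdpos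
      · -- only the identity
        subst hd0
        have hVR : V \ R = ∅ := Finset.card_eq_zero.1 hd
        have hVR' : V = R := Finset.Subset.antisymm (Finset.sdiff_eq_empty_iff_subset.1 hVR) hRV
        subst hVR'
        have : FF V V = {id} := by
          ext f
          simp only [FF, Finset.mem_filter, Finset.mem_univ, true_and, Finset.mem_singleton]
          constructor
          · rintro ⟨h1, h2, _, _⟩
            funext w
            by_cases hw : w ∈ V
            · exact h2 w hw
            · exact h1 w hw
          · rintro rfl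
            exact ⟨fun _ _ => rfl, fun _ _ => rfl, fun _ h => h, fun v h => ⟨0, h⟩⟩
        rw [this]; simp
      · obtain ⟨m, rfl⟩ : ∃ m, d = m + 1 := ⟨d - 1, by omega⟩
        have hterm : ∀ J ∈ (V \ R).powerset, (FF (V \ R) J).card * R.card ^ J.card * (m + 1) =
            (fun j => j * R.card ^ j * (m + 1) ^ (m + 1 - j)) J.card := by
          intro J hJ
          have hJ' : J ⊆ V \ R := Finset.mem_powerset.1 hJ
          rcases J.eq_empty_or_nonempty with hJe | hJn
          · subst hJe
            have : FF (V \ R) ∅ = ∅ := by
              rw [Finset.eq_empty_iff_forall_notMem]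
              intro f hf
              simp only [FF, Finset.mem_filter, Finset.mem_univ, true_and] at hf
              have hne : (V \ R).Nonempty := by
                rw [← Finset.card_pos, hd]; omega
              obtain ⟨w, hw⟩ := hne
              obtain ⟨i, hi⟩ := hf.2.2.2 w hw
              simp at hi
            rw [this]; simp
          · have hJc : ((V \ R) \ J).card = m + 1 - J.card := by
              rw [Finset.card_sdiff_of_subset hJ', hd]
            have hJle : J.card ≤ m + 1 := by rw [← hd]; exact Finset.card_le_card hJ'
            have hJpos : 0 < J.card := hJn.card_pos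
            have := ih (m + 1 - J.card) (by omega) n (V \ R) J hJc hJ' hJn
            rw [hd] at this
            show (FF (V \ R) J).card * R.card ^ J.card * (m + 1) =
              J.card * R.card ^ J.card * (m + 1) ^ (m + 1 - J.card)
            calc (FF (V \ R) J).card * R.card ^ J.card * (m + 1)
                = ((FF (V \ R) J).card * (m + 1)) * R.card ^ J.card := by ring
              _ = (J.card * (m + 1) ^ (m + 1 - J.card)) * R.card ^ J.card := by rw [this]
              _ = _ := by ring
        have h1 : (FF V R).card * (m + 1) = (m + 1) * (R.card * (R.card + (m + 1)) ^ m) := by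
          rw [card_FF_sum V R hRV, Finset.sum_mul, Finset.sum_congr rfl hterm,
            Finset.sum_powerset_apply_card (f := fun j => j * R.card ^ j * (m + 1) ^ (m + 1 - j)), hd]
          simp only [smul_eq_mul]
          exact sum_choose R.card m
        have h2 : (FF V R).card = R.card * V.card ^ m := by
          rw [hVc]
          have : (m + 1) * (FF V R).card = (m + 1) * (R.card * (R.card + (m + 1)) ^ m) := by
            rw [mul_comm]; exact h1
          exact Nat.eq_of_mul_eq_mul_left (by omega) this
        rw [h2, pow_succ]; ring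
  intro n V R hRV hR
  have hc : (V \ R).card = V.card - R.card := Finset.card_sdiff_of_subset hRV
  exact main (V.card - R.card) n V R hc hRV hR

end Pool.AA
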