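import Pool.Agent.Work.MP_6241b7_aa.HSR
import Pool.Agent.Work.MP_6241b7_aa.HS
import Pool.Agent.Work.MP_6241b7_aa.HS1

/-!
# MP_6241b7_aa: final deterministic statements
-/

set_option autoImplicit false

open Finset

namespace Pool.AA

namespace HSFaux

open HSaux HSRaux

theorem th_strict : StrictMono th := by
  refine strictMono_nat_of_lt_succ fun j => ?_
  rcases j with _ | j
  · simp [th]
  · simp only [th]
    exact Nat.pow_lt_pow_right (by norm_num) (Nat.pow_lt_pow_right (by norm_num) (by omega))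

theorem log_diff (j : ℕ) : Nat.log 3 (th (j + 1) - th j) ≤ 2 ^ j := by
  rw [← log_th j]
  exact Nat.log_mono_right (Nat.sub_le _ _)

theorem hgtTo_lt {k : ℕ} {G : SimpleGraph (Fin (k + 1))} {P : Finset (Fin (k + 1))} {h : ℕ}
    (hG : G.Connected)
    (hP : P.Nonempty)
    (hh : ∀ x, ∃ s ∈ P, G.dist s x ≤ h) {v : Fin (k + 1)} (hv : v ∉ P) : hgtTo G P v < h := by
  have hne : (univ.filter (fun w => distTo G P w = distTo G P v + G.dist v w)).Nonempty :=
    ⟨v, by simp⟩
  obtain ⟨w, hw, hw2⟩ := exists_mem_eq_sup _ hne (fun w => G.dist v w)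
  rw [mem_filter] at hw
  have h1 : hgtTo G P v = G.dist v w := hw2
  obtain ⟨s, hs, hsw⟩ := hh w
  have h2 := distTo_le (G := G) (v := w) hs
  have h3 : distTo G P v ≠ 0 := fun h => hv (mem_of_zero hG hP h)
  omega

theorem gen_B {k n c h : ℕ} (D : Fin n → Fin n → Prop) (hD : ∀ x, ¬ D x x)
    (T : Fin (k + 1) → Fin (k + 1) → Prop) (hTas : ∀ a b, T a b → ¬ T b a)
    (hT : (SimpleGraph.fromRel T).IsTree) (P : Finset (Fin (k + 1)))
    (hPc : ((SimpleGraph.fromRel T).induce (P : Set (Fin (k + 1)))).Connected)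
    (hh : ∀ x, ∃ s ∈ P, (SimpleGraph.fromRel T).dist s x ≤ h)
    (hc : ∀ (n' : ℕ) (D' : Fin n' → Fin n' → Prop), (∀ x, ¬ D' x x) →
      ((c : ℕ) : ℕ∞) < (SimpleGraph.fromRel D').chromaticNumber →
      ∃ g : Fin (k + 1) → Fin n', Set.InjOn g P ∧ ∀ x ∈ P, ∀ y ∈ P, T x y → D' (g x) (g y))
    (hχ : ((c + 72 * ((P.card - 1) * (1 + 2 * Nat.log 3 h) +
      ∑ v ∈ univ \ P, (1 + 2 * Nat.log 3 (hgtTo (SimpleGraph.fromRel T) P v))) : ℕ) : ℕ∞) <
      (SimpleGraph.fromRel D).chromaticNumber) : Cont T D := by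
  classical
  set G := SimpleGraph.fromRel T with hG
  have hGc : G.Connected := hT.connected
  obtain ⟨⟨r, hr⟩⟩ := hPc.nonempty
  have hP : P.Nonempty := ⟨r, Finset.mem_coe.1 hr⟩
  set H := (univ \ P).sup (fun v => hgtTo G P v + 1) with hH
  -- the number of thresholds
  have hex : ∃ J, H ≤ th J := ⟨H + 1, (lt_th H).le⟩
  set J := Nat.find hex with hJdef
  have hJ : H ≤ th J := Nat.find_spec hex
  have hJmin : ∀ j < J, th j < H := fun j hj => not_le.1 (Nat.find_min hex hj)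
  have hHle : ∀ v, v ∉ P → hgtTo G P v < th J := by
    intro v hv
    have h1 : hgtTo G P v + 1 ≤ H := le_sup (f := fun v => hgtTo G P v + 1) (by simp [hv])
    omega
  have hHh : ∀ j < J, th j ≤ h := by
    intro j hj
    have h1 := hJmin j hj
    have h2 : H ≤ h := by
      refine Finset.sup_le fun v hv => ?_
      have h3 : v ∉ P := by simpa using hv
      exact hgtTo_lt hGc hP hh h3
    omega
  refine stmt_HSR stmt_HS1 k n c J D hD T hTas hT P hPc hc th th_strict rfl hHle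
    (lt_of_le_of_lt ?_ hχ)
  have h1 : ∑ j ∈ range J, (P.card - 1 + ((univ \ P).filter (fun v => th j ≤ hgtTo G P v)).card) *
      (Nat.log 3 (th (j + 1) - th j) + 2) ≤
      (P.card - 1) * (3 + 6 * Nat.log 3 h) + ∑ v ∈ univ \ P, (3 + 6 * Nat.log 3 (hgtTo G P v)) := by
    calc _ ≤ ∑ j ∈ range J, (P.card - 1 +
          ((univ \ P).filter (fun v => th j ≤ hgtTo G P v)).card) * (2 ^ j + 2) := by
          refine sum_le_sum fun j _ => Nat.mul_le_mul_left _ ?_
          have := log_diff j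
          omega
      _ = (P.card - 1) * (∑ j ∈ range J, (2 ^ j + 2)) +
          ∑ v ∈ univ \ P, ∑ j ∈ range J, (if th j ≤ hgtTo G P v then 2 ^ j + 2 else 0) := by
          rw [sum_comm, mul_sum, ← sum_add_distrib]
          refine sum_congr rfl fun j _ => ?_
          rw [← sum_filter, sum_const, smul_eq_mul]
          ring
      _ ≤ _ := by
          refine Nat.add_le_add (Nat.mul_le_mul_left _ ?_) (sum_le_sum fun v _ => sumW _ _)
          refine le_trans (le_of_eq ?_) (sumW h J)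
          refine sum_congr rfl fun j hj => ?_
          rw [if_pos (hHh j (mem_range.1 hj))]
  have h2 : (P.card - 1) * (3 + 6 * Nat.log 3 h) +
      ∑ v ∈ univ \ P, (3 + 6 * Nat.log 3 (hgtTo G P v)) =
      3 * ((P.card - 1) * (1 + 2 * Nat.log 3 h) +
        ∑ v ∈ univ \ P, (1 + 2 * Nat.log 3 (hgtTo G P v))) := by
    rw [Nat.mul_add 3, mul_sum]
    congr 1
    · ring
    · refine sum_congr rfl fun v _ => ?_
      ring
  rw [h2] at h1
  have h3 := Nat.mul_le_mul_left 24 h1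
  have h4 : (c + 24 * ∑ j ∈ range J, (P.card - 1 +
      ((univ \ P).filter (fun v => th j ≤ hgtTo G P v)).card) *
      (Nat.log 3 (th (j + 1) - th j) + 2)) ≤
      c + 72 * ((P.card - 1) * (1 + 2 * Nat.log 3 h) +
        ∑ v ∈ univ \ P, (1 + 2 * Nat.log 3 (hgtTo G P v))) := by
    omega
  exact_mod_cast h4

/-- trees over a subtree `P`, both bounds -/
theorem gen {k n c h : ℕ} (D : Fin n → Fin n → Prop) (hD : ∀ x, ¬ D x x)
    (T : Fin (k + 1) → Fin (k + 1) → Prop) (hTas : ∀ a b, T a b → ¬ T b a)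
    (hT : (SimpleGraph.fromRel T).IsTree) (P : Finset (Fin (k + 1)))
    (hPc : ((SimpleGraph.fromRel T).induce (P : Set (Fin (k + 1)))).Connected)
    (h1 : 1 ≤ h)
    (hh : ∀ x, ∃ s ∈ P, (SimpleGraph.fromRel T).dist s x ≤ h)
    (hc : ∀ (n' : ℕ) (D' : Fin n' → Fin n' → Prop), (∀ x, ¬ D' x x) →
      ((c : ℕ) : ℕ∞) < (SimpleGraph.fromRel D').chromaticNumber →
      ∃ g : Fin (k + 1) → Fin n', Set.InjOn g P ∧ ∀ x ∈ P, ∀ y ∈ P, T x y → D' (g x) (g y))
    (hχ : ((c + min (24 * k * (Nat.log 3 h + 2)) (72 * ((P.card - 1) * (1 + 2 * Nat.log 3 h) +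
      ∑ v ∈ univ \ P, (1 + 2 * Nat.log 3 (hgtTo (SimpleGraph.fromRel T) P v)))) : ℕ) : ℕ∞) <
      (SimpleGraph.fromRel D).chromaticNumber) : Cont T D := by
  rcases le_total (24 * k * (Nat.log 3 h + 2)) (72 * ((P.card - 1) * (1 + 2 * Nat.log 3 h) +
      ∑ v ∈ univ \ P, (1 + 2 * Nat.log 3 (hgtTo (SimpleGraph.fromRel T) P v)))) with hle | hle
  · rw [min_eq_left hle] at hχ
    exact Pool.Agent.Work.MP_6241b7_rad.near_subtree D hD hTas hT P hPc h1 hh hc hχ
  · rw [min_eq_right hle] at hχ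
    exact gen_B D hD T hTas hT P hPc hh hc hχ

open Pool.Agent.Work.MP_6241b7_co Pool.Agent.Work.MP_6241b7_co.Frac in
/-- a directed path is contained in every digraph of chromatic number larger than its length -/
theorem path_forced {k m : ℕ} {T : Fin (k + 1) → Fin (k + 1) → Prop} (hTas : ∀ a b, T a b → ¬ T b a)
    (hT : (SimpleGraph.fromRel T).IsTree)
    (p : Fin (m + 1) → Fin (k + 1)) (hp : Function.Injective p)
    (hpT : ∀ i : Fin m, T (p i.castSucc) (p i.succ)) (n : ℕ) (D : Fin n → Fin n → Prop)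
    (hD : ∀ x, ¬ D x x) (hχ : ((m : ℕ) : ℕ∞) < (SimpleGraph.fromRel D).chromaticNumber) :
    ∃ g : Fin (k + 1) → Fin n, Set.InjOn g (univ.image p : Finset (Fin (k + 1))) ∧
      ∀ x ∈ univ.image p, ∀ y ∈ univ.image p, T x y → D (g x) (g y) := by
  classical
  have hmem : ∀ i, p i ∈ univ.image p := fun i => Finset.mem_image_of_mem p (mem_univ i)
  have hpath : DPath D (univ : Finset (Fin n)) m := by
    by_contra hno
    obtain ⟨ℓ, hℓ1, hℓ2⟩ := gallai_roy hD hno
    have h2 : (SimpleGraph.fromRel D).Colorable m := by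
      refine ⟨SimpleGraph.Coloring.mk (fun v => (⟨ℓ v, hℓ1 v (mem_univ _)⟩ : Fin m)) ?_⟩
      intro u v huv heq
      rw [SimpleGraph.fromRel_adj] at huv
      have h3 : ℓ u = ℓ v := congrArg Fin.val heq
      rcases huv.2 with h4 | h4
      · exact hℓ2 u (mem_univ _) v (mem_univ _) h4 h3
      · exact hℓ2 v (mem_univ _) u (mem_univ _) h4 h3.symm
    exact absurd hχ (not_lt.2 h2.chromaticNumber_le)
  obtain ⟨r, -, hr2, hr3⟩ := hpath
  have hex : ∀ x : Fin (k + 1), ∃ i : Fin (m + 1), x ∈ univ.image p → p i = x := by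
    intro x
    by_cases hx : x ∈ univ.image p
    · obtain ⟨i, -, hi⟩ := Finset.mem_image.1 hx
      exact ⟨i, fun _ => hi⟩
    · exact ⟨0, fun h => absurd h hx⟩
  choose ix hix using hex
  have hixp : ∀ i, ix (p i) = i := fun i => hp (hix _ (hmem i))
  refine ⟨fun x => r (ix x).1, ?_, ?_⟩
  · intro x hx y hy hxy
    have h3 := hr3 _ (by have := (ix x).2; omega) _ (by have := (ix y).2; omega) hxy
    rw [← hix x (Finset.mem_coe.1 hx), ← hix y (Finset.mem_coe.1 hy), Fin.ext h3]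
  · intro x hx y hy hxy
    obtain ⟨i, -, rfl⟩ := Finset.mem_image.1 hx
    obtain ⟨j, -, rfl⟩ := Finset.mem_image.1 hy
    change D (r (ix (p i)).1) (r (ix (p j)).1)
    rw [hixp, hixp]
    have hne : p i ≠ p j := by
      intro h3
      rw [h3] at hxy
      exact hTas _ _ hxy hxy
    have hpar : ∀ v, ∃ u, 0 < ht (SimpleGraph.fromRel T) p v →
        ((SimpleGraph.fromRel T).Adj v u ∧
        ht (SimpleGraph.fromRel T) p u + 1 = ht (SimpleGraph.fromRel T) p v) := by
      intro v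
      by_cases hv : 0 < ht (SimpleGraph.fromRel T) p v
      · obtain ⟨u, hu⟩ := Pool.Agent.Work.MP_6241b7_co.Frac.exists_par hT.connected p hv
        exact ⟨u, fun _ => hu⟩
      · exact ⟨v, fun h => absurd h hv⟩
    choose par hpar using hpar
    have hz : ∀ j, ht (SimpleGraph.fromRel T) p (p j) = 0 := fun j =>
      (ht_eq_zero hT.connected p).2 ⟨j, rfl⟩
    rcases (edges hT hp hpT par hpar).2 _ _
      ((SimpleGraph.fromRel_adj _ _ _).2 ⟨hne, Or.inl hxy⟩) with ⟨l, hl⟩ | ⟨h3, -⟩ | ⟨h3, -⟩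
    · rcases Sym2.eq_iff.1 hl with ⟨h3, h4⟩ | ⟨h3, h4⟩
      · rw [hp h3, hp h4]
        exact hr2 l.1 l.2
      · exfalso
        rw [h3, h4] at hxy
        exact hTas _ _ hxy (hpT l)
    · rw [hz] at h3
      omega
    · rw [hz] at h3
      omega

/-- the vertex set of a directed path is connected -/
theorem path_conn {k m : ℕ} {T : Fin (k + 1) → Fin (k + 1) → Prop}
    (p : Fin (m + 1) → Fin (k + 1)) (hp : Function.Injective p)
    (hpT : ∀ i : Fin m, T (p i.castSucc) (p i.succ)) :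
    ((SimpleGraph.fromRel T).induce ((univ.image p : Finset (Fin (k + 1))) :
      Set (Fin (k + 1)))).Connected := by
  classical
  have hmem : ∀ i, p i ∈ univ.image p := fun i => Finset.mem_image_of_mem p (mem_univ i)
  set G := (SimpleGraph.fromRel T).induce ((univ.image p : Finset (Fin (k + 1))) :
    Set (Fin (k + 1))) with hG
  have hreach : ∀ j : ℕ, ∀ hj : j < m + 1, G.Reachable
      ⟨p 0, Finset.mem_coe.2 (hmem 0)⟩ ⟨p ⟨j, hj⟩, Finset.mem_coe.2 (hmem _)⟩ := by
    intro j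
    induction j with
    | zero => intro hj; exact SimpleGraph.Reachable.refl _
    | succ j ih =>
      intro hj
      refine (ih (by omega)).trans (SimpleGraph.Adj.reachable ?_)
      rw [hG, SimpleGraph.comap_adj, SimpleGraph.fromRel_adj]
      have h2 := hpT ⟨j, by omega⟩
      refine ⟨fun h3 => ?_, Or.inl h2⟩
      have h4 := hp (show p ⟨j, _⟩ = p ⟨j + 1, _⟩ from h3)
      have h5 := congrArg Fin.val h4
      simp at h5
  have : Nonempty ((univ.image p : Finset (Fin (k + 1))) : Set (Fin (k + 1))) :=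
    ⟨⟨p 0, Finset.mem_coe.2 (hmem 0)⟩⟩
  refine ⟨fun a b => ?_⟩
  obtain ⟨a, ha⟩ := a
  obtain ⟨b, hb⟩ := b
  obtain ⟨i, -, rfl⟩ := Finset.mem_image.1 (Finset.mem_coe.1 ha)
  obtain ⟨j, -, rfl⟩ := Finset.mem_image.1 (Finset.mem_coe.1 hb)
  exact (hreach i.1 i.2).symm.trans (hreach j.1 j.2)

end HSFaux

end Pool.AA
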