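import Pool.Agent.Work.MP_6241b7_aa.Interface

/-!
# MP_6241b7_aa: height levels relative to a subtree
-/

set_option autoImplicit false

open Finset

namespace Pool.AA

/-- distance of the vertex `v` to the vertex set `P` -/
noncomputable def distTo {n : ℕ} (G : SimpleGraph (Fin n)) (P : Finset (Fin n)) (v : Fin n) : ℕ :=
  sInf {d | ∃ s ∈ P, G.dist s v = d}

/-- height of `v` over `P`: the largest distance from `v` to a vertex `w` such that `v` lies between `P`
and `w` -/
noncomputable def hgtTo {n : ℕ} (G : SimpleGraph (Fin n)) (P : Finset (Fin n)) (v : Fin n) : ℕ :=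
  (univ.filter (fun w => distTo G P w = distTo G P v + G.dist v w)).sup (fun w => G.dist v w)

/-- trees by height levels over a subtree `P` -/
def Stmt_HSR : Prop := ∀ (k n c J : ℕ) (D : Fin n → Fin n → Prop), (∀ x, ¬ D x x) →
  ∀ (T : Fin (k + 1) → Fin (k + 1) → Prop), (∀ a b, T a b → ¬ T b a) →
  (SimpleGraph.fromRel T).IsTree →
  ∀ (P : Finset (Fin (k + 1))),
  ((SimpleGraph.fromRel T).induce (P : Set (Fin (k + 1)))).Connected →
  (∀ (n' : ℕ) (D' : Fin n' → Fin n' → Prop), (∀ x, ¬ D' x x) →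
    ((c : ℕ) : ℕ∞) < (SimpleGraph.fromRel D').chromaticNumber →
    ∃ g : Fin (k + 1) → Fin n', Set.InjOn g P ∧ ∀ x ∈ P, ∀ y ∈ P, T x y → D' (g x) (g y)) →
  ∀ (θ : ℕ → ℕ), StrictMono θ → θ 0 = 0 →
  (∀ v, v ∉ P → hgtTo (SimpleGraph.fromRel T) P v < θ J) →
  ((c + 24 * ∑ j ∈ range J, (P.card - 1 +
      ((univ \ P).filter (fun v => θ j ≤ hgtTo (SimpleGraph.fromRel T) P v)).card) *
      (Nat.log 3 (θ (j + 1) - θ j) + 2) : ℕ) : ℕ∞) <
    (SimpleGraph.fromRel D).chromaticNumber → Cont T D

namespace HSRaux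

section graph

variable {k : ℕ} {G : SimpleGraph (Fin (k + 1))} (hG : G.Connected) {P : Finset (Fin (k + 1))}
  (hP : P.Nonempty)

theorem distTo_le {s v : Fin (k + 1)} (hs : s ∈ P) : distTo G P v ≤ G.dist s v :=
  Nat.sInf_le ⟨s, hs, rfl⟩

include hP in
theorem distTo_mem (v : Fin (k + 1)) : ∃ s ∈ P, G.dist s v = distTo G P v := by
  obtain ⟨s, hs⟩ := hP
  exact Nat.sInf_mem (s := {d | ∃ s ∈ P, G.dist s v = d}) ⟨_, s, hs, rfl⟩

theorem distTo_zero {v : Fin (k + 1)} (hv : v ∈ P) : distTo G P v = 0 := by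
  have := distTo_le (G := G) (v := v) hv
  simpa using this

include hG hP in
theorem mem_of_zero {v : Fin (k + 1)} (hv : distTo G P v = 0) : v ∈ P := by
  obtain ⟨s, hs, h⟩ := distTo_mem (G := G) hP v
  rw [hv] at h
  rw [← (hG.dist_eq_zero_iff).1 h]
  exact hs

include hG hP in
theorem distTo_tri (v w : Fin (k + 1)) : distTo G P w ≤ distTo G P v + G.dist v w := by
  obtain ⟨s, hs, h⟩ := distTo_mem (G := G) hP v
  have h1 := distTo_le (G := G) (v := w) hs
  have h2 : G.dist s w ≤ G.dist s v + G.dist v w := hG.dist_triangle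
  omega

include hG hP in
theorem exists_par (v : Fin (k + 1)) (hv : v ∉ P) :
    ∃ u, G.Adj v u ∧ distTo G P u + 1 = distTo G P v := by
  obtain ⟨s, hs, h⟩ := distTo_mem (G := G) hP v
  obtain ⟨p, hp⟩ := hG.exists_walk_length_eq_dist v s
  cases p with
  | nil => exact absurd hs hv
  | @cons _ u _ ha q =>
    refine ⟨u, ha, ?_⟩
    rw [SimpleGraph.Walk.length_cons, SimpleGraph.dist_comm, h] at hp
    have h1 : G.dist u s ≤ q.length := SimpleGraph.dist_le q
    have h2 := distTo_le (G := G) (v := u) hs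
    rw [SimpleGraph.dist_comm] at h2
    have h3 : G.dist u v = 1 := SimpleGraph.dist_eq_one_iff_adj.2 ha.symm
    have h4 := distTo_tri hG hP u v
    omega

include hG hP in
theorem hgt_par {u v : Fin (k + 1)} (h : G.Adj v u) (hd : distTo G P u + 1 = distTo G P v) :
    hgtTo G P v + 1 ≤ hgtTo G P u := by
  have hne : (univ.filter (fun w => distTo G P w = distTo G P v + G.dist v w)).Nonempty :=
    ⟨v, by simp⟩
  obtain ⟨w, hw, hw2⟩ := exists_mem_eq_sup _ hne (fun w => G.dist v w)
  rw [mem_filter] at hw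
  have h1 : hgtTo G P v = G.dist v w := hw2
  have h2 := distTo_tri hG hP u w
  have h3 : G.dist u w ≤ G.dist u v + G.dist v w := hG.dist_triangle
  have h4 : G.dist u v = 1 := SimpleGraph.dist_eq_one_iff_adj.2 h.symm
  have h5 : G.dist u w = 1 + G.dist v w := by omega
  have h6 : w ∈ univ.filter (fun w => distTo G P w = distTo G P u + G.dist u w) := by
    rw [mem_filter]
    exact ⟨mem_univ _, by omega⟩
  have h7 : G.dist u w ≤ hgtTo G P u := le_sup (f := fun w => G.dist u w) h6
  omega

end graph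

/-- `P` and the vertices of height at least `t` -/
noncomputable def SS {k : ℕ} (G : SimpleGraph (Fin (k + 1))) (P : Finset (Fin (k + 1))) (t : ℕ) :
    Finset (Fin (k + 1)) :=
  univ.filter (fun v => v ∈ P ∨ t ≤ hgtTo G P v)

theorem P_sub {k : ℕ} (G : SimpleGraph (Fin (k + 1))) (P : Finset (Fin (k + 1))) (t : ℕ) :
    P ⊆ SS G P t := by
  intro v hv
  simp [SS, hv]

theorem SS_anti {k : ℕ} (G : SimpleGraph (Fin (k + 1))) (P : Finset (Fin (k + 1))) {s t : ℕ}
    (h : s ≤ t) : SS G P t ⊆ SS G P s := by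
  intro v hv
  simp only [SS, mem_filter, mem_univ, true_and] at hv ⊢
  rcases hv with h1 | h1
  · exact Or.inl h1
  · exact Or.inr (h.trans h1)

theorem SS_par {k : ℕ} {G : SimpleGraph (Fin (k + 1))} (hG : G.Connected)
    {P : Finset (Fin (k + 1))} (hP : P.Nonempty) {t : ℕ}
    {u v : Fin (k + 1)} (h : G.Adj v u) (hd : distTo G P u + 1 = distTo G P v) (hv : v ∈ SS G P t)
    : u ∈ SS G P t := by
  simp only [SS, mem_filter, mem_univ, true_and] at hv ⊢
  rcases hv with h1 | h1
  · rw [distTo_zero h1] at hd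
    omega
  · right
    have := hgt_par hG hP h hd
    omega

theorem SS_conn {k : ℕ} {G : SimpleGraph (Fin (k + 1))} (hG : G.Connected)
    {P : Finset (Fin (k + 1))} (hPc : (G.induce (P : Set (Fin (k + 1)))).Connected)
    (t : ℕ) : (G.induce (SS G P t : Set (Fin (k + 1)))).Connected := by
  obtain ⟨⟨r, hr⟩⟩ := hPc.nonempty
  have hr' : r ∈ P := Finset.mem_coe.1 hr
  have hP : P.Nonempty := ⟨r, hr'⟩
  have hsub : (P : Set (Fin (k + 1))) ⊆ (SS G P t : Set (Fin (k + 1))) :=
    Finset.coe_subset.2 (P_sub G P t)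
  have key : ∀ d : ℕ, ∀ v (hv : v ∈ SS G P t), distTo G P v = d →
      (G.induce (SS G P t : Set (Fin (k + 1)))).Reachable ⟨v, Finset.mem_coe.2 hv⟩
        ⟨r, hsub hr⟩ := by
    intro d
    induction d with
    | zero =>
      intro v hv h
      have h1 := mem_of_zero hG hP h
      have h2 := hPc.preconnected ⟨v, Finset.mem_coe.2 h1⟩ ⟨r, hr⟩
      exact h2.map (SimpleGraph.induceHomOfLE G hsub).toHom
    | succ d ih =>
      intro v hv h
      have hvP : v ∉ P := by
        intro hv'
        rw [distTo_zero hv'] at h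
        omega
      obtain ⟨u, hu, hd⟩ := exists_par hG hP v hvP
      have hus := SS_par hG hP hu hd hv
      refine SimpleGraph.Reachable.trans (SimpleGraph.Adj.reachable ?_) (ih u hus (by omega))
      rw [SimpleGraph.comap_adj]
      exact hu
  have : Nonempty ((SS G P t : Finset (Fin (k + 1))) : Set (Fin (k + 1))) := ⟨⟨r, hsub hr⟩⟩
  refine ⟨fun a b => ?_⟩
  exact (key _ a.1 (Finset.mem_coe.1 a.2) rfl).trans (key _ b.1 (Finset.mem_coe.1 b.2) rfl).symm

theorem SS_walk {k : ℕ} {G : SimpleGraph (Fin (k + 1))} (hG : G.Connected)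
    {P : Finset (Fin (k + 1))} (hP : P.Nonempty)
    (s t : ℕ) : ∀ d : ℕ, ∀ x ∈ SS G P s, distTo G P x = d →
    ∃ i : ℕ, (i = 0 ∨ i + hgtTo G P x ≤ t) ∧ (i = 0 ∨ x ∉ P) ∧
      ∃ p : ℕ → Fin (k + 1), p 0 = x ∧
      p i ∈ SS G P t ∧ (∀ l ≤ i, p l ∈ SS G P s) ∧ ∀ l < i, G.Adj (p l) (p (l + 1)) := by
  intro d
  induction d with
  | zero =>
    intro x hx h
    have h1 := mem_of_zero hG hP h
    refine ⟨0, Or.inl rfl, Or.inl rfl, fun _ => x, rfl, P_sub G P _ h1, fun _ _ => hx, ?_⟩
    intro l hl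
    omega
  | succ d ih =>
    intro x hx h
    by_cases hxS : x ∈ SS G P t
    · refine ⟨0, Or.inl rfl, Or.inl rfl, fun _ => x, rfl, hxS, fun _ _ => hx, ?_⟩
      intro l hl
      omega
    · have hxP : x ∉ P := fun h => hxS (P_sub G P _ h)
      have hlt : hgtTo G P x < t := by
        by_contra hcon
        exact hxS (by simp only [SS, mem_filter, mem_univ, true_and]; exact Or.inr (by omega))
      obtain ⟨u, hu, hd⟩ := exists_par hG hP x hxP
      have hus := SS_par hG hP hu hd hx
      have hH := hgt_par hG hP hu hd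
      obtain ⟨i, hi, -, p, hp0, hpi, hpS, hpA⟩ := ih u hus (by omega)
      refine ⟨i + 1, Or.inr (by omega), Or.inr hxP, fun l => Nat.casesOn l x p, rfl, hpi, ?_, ?_⟩
      · intro l hl
        rcases l with _ | l
        · exact hx
        · exact hpS l (by omega)
      · intro l hl
        rcases l with _ | l
        · change G.Adj x (p 0)
          rw [hp0]
          exact hu
        · exact hpA l (by omega)

theorem card_SS {k : ℕ} (G : SimpleGraph (Fin (k + 1))) {P : Finset (Fin (k + 1))}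
    (hP : P.Nonempty) (t : ℕ) :
    (SS G P t).card - 1 = P.card - 1 + ((univ \ P).filter (fun v => t ≤ hgtTo G P v)).card := by
  have h : SS G P t = P ∪ ((univ \ P).filter (fun v => t ≤ hgtTo G P v)) := by
    ext v
    simp only [SS, mem_filter, mem_univ, true_and, mem_union, mem_sdiff]
    constructor
    · rintro (h | h)
      · exact Or.inl h
      · by_cases hv : v ∈ P
        · exact Or.inl hv
        · exact Or.inr ⟨hv, h⟩
    · rintro (h | h)
      · exact Or.inl h
      · exact Or.inr h.2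
  have hdis : Disjoint P ((univ \ P).filter (fun v => t ≤ hgtTo G P v)) := by
    rw [disjoint_left]
    intro v hv hv2
    rw [mem_filter, mem_sdiff] at hv2
    exact hv2.1.2 hv
  have h1 := hP.card_pos
  rw [h, card_union_of_disjoint hdis]
  omega

end HSRaux

open HSRaux

theorem stmt_HSR : Stmt_HS1 → Stmt_HSR := by
  intro hHS1 k n c J D hD T hTas hT P hPc hc θ hθ hθ0 hJ hχ
  classical
  set G := SimpleGraph.fromRel T with hGdef
  have hGc : G.Connected := hT.connected
  obtain ⟨⟨r, hr⟩⟩ := hPc.nonempty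
  have hP : P.Nonempty := ⟨r, Finset.mem_coe.1 hr⟩
  have hSJ : SS G P (θ J) = P := by
    refine le_antisymm ?_ (P_sub G P _)
    intro v hv
    simp only [SS, mem_filter, mem_univ, true_and] at hv
    rcases hv with h | h
    · exact h
    · by_contra hcon
      have := hJ v hcon
      omega
  have main : ∀ i : ℕ, i ≤ J → ∀ (n : ℕ) (D : Fin n → Fin n → Prop), (∀ x, ¬ D x x) →
      (((c + ∑ j ∈ Ico (J - i) J, 24 * ((SS G P (θ j)).card - 1) *
        (Nat.log 3 (θ (j + 1) - θ j) + 2)) : ℕ) : ℕ∞) <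
        (SimpleGraph.fromRel D).chromaticNumber →
      ∃ g : Fin (k + 1) → Fin n, Set.InjOn g (SS G P (θ (J - i))) ∧
        ∀ x ∈ SS G P (θ (J - i)), ∀ y ∈ SS G P (θ (J - i)), T x y → D (g x) (g y) := by
    intro i
    induction i with
    | zero =>
      intro _ n D hD hχ
      rw [Nat.sub_zero, hSJ]
      refine hc n D hD (lt_of_le_of_lt ?_ hχ)
      simp
    | succ i ih =>
      intro hi
      have hJi : J - i = (J - (i + 1)) + 1 := by omega
      set j := J - (i + 1) with hj
      have ih' := ih (by omega)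
      rw [hJi] at ih'
      have hlt : θ j < θ (j + 1) := hθ (Nat.lt_succ_self j)
      have h1 := hHS1 k (θ (j + 1) - θ j)
        (c + ∑ j ∈ Ico (j + 1) J, 24 * ((SS G P (θ j)).card - 1) *
          (Nat.log 3 (θ (j + 1) - θ j) + 2)) T
        hTas hT (SS G P (θ (j + 1))) (SS G P (θ j)) (SS_anti G P hlt.le) (SS_conn hGc hPc _)
        (SS_conn hGc hPc _) (by omega) ?_ ih'
      · intro n D hD hχ
        refine h1 n D hD (lt_of_le_of_lt ?_ hχ)
        rw [Finset.sum_eq_sum_Ico_succ_bot (by omega : j < J)]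
        exact_mod_cast le_of_eq (by ring)
      · intro x hx
        obtain ⟨i, hi, hi2, p, hp0, hpi, hpS, hpA⟩ := SS_walk hGc hP (θ j) (θ (j + 1)) _ x hx rfl
        refine ⟨i, ?_, p, hp0, hpi, hpS, hpA⟩
        rcases hi with h | h
        · omega
        · rcases hi2 with h2 | h2
          · omega
          · simp only [SS, mem_filter, mem_univ, true_and] at hx
            rcases hx with h3 | h3
            · exact absurd h3 h2
            · omega
  have hfin := main J le_rfl n D hD (lt_of_le_of_lt ?_ hχ)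
  · obtain ⟨g, hg1, hg2⟩ := hfin
    have hS0 : SS G P (θ (J - J)) = univ := by
      rw [Nat.sub_self, hθ0]
      ext v
      simp [SS]
    rw [hS0] at hg1 hg2
    refine ⟨g, ?_, fun x y hxy => hg2 x (mem_univ _) y (mem_univ _) hxy⟩
    intro x y hxy
    exact hg1 (by simp) (by simp) hxy
  · rw [Nat.sub_self, ← Finset.range_eq_Ico, mul_sum]
    refine le_of_eq ?_
    congr 2
    refine sum_congr rfl fun j _ => ?_
    rw [card_SS G hP]
    ring

end Pool.AA
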